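import Pool.Agent.H16.GP2.Defs
import Pool.Agent.H16.GPS.Num.Corr

/-!
JOB GP2-CORR (MP_c183ae_nt). Correlations of the majorant at distinct multipliers, `w` constant.

PROOF. Copy the proof of `corr` in `H16/GPS/Num/Corr.lean` (imported: `corr_logpow`, `kk_lower`, `kk_upper`, `zz_lower`,
`zz_upper`, `RR_upper`, `zz_pow`, `log_zz`, `log_RR`, `corr_err` can be used). Take `w₀ ≥ exp 100`, `w₀ ≥ 2 t + 2`. Changes:
(1) `P = PQ K η ℓ w`, `W = Wp w` (all prime factors `≤ w`), `hlogw : 100 ≤ log w`, `hwt : 2 t ≤ w` from `w ≥ w₀`;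
`w ≤ zz K η ℓ` eventually (`zz_lower`); `m ≤ exp (sqrt ℓ) ≤ zz K η ℓ` eventually (`zz ≥ exp (η ℓ/(4k+5)) - 1`,
`η ℓ / (4 k + 5) ≥ 2 sqrt ℓ`, `k ≤ K (log ℓ + 1)`). (2) `1 / VP P ≤ C₃ log z`: copy `VP_lower` for `PQ` (same proof, no `erase`).
(3) no `prod_compare`: the main term is `V / VP P ^ n = sing P ℳ` exactly, and instead of `V / VP P ^ n ≤ 2` use
`0 ≤ V ≤ 1` (`0 ≤ 1 - ρ/p ≤ 1`, `ρ ≤ t ≤ w < p`), so `V / VP P ^ n ≤ (1 / VP P) ^ n ≤ (C₃ ℓ) ^ t`. The first error term becomes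
`(C₃ ℓ)^t (G S)^n ((1/2)^k + 9 t²/z) ≤ C (exp (5 t L) exp (- (8 t + 1/2) L) + exp(5 t L) / z)`, `L = log ℓ`, which tends to `0`
(`z ≥ exp (L^4)`); `(1/2)^k ≤ exp (-k/2)`, `k ≥ (16 t + 1) L`. The second error term is unchanged. ~250 lines, mostly copied.
-/

set_option autoImplicit false

open Finset Filter

namespace Pool.Agent.H16.GP2

open Pool.Agent.H16 Pool.Agent.H16.GPS


/-- `1/VP P ≤ C log z` -/
private lemma cq_VP_lower : ∃ C : ℝ, 1 ≤ C ∧ ∀ (K : ℕ) (η ℓ : ℝ) (w : ℕ), 2 ≤ zz K η ℓ →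
    0 < VP (PQ K η ℓ w) ∧ 1 / VP (PQ K η ℓ w) ≤ C * Real.log (zz K η ℓ) := by
  obtain ⟨c, hc, h⟩ := Vp_ge
  refine ⟨max 1 (1 / c), le_max_left _ _, fun K η ℓ w hz => ?_⟩
  have hprime : ∀ p ∈ PQ K η ℓ w, p.Prime := by
    intro p hp
    unfold PQ at hp
    rw [mem_primesIoc] at hp
    exact hp.2.2
  have hpos : 0 < VP (PQ K η ℓ w) := by
    unfold VP
    refine Finset.prod_pos (fun p hp => ?_)
    exact one_sub_inv_pos (hprime p hp)
  refine ⟨hpos, ?_⟩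
  have h1 : Vp (zz K η ℓ) ≤ VP (PQ K η ℓ w) := by
    have hsub : PQ K η ℓ w ⊆ Nat.primesLE (zz K η ℓ) := by
      intro p hp
      unfold PQ at hp
      rw [mem_primesIoc] at hp
      exact Nat.mem_primesLE.mpr ⟨hp.2.1, hp.2.2⟩
    unfold Vp VP
    rw [← Finset.prod_sdiff hsub]
    refine mul_le_of_le_one_left ?_ ?_
    · exact Finset.prod_nonneg (fun p hp => (one_sub_inv_pos (hprime p hp)).le)
    · refine Finset.prod_le_one (fun p hp => ?_) (fun p hp => ?_)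
      · rw [Finset.mem_sdiff, Nat.mem_primesLE] at hp
        exact (one_sub_inv_pos hp.1.2).le
      · have : (0:ℝ) ≤ 1 / (p:ℝ) := by positivity
        linarith
  have hz1 : (1 : ℝ) < zz K η ℓ := by exact_mod_cast hz
  have hlog : 0 < Real.log (zz K η ℓ) := Real.log_pos hz1
  have h2 := h (zz K η ℓ) hz
  have h3 : c / Real.log (zz K η ℓ) ≤ VP (PQ K η ℓ w) := h2.trans h1
  calc 1 / VP (PQ K η ℓ w) ≤ 1 / (c / Real.log (zz K η ℓ)) :=
        one_div_le_one_div_of_le (by positivity) h3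
    _ = 1 / c * Real.log (zz K η ℓ) := by field_simp
    _ ≤ _ := mul_le_mul_of_nonneg_right (le_max_right _ _) hlog.le

/-- the sieving limit is larger than the multipliers -/
private lemma cq_zz_sqrt (K : ℕ) (η : ℝ) (hη0 : 0 < η) :
    ∀ᶠ ℓ : ℝ in atTop, Real.exp (Real.sqrt ℓ) ≤ zz K η ℓ := by
  have hlo : ∀ᶠ ℓ : ℝ in atTop, 2 * (8 * (K : ℝ) + 9) / η * Real.log ℓ ≤ Real.sqrt ℓ := by
    have h := (isLittleO_log_rpow_atTop (show (0 : ℝ) < 1 / 2 by norm_num)).bound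
      (c := 1 / (2 * (8 * (K : ℝ) + 9) / η)) (by positivity)
    filter_upwards [h, eventually_ge_atTop 1] with ℓ h1 h2
    have hl : 0 ≤ Real.log ℓ := Real.log_nonneg h2
    simp only [Real.norm_eq_abs] at h1
    rw [abs_of_nonneg hl, abs_of_nonneg (by positivity)] at h1
    rw [Real.sqrt_eq_rpow]
    have hpos : 0 < 2 * (8 * (K : ℝ) + 9) / η := by positivity
    calc 2 * (8 * (K : ℝ) + 9) / η * Real.log ℓ ≤
        2 * (8 * (K : ℝ) + 9) / η * (1 / (2 * (8 * (K : ℝ) + 9) / η) * ℓ ^ (1 / 2 : ℝ)) :=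
          mul_le_mul_of_nonneg_left h1 hpos.le
      _ = ℓ ^ (1 / 2 : ℝ) := by field_simp
  filter_upwards [hlo, eventually_ge_atTop (Real.exp 1)] with ℓ h1 h2
  have hℓ0 : 0 < ℓ := lt_of_lt_of_le (Real.exp_pos 1) h2
  have he1 : (1 : ℝ) ≤ Real.exp 1 := Real.one_le_exp (by norm_num)
  have hL : 1 ≤ Real.log ℓ := by
    rw [Real.le_log_iff_exp_le hℓ0]; exact h2
  have hk := kk_upper K ℓ (by linarith)
  set L := Real.log ℓ with hLdef
  set S := Real.sqrt ℓ with hS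
  have hSS : S * S = ℓ := Real.mul_self_sqrt hℓ0.le
  have hS1 : 1 ≤ S := by
    rw [hS, Real.one_le_sqrt]; linarith
  have hden : 4 * (kk K ℓ : ℝ) + 5 ≤ (8 * K + 9) * L := by
    have h3 : (K : ℝ) * (L + 1) ≤ K * (2 * L) :=
      mul_le_mul_of_nonneg_left (by linarith) (by positivity)
    nlinarith
  have hden0 : (0 : ℝ) < 4 * (kk K ℓ : ℝ) + 5 := by positivity
  have h4 : 2 * S ≤ η * ℓ / (4 * (kk K ℓ : ℝ) + 5) := by
    rw [le_div_iff₀ hden0]
    calc 2 * S * (4 * (kk K ℓ : ℝ) + 5) ≤ 2 * S * ((8 * K + 9) * L) :=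
          mul_le_mul_of_nonneg_left hden (by positivity)
      _ = η * (S * (2 * (8 * K + 9) / η * L)) := by field_simp
      _ ≤ η * (S * S) := by
          apply mul_le_mul_of_nonneg_left _ hη0.le
          exact mul_le_mul_of_nonneg_left h1 (by linarith)
      _ = η * ℓ := by rw [hSS]
  have h5 : Real.exp S + 1 ≤ Real.exp (2 * S) := by
    have e1 : Real.exp (2 * S) = Real.exp S * Real.exp S := by
      rw [← Real.exp_add]; ring_nf
    have e2 : 2 ≤ Real.exp S := by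
      have := Real.add_one_le_exp S
      linarith
    rw [e1]; nlinarith
  have h6 : Real.exp (2 * S) ≤ Real.exp (η * ℓ / (4 * (kk K ℓ : ℝ) + 5)) :=
    Real.exp_le_exp.mpr h4
  have h7 := Nat.sub_one_lt_floor (Real.exp (η * ℓ / (4 * (kk K ℓ : ℝ) + 5)))
  unfold zz
  linarith


/-- the total error tends to zero -/
private lemma corr_err2 (t : ℕ) (C C' : ℝ) : Tendsto (fun ℓ : ℝ =>
    C * (Real.exp (-(Real.log ℓ) / 2) + 9 * (t : ℝ) ^ 2 * Real.exp (5 * t * Real.log ℓ - (Real.log ℓ) ^ 4)) +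
    C' * (ℓ ^ (2 * t + 1) * Real.exp (-(ℓ / 4)))) atTop (nhds 0) := by
  have hlog : Tendsto Real.log atTop atTop := Real.tendsto_log_atTop
  have h1 : Tendsto (fun ℓ : ℝ => Real.exp (-(Real.log ℓ) / 2)) atTop (nhds 0) := by
    apply Real.tendsto_exp_atBot.comp
    have : Tendsto (fun x : ℝ => -x / 2) atTop atBot := by
      have := tendsto_neg_atTop_atBot.comp (tendsto_id.atTop_div_const (zero_lt_two (α := ℝ)))
      refine this.congr (fun x => ?_)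
      simp [neg_div]
    exact this.comp hlog
  have h2 : Tendsto (fun ℓ : ℝ => Real.exp (5 * t * Real.log ℓ - (Real.log ℓ) ^ 4)) atTop (nhds 0) := by
    apply Real.tendsto_exp_atBot.comp
    have h3 : Tendsto (fun x : ℝ => 5 * t * x - x ^ 4) atTop atBot := by
      rw [tendsto_atBot]
      intro b
      filter_upwards [eventually_ge_atTop (5 * (t : ℝ) + |b| + 1)] with x hx
      have hx0 : 5 * (t : ℝ) + |b| + 1 ≤ x := hx
      have ht : (0 : ℝ) ≤ t := by positivity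
      have hb := abs_nonneg b
      have hx1 : 1 ≤ x := by linarith
      have e1 : x ^ 2 ≤ x ^ 4 := pow_le_pow_right₀ hx1 (by norm_num)
      have e2 : (5 * (t : ℝ) + |b| + 1) * x ≤ x ^ 2 := by nlinarith
      have e3 : |b| ≤ |b| * x := le_mul_of_one_le_right hb hx1
      have e4 := neg_abs_le b
      nlinarith
    exact h3.comp hlog
  have h4 : Tendsto (fun ℓ : ℝ => ℓ ^ (2 * t + 1) * Real.exp (-(ℓ / 4))) atTop (nhds 0) := by
    have h5 := (Real.tendsto_pow_mul_exp_neg_atTop_nhds_zero (2 * t + 1)).comp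
      (tendsto_id.atTop_div_const (show (0:ℝ) < 4 by norm_num))
    have h6 := h5.const_mul ((4:ℝ) ^ (2 * t + 1))
    rw [mul_zero] at h6
    refine h6.congr (fun x => ?_)
    simp only [Function.comp, id]
    rw [← mul_assoc, ← mul_pow]
    congr 2
    ring
  have h7 := ((h1.add (h2.const_mul (9 * (t:ℝ) ^ 2))).const_mul C).add (h4.const_mul C')
  simpa using h7

theorem corrQ (t : ℕ) (η : ℝ) (hη0 : 0 < η) (hη : η * (8 * t + 8) ≤ 1) (K : ℕ) (hK : 16 * t + 1 ≤ K) :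
    ∃ w₀ : ℕ, ∀ w : ℕ, w₀ ≤ w → ∀ ε : ℝ, 0 < ε → ∀ᶠ ℓ : ℝ in atTop, ∀ Y : ℕ, Real.exp (ℓ / 2) ≤ Y →
    ∀ (σ : Bool) (ℳ : Finset ℕ), #ℳ ≤ t →
    (∀ m ∈ ℳ, 0 < m ∧ (m : ℝ) ≤ Real.exp (Real.sqrt ℓ) ∧ ∀ p, p.Prime → p ∣ m → p ≤ w) →
    |(∑ A ∈ Icc 1 Y, ∏ m ∈ ℳ, nuQ K η ℓ w (sh σ (Wp w * m * A))) / (Y : ℝ) - sing (PQ K η ℓ w) ℳ| ≤ ε := by
  classical
  obtain ⟨C₁, hC₁, hG⟩ := GG_upper
  obtain ⟨C₂, hC₂, hS⟩ := sum_lcm
  obtain ⟨C₃, hC₃, hV⟩ := cq_VP_lower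
  refine ⟨⌈Real.exp 100⌉₊ + 2 * t + 2, fun w hw ε hε => ?_⟩
  set C₀ : ℝ := max 1 (C₁ * C₂) with hC₀
  set C₅ : ℝ := max 1 (C₁ * C₃) with hC₅
  have herr := (corr_err2 t (C₃ ^ t * C₀ ^ t) (3 * C₅ ^ t)).eventually (ge_mem_nhds (show (0:ℝ) < ε by positivity))
  have hη1 : η ≤ 1 := by nlinarith [(by positivity : (0:ℝ) ≤ t)]
  have hw1 : ∀ᶠ ℓ : ℝ in atTop, Real.exp 100 + 2 * t + 2 ≤ Real.log ℓ :=
    Real.tendsto_log_atTop.eventually_ge_atTop _
  filter_upwards [herr, cq_zz_sqrt K η hη0, zz_lower K η hη0, hw1, corr_logpow 5 (2 / η),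
    eventually_ge_atTop 1, eventually_ge_atTop (w : ℝ)] with ℓ hE hzs hz hL hR hℓ hwℓ
  intro Y hY σ ℳ hℳ hm
  set L := Real.log ℓ with hLdef
  have h100 : (101:ℝ) ≤ Real.exp 100 := by
    have := Real.add_one_le_exp (100:ℝ)
    linarith
  have ht0 : (0:ℝ) ≤ t := by positivity
  have hL2 : 2 ≤ L := by linarith
  have hL1 : 1 ≤ L := by linarith
  have hL45 : L ^ 4 ≤ L ^ 5 := pow_le_pow_right₀ hL1 (by norm_num)
  have hLL5 : L ≤ L ^ 5 := le_self_pow₀ hL1 (by norm_num)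
  have hℓ0 : 0 < ℓ := by linarith
  -- sizes
  have hwr : ((⌈Real.exp 100⌉₊ + 2 * t + 2 : ℕ) : ℝ) ≤ w := by exact_mod_cast hw
  push_cast at hwr
  have hce := Nat.le_ceil (Real.exp 100)
  have hlogw : 100 ≤ Real.log w := by
    rw [Real.le_log_iff_exp_le (by linarith)]
    linarith
  have hwt : 2 * t ≤ w := by omega
  have hLexp : ℓ ≤ Real.exp (L ^ 4) := by
    have h1 : Real.exp L = ℓ := Real.exp_log hℓ0
    have h2 : L ≤ L ^ 4 := le_self_pow₀ hL1 (by norm_num)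
    calc ℓ = Real.exp L := h1.symm
      _ ≤ Real.exp (L ^ 4) := Real.exp_le_exp.mpr h2
  have hwz : w ≤ zz K η ℓ := by
    have : (w : ℝ) ≤ zz K η ℓ := by linarith
    exact_mod_cast this
  have hz3 : (3:ℝ) ≤ zz K η ℓ := by
    have h1 : (3:ℝ) ≤ w := by linarith
    have h2 : (w : ℝ) ≤ zz K η ℓ := by exact_mod_cast hwz
    linarith
  have hz2 : 2 ≤ zz K η ℓ := by
    have : (2:ℝ) ≤ zz K η ℓ := by linarith
    exact_mod_cast this
  have hkt : 16 * t ≤ kk K ℓ := by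
    have h1 := kk_lower K ℓ
    have h2 : ((16 * t + 1 : ℕ) : ℝ) ≤ K := by exact_mod_cast hK
    push_cast at h2
    have h3 : (16 * t : ℝ) ≤ kk K ℓ := by nlinarith
    exact_mod_cast h3
  have hRR : 2 ≤ RR η ℓ := by
    unfold RR
    apply Nat.le_floor
    have h1 : 2 * L ^ 5 ≤ η * ℓ := by
      have h2 := mul_le_mul_of_nonneg_left hR hη0.le
      have h3 : η * (2 / η * L ^ 5) = 2 * L ^ 5 := by field_simp
      linarith
    have h4 := Real.add_one_le_exp (η * ℓ)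
    push_cast
    linarith
  have hR1 : 1 ≤ RR η ℓ := by omega
  have hlogR := log_RR η ℓ hη1 hℓ0.le hR1
  have hlogz := log_zz K η ℓ hη1 hℓ0.le (by omega)
  have hlogR0 : 0 ≤ Real.log (RR η ℓ) := Real.log_nonneg (by exact_mod_cast hR1)
  have hlogz0 : 0 ≤ Real.log (zz K η ℓ) := Real.log_nonneg (by linarith)
  have hYpos : (0:ℝ) < Y := lt_of_lt_of_le (Real.exp_pos _) hY
  -- notation
  set G := GG (zz K η ℓ) (RR η ℓ) with hGdef
  set S := ∑ d ∈ Dr (zz K η ℓ) (RR η ℓ), ∑ d' ∈ Dr (zz K η ℓ) (RR η ℓ), 1 / (Nat.lcm d d' : ℝ) with hSdef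
  set P := PQ K η ℓ w with hPdef
  set V := ∏ p ∈ P, (1 - (#(ℳ.image (fun m => m % p)) : ℝ) / p) with hVdef
  have hG0 : 0 < G := GG_pos _ _ hR1
  have hGle : G ≤ C₁ * ℓ := (hG _ _ hRR).trans (mul_le_mul_of_nonneg_left hlogR hC₁.le)
  have hS0 : 0 ≤ S := by
    refine Finset.sum_nonneg (fun d _ => Finset.sum_nonneg (fun d' _ => by positivity))
  have hSle : S ≤ C₂ * ℓ ^ 3 := (hS _ _ hRR).trans
    (mul_le_mul_of_nonneg_left (pow_le_pow_left₀ hlogR0 hlogR 3) hC₂.le)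
  obtain ⟨hVP0, hVP⟩ := hV K η ℓ w hz2
  rw [← hPdef] at hVP0 hVP
  have hVPle : 1 / VP P ≤ C₃ * ℓ := hVP.trans (mul_le_mul_of_nonneg_left hlogz (by linarith))
  have hPprime : ∀ p ∈ P, p.Prime ∧ w < p ∧ p ≤ zz K η ℓ := by
    intro p hp
    rw [hPdef] at hp
    unfold PQ at hp
    rw [mem_primesIoc] at hp
    exact ⟨hp.2.2, hp.1, hp.2.1⟩
  have hW : 0 < Wp w := by
    unfold Wp
    refine Finset.prod_pos (fun p hp => ?_)
    rw [mem_primesIoc] at hp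
    exact hp.2.2.pos
  have hWprime : ∀ p, p.Prime → p ∣ Wp w → p ≤ w := by
    intro p hp hpd
    unfold Wp at hpd
    rw [hp.prime.dvd_finsetProd_iff] at hpd
    obtain ⟨q, hq, hpq⟩ := hpd
    rw [mem_primesIoc] at hq
    have := (Nat.prime_dvd_prime_iff_eq hp hq.2.2).mp hpq
    rw [this]; exact hq.2.1
  have hmz : ∀ m ∈ ℳ, m ≤ zz K η ℓ := by
    intro m hmm
    have : (m : ℝ) ≤ zz K η ℓ := (hm m hmm).2.1.trans hzs
    exact_mod_cast this
  have hm' : ∀ m ∈ ℳ, 0 < m ∧ ∀ p, p.Prime → p ∣ Wp w * m → p ≤ w := by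
    intro m hmm
    refine ⟨(hm m hmm).1, fun p hp hpd => ?_⟩
    rcases (Nat.Prime.dvd_mul hp).mp hpd with h | h
    · exact hWprime p hp h
    · exact (hm m hmm).2.2 p hp h
  have hexp := corr_expand t (kk K ℓ) w (zz K η ℓ) (RR η ℓ) Y (Wp w) hkt hlogw hwt hwz hW P
    hPprime σ ℳ hℳ hm' hmz (lamS (zz K η ℓ) (RR η ℓ)) (lamS_abs _ _)
  rw [lamS_quad _ _ hR1, ← hGdef, ← hSdef, ← hVdef] at hexp
  have hsg : sing P ℳ = V / VP P ^ #ℳ := rfl
  have hρ : ∀ p ∈ P, (0 : ℝ) ≤ 1 - (#(ℳ.image (fun m => m % p)) : ℝ) / p ∧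
      1 - (#(ℳ.image (fun m => m % p)) : ℝ) / p ≤ 1 := by
    intro p hp
    have hp0 : (0 : ℝ) < p := by exact_mod_cast (hPprime p hp).1.pos
    have h1 : (#(ℳ.image (fun m => m % p)) : ℝ) ≤ p := by
      have h2 : #(ℳ.image (fun m => m % p)) ≤ t := Finset.card_image_le.trans hℳ
      have h3 : w < p := (hPprime p hp).2.1
      exact_mod_cast (by omega : #(ℳ.image (fun m => m % p)) ≤ p)
    have h2 : (#(ℳ.image (fun m => m % p)) : ℝ) / p ≤ 1 := by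
      rw [div_le_one hp0]; exact h1
    have h3 : (0 : ℝ) ≤ (#(ℳ.image (fun m => m % p)) : ℝ) / p := by positivity
    constructor <;> linarith
  have hV0 : 0 ≤ V := Finset.prod_nonneg (fun p hp => (hρ p hp).1)
  have hV1 : V ≤ 1 := Finset.prod_le_one (fun p hp => (hρ p hp).1) (fun p hp => (hρ p hp).2)
  set T := ∑ A ∈ Icc 1 Y, ∏ m ∈ ℳ, (open Classical in
        (if ∀ p ∈ P, ¬ p ∣ sh σ (Wp w * m * A) then (1 : ℝ) else 0) *
        (∑ d ∈ (Dr (zz K η ℓ) (RR η ℓ)).filter (fun d => d ∣ sh σ (Wp w * m * A)),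
          lamS (zz K η ℓ) (RR η ℓ) d) ^ 2) with hTdef
  have hsum : ∑ A ∈ Icc 1 Y, ∏ m ∈ ℳ, nuQ K η ℓ w (sh σ (Wp w * m * A)) = (G / VP P) ^ #ℳ * T := by
    rw [hTdef, Finset.mul_sum]
    refine Finset.sum_congr rfl (fun A _ => ?_)
    rw [← Finset.prod_const, ← Finset.prod_mul_distrib]
    refine Finset.prod_congr rfl (fun m _ => ?_)
    unfold nuQ
    rw [← mul_assoc]
  rw [hsum]
  set n := #ℳ with hn
  -- the comparison
  have hVr0 : 0 ≤ V / VP P ^ n := by positivity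
  have hVr : V / VP P ^ n ≤ C₃ ^ t * Real.exp (t * L) := by
    have h1 : 1 ≤ C₃ * ℓ := by nlinarith
    calc V / VP P ^ n ≤ 1 / VP P ^ n := div_le_div_of_nonneg_right hV1 (by positivity)
      _ = (1 / VP P) ^ n := by rw [div_pow, one_pow]
      _ ≤ (C₃ * ℓ) ^ n := pow_le_pow_left₀ (by positivity) hVPle n
      _ ≤ (C₃ * ℓ) ^ t := pow_le_pow_right₀ h1 hℳ
      _ = C₃ ^ t * Real.exp (t * L) := by
        rw [mul_pow]
        congr 1
        have : ℓ = Real.exp L := (Real.exp_log hℓ0).symm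
        conv_lhs => rw [this]
        rw [← Real.exp_nat_mul]
  have hmain : |(G / VP P) ^ n * T / Y - V / VP P ^ n| ≤
      V / VP P ^ n * (G * S) ^ n * ((1 / 2) ^ kk K ℓ + 9 * (t : ℝ) ^ 2 / zz K η ℓ) +
      (G / VP P) ^ n * ((RR η ℓ : ℝ) ^ (2 * n) *
        (3 * Real.log (zz K η ℓ) * (zz K η ℓ : ℝ) ^ (2 * (4 * kk K ℓ + 5)))) / Y := by
    have e1 : (G / VP P) ^ n * T / Y - V / VP P ^ n =
        (G / VP P) ^ n / Y * (T - Y * V * (1 / G) ^ n) := by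
      have hG' := hG0.ne'
      have hVP' := hVP0.ne'
      have hY' := hYpos.ne'
      rw [div_pow, div_pow, one_pow]
      field_simp
    rw [e1, abs_mul, abs_of_nonneg (by positivity : 0 ≤ (G / VP P) ^ n / Y)]
    refine (mul_le_mul_of_nonneg_left hexp (by positivity)).trans (le_of_eq ?_)
    have hVP' := hVP0.ne'
    have hY' := hYpos.ne'
    rw [div_pow, mul_pow]
    field_simp
  have hE1 : V / VP P ^ n * (G * S) ^ n * ((1 / 2) ^ kk K ℓ + 9 * (t : ℝ) ^ 2 / zz K η ℓ) ≤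
      C₃ ^ t * C₀ ^ t * (Real.exp (-L / 2) + 9 * (t : ℝ) ^ 2 * Real.exp (5 * t * L - L ^ 4)) := by
    have hC01 : 1 ≤ C₀ := le_max_left _ _
    have hℓ4 : 1 ≤ ℓ ^ 4 := one_le_pow₀ hℓ
    have a1 : G * S ≤ C₀ * ℓ ^ 4 := by
      calc G * S ≤ (C₁ * ℓ) * (C₂ * ℓ ^ 3) := mul_le_mul hGle hSle hS0 (by positivity)
        _ = (C₁ * C₂) * ℓ ^ 4 := by ring
        _ ≤ C₀ * ℓ ^ 4 := mul_le_mul_of_nonneg_right (le_max_right _ _) (by positivity)
    have a2 : 1 ≤ C₀ * ℓ ^ 4 := by nlinarith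
    have a3 : (G * S) ^ n ≤ C₀ ^ t * Real.exp (4 * t * L) := by
      calc (G * S) ^ n ≤ (C₀ * ℓ ^ 4) ^ n := pow_le_pow_left₀ (by positivity) a1 n
        _ ≤ (C₀ * ℓ ^ 4) ^ t := pow_le_pow_right₀ a2 hℳ
        _ = C₀ ^ t * Real.exp (4 * t * L) := by
          rw [mul_pow, ← pow_mul]
          congr 1
          have : ℓ = Real.exp L := (Real.exp_log hℓ0).symm
          conv_lhs => rw [this]
          rw [← Real.exp_nat_mul]
          push_cast
          ring_nf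
    have a4 : (1 / 2 : ℝ) ^ kk K ℓ ≤ Real.exp (-(5 * t * L) - L / 2) := by
      have b1 : (1 / 2 : ℝ) = Real.exp (-Real.log 2) := by
        rw [Real.exp_neg, Real.exp_log (by norm_num)]; norm_num
      rw [b1, ← Real.exp_nat_mul]
      apply Real.exp_le_exp.mpr
      have b2 := kk_lower K ℓ
      have b3 : ((16 * t + 1 : ℕ) : ℝ) ≤ K := by exact_mod_cast hK
      push_cast at b3
      have b4 : (16 * t + 1 : ℝ) * L ≤ kk K ℓ :=
        (mul_le_mul_of_nonneg_right b3 (by linarith)).trans b2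
      have b5 := Real.log_two_gt_d9
      have b6 : 0 ≤ (t : ℝ) * L := by positivity
      have b7 : (kk K ℓ : ℝ) * (1 / 2) ≤ kk K ℓ * Real.log 2 :=
        mul_le_mul_of_nonneg_left (by linarith) (by positivity)
      linarith
    have a5 : 1 / (zz K η ℓ : ℝ) ≤ Real.exp (-(L ^ 4)) := by
      rw [Real.exp_neg, ← one_div]
      exact one_div_le_one_div_of_le (Real.exp_pos _) hz
    calc V / VP P ^ n * (G * S) ^ n * ((1 / 2) ^ kk K ℓ + 9 * (t : ℝ) ^ 2 / zz K η ℓ)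
        ≤ (C₃ ^ t * Real.exp (t * L)) * (C₀ ^ t * Real.exp (4 * t * L)) *
          (Real.exp (-(5 * t * L) - L / 2) + 9 * (t : ℝ) ^ 2 * Real.exp (-(L ^ 4))) := by
          apply mul_le_mul
          · exact mul_le_mul hVr a3 (by positivity) (by positivity)
          · apply add_le_add a4
            rw [← mul_one_div]
            exact mul_le_mul_of_nonneg_left a5 (by positivity)
          · positivity
          · positivity
      _ = C₃ ^ t * C₀ ^ t * ((Real.exp (t * L) * Real.exp (4 * t * L)) *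
            Real.exp (-(5 * t * L) - L / 2) + 9 * (t : ℝ) ^ 2 *
            ((Real.exp (t * L) * Real.exp (4 * t * L)) * Real.exp (-(L ^ 4)))) := by ring
      _ = _ := by
          have e5 : Real.exp (t * L) * Real.exp (4 * t * L) = Real.exp (5 * t * L) := by
            rw [← Real.exp_add]; congr 1; ring
          rw [e5, ← Real.exp_add, ← Real.exp_add]
          have e6 : 5 * t * L + (-(5 * t * L) - L / 2) = -L / 2 := by ring
          have e7 : 5 * t * L + -(L ^ 4) = 5 * t * L - L ^ 4 := by ring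
          rw [e6, e7]
  have hE2 : (G / VP P) ^ n * ((RR η ℓ : ℝ) ^ (2 * n) *
        (3 * Real.log (zz K η ℓ) * (zz K η ℓ : ℝ) ^ (2 * (4 * kk K ℓ + 5)))) / Y ≤
      3 * C₅ ^ t * (ℓ ^ (2 * t + 1) * Real.exp (-(ℓ / 4))) := by
    have hC51 : 1 ≤ C₅ := le_max_left _ _
    have hℓ2 : 1 ≤ ℓ ^ 2 := one_le_pow₀ hℓ
    have a1 : G / VP P ≤ C₅ * ℓ ^ 2 := by
      calc G / VP P = G * (1 / VP P) := by ring
        _ ≤ (C₁ * ℓ) * (C₃ * ℓ) := mul_le_mul hGle hVPle (by positivity) (by positivity)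
        _ = (C₁ * C₃) * ℓ ^ 2 := by ring
        _ ≤ C₅ * ℓ ^ 2 := mul_le_mul_of_nonneg_right (le_max_right _ _) (by positivity)
    have a2 : 1 ≤ C₅ * ℓ ^ 2 := by nlinarith
    have a3 : (G / VP P) ^ n ≤ C₅ ^ t * ℓ ^ (2 * t) := by
      calc (G / VP P) ^ n ≤ (C₅ * ℓ ^ 2) ^ n := pow_le_pow_left₀ (by positivity) a1 n
        _ ≤ (C₅ * ℓ ^ 2) ^ t := pow_le_pow_right₀ a2 hℳ
        _ = C₅ ^ t * ℓ ^ (2 * t) := by rw [mul_pow, ← pow_mul]
    have a4 : (RR η ℓ : ℝ) ^ (2 * n) ≤ Real.exp (2 * t * (η * ℓ)) := by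
      calc (RR η ℓ : ℝ) ^ (2 * n) ≤ (RR η ℓ : ℝ) ^ (2 * t) :=
            pow_le_pow_right₀ (by exact_mod_cast hR1) (by omega)
        _ ≤ (Real.exp (η * ℓ)) ^ (2 * t) := pow_le_pow_left₀ (by positivity) (RR_upper η ℓ) _
        _ = _ := by rw [← Real.exp_nat_mul]; push_cast; ring_nf
    have a5 := zz_pow K η ℓ
    have a6 : 1 / (Y : ℝ) ≤ Real.exp (-(ℓ / 2)) := by
      rw [Real.exp_neg, ← one_div]
      exact one_div_le_one_div_of_le (Real.exp_pos _) hY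
    have a7 : 2 * t * (η * ℓ) + 2 * (η * ℓ) + -(ℓ / 2) ≤ -(ℓ / 4) := by
      have := mul_le_mul_of_nonneg_right hη hℓ0.le
      nlinarith
    calc (G / VP P) ^ n * ((RR η ℓ : ℝ) ^ (2 * n) *
          (3 * Real.log (zz K η ℓ) * (zz K η ℓ : ℝ) ^ (2 * (4 * kk K ℓ + 5)))) / Y
        = (G / VP P) ^ n * ((RR η ℓ : ℝ) ^ (2 * n) *
          (3 * Real.log (zz K η ℓ) * (zz K η ℓ : ℝ) ^ (2 * (4 * kk K ℓ + 5)))) * (1 / Y) := by ring
      _ ≤ (C₅ ^ t * ℓ ^ (2 * t)) * (Real.exp (2 * t * (η * ℓ)) *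
          (3 * ℓ * Real.exp (2 * (η * ℓ)))) * Real.exp (-(ℓ / 2)) := by
          gcongr
      _ = 3 * C₅ ^ t * (ℓ ^ (2 * t + 1) *
          (Real.exp (2 * t * (η * ℓ)) * Real.exp (2 * (η * ℓ)) * Real.exp (-(ℓ / 2)))) := by ring
      _ = 3 * C₅ ^ t * (ℓ ^ (2 * t + 1) *
          Real.exp (2 * t * (η * ℓ) + 2 * (η * ℓ) + -(ℓ / 2))) := by
          rw [← Real.exp_add, ← Real.exp_add]
      _ ≤ _ := by
          gcongr
  rw [hsg]
  exact hmain.trans (by linarith)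

end Pool.Agent.H16.GP2
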