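import Pool.Agent.H16.GPS.Num.Defs

/-!
GP2 (MP_c183ae_nt, second project): chains `A m r^j + e` with `m`, `r` composed of the primes of a FIXED finite set.
Here `w` is a constant (not growing with `ℓ`), no exceptional prime is removed.
-/

set_option autoImplicit false

open Finset

namespace Pool.Agent.H16.GP2

open Pool.Agent.H16 Pool.Agent.H16.GPS

/-- the sieving primes: `w < p ≤ z` -/
noncomputable def PQ (K : ℕ) (η ℓ : ℝ) (w : ℕ) : Finset ℕ := primesIoc w (zz K η ℓ)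

/-- product of the primes `p ≤ w` -/
def Wp (w : ℕ) : ℕ := ∏ p ∈ primesIoc 1 w, p

/-- the majorant -/
noncomputable def nuQ (K : ℕ) (η ℓ : ℝ) (w n : ℕ) : ℝ := by
  classical exact GG (zz K η ℓ) (RR η ℓ) / VP (PQ K η ℓ w) *
    (if ∀ p ∈ PQ K η ℓ w, ¬ p ∣ n then 1 else 0) *
    (∑ d ∈ (Dr (zz K η ℓ) (RR η ℓ)).filter (fun d => d ∣ n), lamS (zz K η ℓ) (RR η ℓ) d) ^ 2

/-- the (relative) singular series over the primes of `Q` -/
noncomputable def sing (Q ℳ : Finset ℕ) : ℝ :=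
  (∏ p ∈ Q, (1 - (#(ℳ.image (fun m => m % p)) : ℝ) / p)) / VP Q ^ #ℳ

/-- `∏ (1 - 1/p)^(-C) - 1` over the primes `w < p ≤ ℓ` with `p ∣ m - m'` -/
noncomputable def psi (C w : ℕ) (ℓ : ℝ) (m m' : ℕ) : ℝ :=
  (∏ p ∈ (primesIoc w ⌊ℓ⌋₊).filter (fun p => m % p = m' % p), ((1 - 1 / (p : ℝ))⁻¹) ^ C) - 1

lemma one_le_inv_prime {p : ℕ} (hp : p.Prime) : 1 ≤ (1 - 1 / (p : ℝ))⁻¹ := by
  have h1 : (1 : ℝ) < p := by exact_mod_cast hp.one_lt
  have h2 : 1 / (p : ℝ) < 1 := by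
    rw [div_lt_one (by linarith)]; exact h1
  have h3 : 0 ≤ 1 / (p : ℝ) := by positivity
  exact one_le_inv_iff₀.mpr ⟨by linarith, by linarith⟩

lemma one_le_psi (C w : ℕ) (ℓ : ℝ) (m m' : ℕ) :
    1 ≤ ∏ p ∈ (primesIoc w ⌊ℓ⌋₊).filter (fun p => m % p = m' % p), ((1 - 1 / (p : ℝ))⁻¹) ^ C := by
  have h : ∏ _p ∈ (primesIoc w ⌊ℓ⌋₊).filter (fun p => m % p = m' % p), (1 : ℝ) ≤
      ∏ p ∈ (primesIoc w ⌊ℓ⌋₊).filter (fun p => m % p = m' % p), ((1 - 1 / (p : ℝ))⁻¹) ^ C := by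
    apply Finset.prod_le_prod (fun _ _ => zero_le_one)
    intro p hp
    exact one_le_pow₀ (one_le_inv_prime (mem_primesIoc.mp (Finset.mem_filter.mp hp).1).2.2)
  rwa [Finset.prod_const_one] at h

lemma psi_nonneg (C w : ℕ) (ℓ : ℝ) (m m' : ℕ) : 0 ≤ psi C w ℓ m m' := by
  have := one_le_psi C w ℓ m m'
  unfold psi
  linarith

lemma psi_symm (C w : ℕ) (ℓ : ℝ) (m m' : ℕ) : psi C w ℓ m m' = psi C w ℓ m' m := by
  unfold psi
  simp only [eq_comm]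

end Pool.Agent.H16.GP2
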