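import Pool.Agent.H16.GP2.Defs
import Pool.Agent.H16.GPS.Num.FleNu

/-!
JOB GP2-FLE (MP_c183ae_nt). The weight of the primes is below the majorant.

PROOF. Copy `f_le_nu` of `H16/GPS/Num/FleNu.lean` (imported: `fn_VP_primes`, `fn_params` etc.), with `ww ℓ` replaced by the
constant `w ≥ 2`, `PP` by `PQ K η ℓ w = primesIoc w (zz K η ℓ)`, `WW ℓ e` by `Wp w = ∏ p ∈ primesIoc 1 w, p`; there is no prime to
erase, so this is simpler: `φ(W)/W = Vp w ≤ 1/log w`, `VP (PQ) = Vp z / Vp w ≤ log w/(c log z)` (`w ≤ zz K η ℓ` eventually).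
The constant `c₀` does not depend on `w`. ~120 lines, mostly copied.
-/

set_option autoImplicit false

open Finset Filter

namespace Pool.Agent.H16.GP2

open Pool.Agent.H16 Pool.Agent.H16.GPS

theorem fq_totient (w : ℕ) (hw : 2 ≤ w) :
    ((Wp w).totient : ℝ) / (Wp w : ℝ) ≤ 1 / Real.log w := by
  have hpr : ∀ p ∈ primesIoc 1 w, p.Prime := fun p hp => (mem_primesIoc.mp hp).2.2
  have h1 : ((Wp w).totient : ℝ) / (Wp w : ℝ) = VP (primesIoc 1 w) := by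
    unfold Wp VP
    rw [totient_prod_primes _ hpr, Nat.cast_prod, ← Finset.prod_div_distrib]
    refine Finset.prod_congr rfl fun p hp => ?_
    have hp0 : (p : ℝ) ≠ 0 := by exact_mod_cast (hpr p hp).ne_zero
    rw [sub_div, div_self hp0]
  rw [h1, fn_VP_primes _ (by omega)]
  exact Vp_le w hw

theorem fq_VP_pos (K : ℕ) (η ℓ : ℝ) (w : ℕ) : 0 < VP (PQ K η ℓ w) := by
  unfold VP
  refine Finset.prod_pos fun p hp => one_sub_inv_pos ?_
  unfold PQ at hp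
  exact (mem_primesIoc.mp hp).2.2

theorem fq_VP_PQ (c : ℝ) (hc : 0 < c) (hV : ∀ n : ℕ, 2 ≤ n → c / Real.log n ≤ Vp n)
    (K : ℕ) (η ℓ : ℝ) (w : ℕ) (hw : 2 ≤ w) (hwz : w ≤ zz K η ℓ) :
    VP (PQ K η ℓ w) ≤ Real.log w / (c * Real.log (zz K η ℓ)) := by
  have hlw : 0 < Real.log w := Real.log_pos (by exact_mod_cast hw)
  have hlz : 0 < Real.log (zz K η ℓ) := Real.log_pos (by exact_mod_cast (lt_of_lt_of_le hw hwz))
  have h2 : Vp w * VP (primesIoc w (zz K η ℓ)) = Vp (zz K η ℓ) := Vp_mul _ _ hwz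
  have h3 : VP (primesIoc w (zz K η ℓ)) = Vp (zz K η ℓ) / Vp w := by
    rw [eq_div_iff (Vp_pos _).ne', mul_comm]
    exact h2
  have h4 : Vp (zz K η ℓ) / Vp w ≤
      (1 / Real.log (zz K η ℓ)) / (c / Real.log w) :=
    div_le_div₀ (by positivity) (Vp_le _ (hw.trans hwz)) (by positivity) (hV _ hw)
  calc VP (PQ K η ℓ w) = Vp (zz K η ℓ) / Vp w := h3
    _ ≤ (1 / Real.log (zz K η ℓ)) / (c / Real.log w) := h4
    _ = _ := by
        field_simp

theorem fq_nu_nonneg (K : ℕ) (η ℓ : ℝ) (w n : ℕ) : 0 ≤ nuQ K η ℓ w n := by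
  unfold nuQ
  have h1 : 0 ≤ GG (zz K η ℓ) (RR η ℓ) := by
    unfold GG
    exact Finset.sum_nonneg fun _ _ => by positivity
  have h2 := (fq_VP_pos K η ℓ w).le
  refine mul_nonneg (mul_nonneg (div_nonneg h1 h2) ?_) (sq_nonneg _)
  split_ifs <;> norm_num

theorem fq_nu_prime (K : ℕ) (η ℓ : ℝ) (w n : ℕ) (hR : 1 ≤ RR η ℓ) (hzR : zz K η ℓ ≤ RR η ℓ)
    (hn : n.Prime) (hRn : RR η ℓ < n) :
    nuQ K η ℓ w n = GG (zz K η ℓ) (RR η ℓ) / VP (PQ K η ℓ w) := by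
  classical
  unfold nuQ
  rw [if_pos, mul_one]
  · have h1 : (Dr (zz K η ℓ) (RR η ℓ)).filter (fun d => d ∣ n) = {1} := by
      ext d
      rw [Finset.mem_filter, Finset.mem_singleton, mem_Dr]
      constructor
      · rintro ⟨⟨h1, h2, _⟩, h3⟩
        rcases (Nat.dvd_prime hn).1 h3 with h4 | h4
        · exact h4
        · omega
      · rintro rfl
        refine ⟨⟨le_rfl, hR, squarefree_one, fun p hp hp1 => ?_⟩, one_dvd _⟩
        exact absurd (Nat.dvd_one.1 hp1) hp.one_lt.ne'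
    have h2 : ∑ d ∈ (Dr (zz K η ℓ) (RR η ℓ)).filter (fun d => d ∣ n),
        lamS (zz K η ℓ) (RR η ℓ) d = 1 := by
      rw [h1, Finset.sum_singleton, lamS_one _ _ hR]
    have h3 : (∑ d ∈ (Dr (zz K η ℓ) (RR η ℓ)).filter (fun d => d ∣ n),
        lamS (zz K η ℓ) (RR η ℓ) d) ^ 2 = 1 := by rw [h2, one_pow]
    rw [h3, mul_one]
  · intro p hp hpn
    unfold PQ at hp
    have h1 := mem_primesIoc.mp hp
    rcases (Nat.dvd_prime hn).1 hpn with h2 | h2
    · exact h1.2.2.one_lt.ne' h2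
    · omega

theorem fq_ww_large (w : ℕ) : ∀ᶠ ℓ : ℝ in atTop, w ≤ ww ℓ := by
  have hlog : Tendsto Real.log atTop atTop := Real.tendsto_log_atTop
  filter_upwards [hlog.eventually (eventually_ge_atTop 1),
    hlog.eventually (eventually_ge_atTop (w : ℝ))] with ℓ h1 h2
  unfold ww
  apply Nat.le_floor
  calc (w : ℝ) ≤ Real.log ℓ := h2
    _ = Real.log ℓ ^ 1 := (pow_one _).symm
    _ ≤ Real.log ℓ ^ 5 := pow_le_pow_right₀ h1 (by norm_num)

theorem f_le_nuQ (K : ℕ) (η : ℝ) (hη0 : 0 < η) (hη1 : η ≤ 1) : ∃ c₀ : ℝ, 0 < c₀ ∧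
    ∀ w : ℕ, 2 ≤ w → ∀ᶠ ℓ : ℝ in atTop, ∀ (n : ℕ) (ℓ' : ℝ), (n : ℝ) ≤ Real.exp (2 * ℓ) →
      c₀ * (((Wp w).totient : ℝ) / (Wp w : ℝ) * aw ℓ' (RR η ℓ) n) ≤ nuQ K η ℓ w n := by
  obtain ⟨c1, hc1, hG⟩ := GG_lower
  obtain ⟨c2, hc2, hV⟩ := Vp_ge
  refine ⟨c1 * c2 * η / 4, by positivity, fun w hw => ?_⟩
  filter_upwards [fn_params K η hη0 hη1, fq_ww_large w] with ℓ hℓ hwww n ℓ' hn
  obtain ⟨hℓ0, hw2, hwz', hzR, hR2, hlR⟩ := hℓ
  have hwz : w ≤ zz K η ℓ := hwww.trans hwz'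
  by_cases haw : n.Prime ∧ RR η ℓ < n
  · rw [fq_nu_prime K η ℓ w n (by omega) hzR haw.1 haw.2]
    have hn0 : (0 : ℝ) < n := by exact_mod_cast haw.1.pos
    have hlw : 0 < Real.log w := Real.log_pos (by exact_mod_cast hw)
    have hlz : 0 < Real.log (zz K η ℓ) := Real.log_pos (by exact_mod_cast (lt_of_lt_of_le hw hwz))
    have h1 : aw ℓ' (RR η ℓ) n ≤ 2 * ℓ := by
      unfold aw
      rw [if_pos haw]
      have h2 : Real.log n ≤ 2 * ℓ := by
        calc Real.log n ≤ Real.log (Real.exp (2 * ℓ)) := Real.log_le_log hn0 hn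
          _ = 2 * ℓ := Real.log_exp _
      have h3 := tent_le_one (Real.exp ℓ' / 3) n (by positivity) hn0
      have h4 := tent_nonneg (Real.exp ℓ' / 3) n (by positivity) hn0
      have h5 : 0 ≤ Real.log n := Real.log_natCast_nonneg n
      nlinarith
    have h2 := fq_totient w hw
    have h3 : 0 ≤ aw ℓ' (RR η ℓ) n := aw_nonneg _ _ _
    have h4 : ((Wp w).totient : ℝ) / (Wp w : ℝ) * aw ℓ' (RR η ℓ) n ≤
        1 / Real.log w * (2 * ℓ) :=
      mul_le_mul h2 h1 h3 (by positivity)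
    have h5 := fq_VP_PQ c2 hc2 hV K η ℓ w hw hwz
    have h6 := fq_VP_pos K η ℓ w
    have h7 := hG (zz K η ℓ) (RR η ℓ) (hw.trans hwz) hR2
    calc c1 * c2 * η / 4 * (((Wp w).totient : ℝ) / (Wp w : ℝ) * aw ℓ' (RR η ℓ) n)
        ≤ c1 * c2 * η / 4 * (1 / Real.log w * (2 * ℓ)) :=
          mul_le_mul_of_nonneg_left h4 (by positivity)
      _ = (c1 * (η * ℓ / 2) / Real.log (zz K η ℓ)) /
            (Real.log w / (c2 * Real.log (zz K η ℓ))) := by
          field_simp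
          ring
      _ ≤ (c1 * Real.log (RR η ℓ) / Real.log (zz K η ℓ)) / VP (PQ K η ℓ w) := by
          apply div_le_div₀ _ _ h6 h5
          · have : 0 ≤ Real.log (RR η ℓ) := Real.log_natCast_nonneg _
            positivity
          · gcongr
      _ ≤ _ := div_le_div_of_nonneg_right h7 h6.le
  · have h0 : aw ℓ' (RR η ℓ) n = 0 := by
      unfold aw
      rw [if_neg haw]
    rw [h0, mul_zero, mul_zero]
    exact fq_nu_nonneg K η ℓ w n

end Pool.Agent.H16.GP2
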