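import Pool.Agent.H16.GPS.Rel.Coin

/-!
JOB GP2-LF2 (MP_c183ae_nt). The linear forms condition from correlations with a pair term `Ψ`.

PROOF. Copy `lf_of_corr` (and its private lemmas `coin_prob_le`, `coin_case1`, `coin_case2`, `coin_pair`) of
`H16/GPS/Rel/Coin.lean` (it is imported: `coin_EE2_*`, `coin_abs_EE2_le`, `coin_LL_sub` can be used directly). Changes:
(1) pointwise bound. For all `x, h, h'`:
`|(∑ A, ∏ q ∈ S, ν (A, x_q)) / card Θ - 1| ≤ ε + ∑ q ∈ S, ∑ q' ∈ S.erase q, Ψ (x_q) (x_q')`, `x_q = x + LL q.1 (mix h h' q.2)`.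
If the points are distinct this is `hcorr` for the image of `S` (the double sum over the image is the double sum over `S`);
if `x_q = x_q'` for some `q ≠ q'`, the left side is `≤ Bd^t + 1 ≤ Ψ (x_q) (x_q')` (`hΨd`), one term of the sum.
(2) average of one term. For `q ≠ q'` in `S`:
`EE2 .. (Ψ (x_q) (x_q')) ≤ ε₂`: instead of `coin_prob_le` use `sum_pi_update` for the SAME variable as in `coin_case1` /
`coin_case2`: in both cases exactly one of the two points depends on this variable, with coefficient `c = j - i`,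
`0 < |c| ≤ κ` (case 1: `ω = ω'`, variable `h j`, coefficient of `x_q` is `j - j = 0`, of `x_q'` it is `j' - j`; case 2:
`i ∈ ω \ ω'`, variable `h' i`, coefficient `j - i` in `x_q`, `0` in `x_q'`). So the inner sum is
`∑ g, lam g * Ψ y (a + c • g)` (use `hΨs` to exchange the arguments) `≤ ε₂` (`hav`). The outer weights have sum `1`
(`x` has weight `unif Γ`). Third case of `coin_pair` by symmetry (`hΨs`). ~220 lines, mostly copied.
-/

set_option autoImplicit false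

open Finset

namespace Pool.Agent.H16.GP2

open Pool.Agent.H16.GPS

section lf2_aux

lemma lf2_avg {ι X : Type} [Fintype ι] [DecidableEq ι] [Fintype X] (lam : X → ℝ) (hl : IsPW lam)
    (b : ℝ) (j : ι) (Q : (ι → X) → ℝ)
    (hQ : ∀ h, ∑ x, lam x * Q (Function.update h j x) ≤ b) :
    ∑ h : ι → X, (∏ i, lam (h i)) * Q h ≤ b := by
  rw [sum_pi_update lam hl j]
  calc ∑ h : ι → X, (∏ i, lam (h i)) * ∑ x, lam x * Q (Function.update h j x)
      ≤ ∑ h : ι → X, (∏ i, lam (h i)) * b :=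
        Finset.sum_le_sum fun h _ => mul_le_mul_of_nonneg_left (hQ h)
          (Finset.prod_nonneg fun i _ => hl.1 _)
    _ = b := by rw [← Finset.sum_mul, sum_pi_weight lam hl, one_mul]

variable {κ : ℕ} {Γ : Type} [Fintype Γ] [AddCommGroup Γ] (lam : Γ → ℝ) (hl : IsPW lam)
  (b : ℝ) (Ψ : Γ → Γ → ℝ) (hΨs : ∀ x y, Ψ x y = Ψ y x)
  (hav : ∀ (y a : Γ) (c : ℤ), c ≠ 0 → |c| ≤ κ → ∑ g, lam g * Ψ y (a + c • g) ≤ b)

lemma lf2_coef {j i : Fin κ} (hji : j ≠ i) : ((j : ℕ) : ℤ) - ((i : ℕ) : ℤ) ≠ 0 ∧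
    |((j : ℕ) : ℤ) - ((i : ℕ) : ℤ)| ≤ κ := by
  constructor
  · have : (j : ℕ) ≠ (i : ℕ) := fun hh => hji (Fin.ext hh)
    omega
  · have := j.2
    have := i.2
    rw [abs_le]
    constructor <;> omega

include hl hΨs hav in
/-- the case `i ∈ ω \ ω'` -/
lemma lf2_case2 (x : Γ) (j j' : Fin κ) (ω ω' : Finset (Fin κ)) (hj : j ∉ ω) (i : Fin κ)
    (hi : i ∈ ω) (hi' : i ∉ ω') :
    ∑ h : Fin κ → Γ, (∏ l, lam (h l)) * ∑ h' : Fin κ → Γ, (∏ l, lam (h' l)) *
      Ψ (x + LL j (mix h h' ω)) (x + LL j' (mix h h' ω')) ≤ b := by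
  have h1 : ∀ h : Fin κ → Γ, ∑ h' : Fin κ → Γ, (∏ l, lam (h' l)) *
      Ψ (x + LL j (mix h h' ω)) (x + LL j' (mix h h' ω')) ≤ b := by
    intro h
    refine lf2_avg lam hl b i
      (fun h' => Ψ (x + LL j (mix h h' ω)) (x + LL j' (mix h h' ω'))) ?_
    intro h'
    have hji : j ≠ i := by
      rintro rfl
      exact hj hi
    obtain ⟨hc0, hc1⟩ := lf2_coef hji
    refine le_trans (le_of_eq ?_) (hav (x + LL j' (mix h (Function.update h' i 0) ω'))
      (x + LL j (mix h (Function.update h' i 0) ω)) _ hc0 hc1)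
    refine Finset.sum_congr rfl fun g _ => ?_
    have e1 : mix h (Function.update h' i g) ω' = mix h (Function.update h' i 0) ω' := by
      funext l
      unfold mix
      by_cases hl : l ∈ ω'
      · have hli : l ≠ i := fun hh => hi' (hh ▸ hl)
        simp [hl, hli]
      · simp [hl]
    have e2 := coin_LL_sub j i (mix h (Function.update h' i g) ω)
      (mix h (Function.update h' i 0) ω) (fun l hli => by
        unfold mix
        by_cases hl : l ∈ ω <;> simp [hl, hli])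
    have e3 : mix h (Function.update h' i g) ω i = g := by simp [mix, hi]
    have e4 : mix h (Function.update h' i 0) ω i = 0 := by simp [mix, hi]
    rw [e3, e4, sub_zero] at e2
    have e5 : LL j (mix h (Function.update h' i g) ω) =
        LL j (mix h (Function.update h' i 0) ω) + (((j : ℕ) : ℤ) - ((i : ℕ) : ℤ)) • g := by
      rw [← e2]
      abel
    rw [hΨs, e1, e5, add_assoc]
  calc _ ≤ ∑ h : Fin κ → Γ, (∏ i, lam (h i)) * b :=
        Finset.sum_le_sum fun h _ => mul_le_mul_of_nonneg_left (h1 h)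
          (Finset.prod_nonneg fun i _ => hl.1 _)
    _ = b := by rw [← Finset.sum_mul, sum_pi_weight lam hl, one_mul]

include hl hav in
/-- the case `ω = ω'` -/
lemma lf2_case1 (x : Γ) (j j' : Fin κ) (ω : Finset (Fin κ)) (hj : j ∉ ω) (hjj : j ≠ j') :
    ∑ h : Fin κ → Γ, (∏ l, lam (h l)) * ∑ h' : Fin κ → Γ, (∏ l, lam (h' l)) *
      Ψ (x + LL j (mix h h' ω)) (x + LL j' (mix h h' ω)) ≤ b := by
  have h1 : ∀ h' : Fin κ → Γ, ∑ h : Fin κ → Γ, (∏ l, lam (h l)) *
      Ψ (x + LL j (mix h h' ω)) (x + LL j' (mix h h' ω)) ≤ b := by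
    intro h'
    refine lf2_avg lam hl b j
      (fun h => Ψ (x + LL j (mix h h' ω)) (x + LL j' (mix h h' ω))) ?_
    intro h
    obtain ⟨hc0, hc1⟩ := lf2_coef (fun hh : j' = j => hjj hh.symm)
    refine le_trans (le_of_eq ?_) (hav (x + LL j (mix (Function.update h j 0) h' ω))
      (x + LL j' (mix (Function.update h j 0) h' ω)) _ hc0 hc1)
    refine Finset.sum_congr rfl fun g _ => ?_
    have hd : ∀ l, l ≠ j → mix (Function.update h j g) h' ω l =
        mix (Function.update h j 0) h' ω l := by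
      intro l hlj
      unfold mix
      by_cases hl : l ∈ ω <;> simp [hl, hlj]
    have e2 := coin_LL_sub j j (mix (Function.update h j g) h' ω)
      (mix (Function.update h j 0) h' ω) hd
    have e2' := coin_LL_sub j' j (mix (Function.update h j g) h' ω)
      (mix (Function.update h j 0) h' ω) hd
    have e3 : mix (Function.update h j g) h' ω j = g := by simp [mix, hj]
    have e4 : mix (Function.update h j 0) h' ω j = 0 := by simp [mix, hj]
    rw [e3, e4, sub_zero] at e2 e2'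
    rw [sub_self, zero_smul, sub_eq_zero] at e2
    have e5 : LL j' (mix (Function.update h j g) h' ω) =
        LL j' (mix (Function.update h j 0) h' ω) + (((j' : ℕ) : ℤ) - ((j : ℕ) : ℤ)) • g := by
      rw [← e2']
      abel
    rw [e2, e5, add_assoc]
  calc _ = ∑ h' : Fin κ → Γ, (∏ l, lam (h' l)) * ∑ h : Fin κ → Γ, (∏ l, lam (h l)) *
      Ψ (x + LL j (mix h h' ω)) (x + LL j' (mix h h' ω)) := by
        simp only [Finset.mul_sum]
        rw [Finset.sum_comm]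
        refine Finset.sum_congr rfl fun h' _ => Finset.sum_congr rfl fun h _ => ?_
        ring
    _ ≤ ∑ h' : Fin κ → Γ, (∏ i, lam (h' i)) * b :=
        Finset.sum_le_sum fun h _ => mul_le_mul_of_nonneg_left (h1 h)
          (Finset.prod_nonneg fun i _ => hl.1 _)
    _ = b := by rw [← Finset.sum_mul, sum_pi_weight lam hl, one_mul]

include hl hΨs hav in
lemma lf2_pair (x : Γ) (q q' : Fin κ × Finset (Fin κ)) (hq : q.1 ∉ q.2) (hq' : q'.1 ∉ q'.2)
    (hne : q ≠ q') :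
    ∑ h : Fin κ → Γ, (∏ l, lam (h l)) * ∑ h' : Fin κ → Γ, (∏ l, lam (h' l)) *
      Ψ (x + LL q.1 (mix h h' q.2)) (x + LL q'.1 (mix h h' q'.2)) ≤ b := by
  by_cases h2 : q.2 = q'.2
  · have h1 : q.1 ≠ q'.1 := fun hh => hne (Prod.ext hh h2)
    rw [← h2]
    exact lf2_case1 lam hl b Ψ hav x q.1 q'.1 q.2 hq h1
  · by_cases h3 : ∃ i, i ∈ q.2 ∧ i ∉ q'.2
    · obtain ⟨i, hi, hi'⟩ := h3
      exact lf2_case2 lam hl b Ψ hΨs hav x q.1 q'.1 q.2 q'.2 hq i hi hi'
    · have h4 : ∃ i, i ∈ q'.2 ∧ i ∉ q.2 := by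
        by_contra h5
        push Not at h3 h5
        exact h2 (Finset.Subset.antisymm h3 h5)
      obtain ⟨i, hi, hi'⟩ := h4
      have h5 := lf2_case2 lam hl b Ψ hΨs hav x q'.1 q.1 q'.2 q.2 hq' i hi hi'
      refine le_trans (le_of_eq ?_) h5
      refine Finset.sum_congr rfl fun h _ => ?_
      congr 1
      refine Finset.sum_congr rfl fun h' _ => ?_
      rw [hΨs]

end lf2_aux

theorem lf_of_corr2 (κ : ℕ) (hκ : 2 ≤ κ) {Θ Γ : Type} [Fintype Θ] [Nonempty Θ] [Fintype Γ]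
    [AddCommGroup Γ] [DecidableEq Γ] (lam : Γ → ℝ) (hl : IsPW lam)
    (ν : Θ × Γ → ℝ) (Bd : ℝ) (hBd : 1 ≤ Bd) (hν : ∀ p, 0 ≤ ν p ∧ ν p ≤ Bd)
    (ε ε₂ : ℝ) (hε : 0 ≤ ε) (hε₂ : 0 ≤ ε₂)
    (Ψ : Γ → Γ → ℝ) (hΨ0 : ∀ x y, 0 ≤ Ψ x y) (hΨs : ∀ x y, Ψ x y = Ψ y x)
    (hΨd : ∀ x, Bd ^ (κ * 2 ^ κ) + 1 ≤ Ψ x x)
    (hcorr : ∀ S : Finset Γ, #S ≤ κ * 2 ^ κ →
      |(∑ A : Θ, ∏ x ∈ S, ν (A, x)) / (Fintype.card Θ : ℝ) - 1| ≤
        ε + ∑ x ∈ S, ∑ y ∈ S.erase x, Ψ x y)
    (hav : ∀ (y a : Γ) (c : ℤ), c ≠ 0 → |c| ≤ κ → ∑ g, lam g * Ψ y (a + c • g) ≤ ε₂) :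
    LFnu κ lam ν (ε + ((κ * 2 ^ κ : ℕ) : ℝ) ^ 2 * ε₂) := by
  intro S hS
  obtain ⟨t, ht⟩ : ∃ t : ℕ, t = κ * 2 ^ κ := ⟨_, rfl⟩
  rw [← ht] at hcorr hΨd ⊢
  have hcard : #S ≤ t := by
    have h1 := Finset.card_le_univ S
    rw [Fintype.card_prod, Fintype.card_fin, Fintype.card_finset, Fintype.card_fin] at h1
    rw [ht]; exact h1
  have hΘ : (0 : ℝ) < Fintype.card Θ := by exact_mod_cast Fintype.card_pos
  have hΓ : (0 : ℝ) < Fintype.card Γ := by
    have : Nonempty Γ := ⟨0⟩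
    exact_mod_cast Fintype.card_pos
  have hμ : IsPW (unif Γ) := by
    refine ⟨fun x => by unfold unif; positivity, ?_⟩
    unfold unif
    rw [Finset.sum_const, Finset.card_univ, nsmul_eq_mul]
    field_simp
  have hB0 : (0 : ℝ) ≤ Bd ^ t + 1 := by positivity
  -- reduction to the average over `A`
  have hred : EE2 (unif (Θ × Γ)) lam (fun p (h h' : Fin κ → Γ) =>
      ∏ q ∈ S, ν (p.1, p.2 + LL q.1 (mix h h' q.2))) =
      EE2 (unif Γ) lam (fun x (h h' : Fin κ → Γ) =>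
        (∑ A : Θ, ∏ q ∈ S, ν (A, x + LL q.1 (mix h h' q.2))) / (Fintype.card Θ : ℝ)) := by
    rw [coin_EE2_eq, coin_EE2_eq, Fintype.sum_prod_type, Finset.sum_comm]
    refine Finset.sum_congr rfl fun x _ => ?_
    rw [Finset.sum_comm]
    refine Finset.sum_congr rfl fun h _ => ?_
    rw [Finset.sum_comm]
    refine Finset.sum_congr rfl fun h' _ => ?_
    rw [Finset.sum_div, Finset.mul_sum, Finset.mul_sum, Finset.mul_sum]
    refine Finset.sum_congr rfl fun A _ => ?_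
    unfold unif
    rw [Fintype.card_prod]
    push_cast
    field_simp
  show |EE2 (unif (Θ × Γ)) lam (fun p (h h' : Fin κ → Γ) =>
      ∏ q ∈ S, ν (p.1, p.2 + LL q.1 (mix h h' q.2))) - 1| ≤ _
  rw [hred]
  have hone : (1 : ℝ) = EE2 (unif Γ) lam (fun _ (_ _ : Fin κ → Γ) => (1 : ℝ)) :=
    (coin_EE2_const _ _ hμ hl 1).symm
  have hsub := coin_EE2_sub (unif Γ) lam (fun x (h h' : Fin κ → Γ) =>
        (∑ A : Θ, ∏ q ∈ S, ν (A, x + LL q.1 (mix h h' q.2))) / (Fintype.card Θ : ℝ))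
        (fun _ _ _ => (1 : ℝ))
  rw [← hone] at hsub
  rw [← hsub]
  have hpt : ∀ (x : Γ) (h h' : Fin κ → Γ),
      |(∑ A : Θ, ∏ q ∈ S, ν (A, x + LL q.1 (mix h h' q.2))) / (Fintype.card Θ : ℝ) - 1| ≤
        ε + ∑ q ∈ S, ∑ q' ∈ S.erase q,
          Ψ (x + LL q.1 (mix h h' q.2)) (x + LL q'.1 (mix h h' q'.2)) := by
    intro x h h'
    by_cases hinjS : ∀ q ∈ S, ∀ q' ∈ S,
        x + LL q.1 (mix h h' q.2) = x + LL q'.1 (mix h h' q'.2) → q = q'
    · have hinjS' : Set.InjOn (fun q : Fin κ × Finset (Fin κ) => x + LL q.1 (mix h h' q.2)) S :=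
        fun q hq q' hq' hqq => hinjS q hq q' hq' hqq
      have e : ∀ A : Θ, ∏ q ∈ S, ν (A, x + LL q.1 (mix h h' q.2)) =
          ∏ y ∈ S.image (fun q : Fin κ × Finset (Fin κ) => x + LL q.1 (mix h h' q.2)),
            ν (A, y) := by
        intro A
        rw [Finset.prod_image hinjS']
      simp only [e]
      refine (hcorr _ (Finset.card_image_le.trans hcard)).trans ?_
      rw [Finset.sum_image hinjS']
      refine add_le_add le_rfl (le_of_eq (Finset.sum_congr rfl fun q hq => ?_))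
      have e2 : (S.image (fun q : Fin κ × Finset (Fin κ) => x + LL q.1 (mix h h' q.2))).erase
          (x + LL q.1 (mix h h' q.2)) =
          (S.erase q).image (fun q : Fin κ × Finset (Fin κ) => x + LL q.1 (mix h h' q.2)) := by
        ext y
        simp only [Finset.mem_erase, Finset.mem_image]
        constructor
        · rintro ⟨hy, q', hq', rfl⟩
          exact ⟨q', ⟨fun hh => hy (by rw [hh]), hq'⟩, rfl⟩
        · rintro ⟨q', ⟨hne, hq'⟩, rfl⟩
          exact ⟨fun hh => hne (hinjS q' hq' q hq hh), q', hq', rfl⟩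
      rw [e2, Finset.sum_image (hinjS'.mono (Finset.coe_subset.2 (Finset.erase_subset _ _)))]
    · push Not at hinjS
      obtain ⟨q, hq, q', hq', hqq, hne⟩ := hinjS
      have h1 : Bd ^ t + 1 ≤ ∑ q ∈ S, ∑ q' ∈ S.erase q,
          Ψ (x + LL q.1 (mix h h' q.2)) (x + LL q'.1 (mix h h' q'.2)) := by
        have hnn : ∀ r ∈ S, (0 : ℝ) ≤ ∑ q' ∈ S.erase r,
            Ψ (x + LL r.1 (mix h h' r.2)) (x + LL q'.1 (mix h h' q'.2)) :=
          fun r _ => Finset.sum_nonneg fun q' _ => hΨ0 _ _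
        refine le_trans ?_ (Finset.single_le_sum hnn hq)
        have hnn' : ∀ r ∈ S.erase q, (0 : ℝ) ≤
            Ψ (x + LL q.1 (mix h h' q.2)) (x + LL r.1 (mix h h' r.2)) :=
          fun r _ => hΨ0 _ _
        have hm : q' ∈ S.erase q := Finset.mem_erase.2 ⟨fun hh => hne hh.symm, hq'⟩
        refine le_trans ?_ (Finset.single_le_sum hnn' hm)
        rw [← hqq]
        exact hΨd _
      have hprod : ∀ A : Θ, 0 ≤ ∏ q ∈ S, ν (A, x + LL q.1 (mix h h' q.2)) ∧
          ∏ q ∈ S, ν (A, x + LL q.1 (mix h h' q.2)) ≤ Bd ^ t := by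
        intro A
        refine ⟨Finset.prod_nonneg fun q _ => (hν _).1, ?_⟩
        refine (Finset.prod_le_prod (fun q _ => (hν _).1) fun q _ => (hν _).2).trans ?_
        rw [Finset.prod_const]
        exact pow_le_pow_right₀ hBd hcard
      have hlow : 0 ≤ (∑ A : Θ, ∏ q ∈ S, ν (A, x + LL q.1 (mix h h' q.2))) /
          (Fintype.card Θ : ℝ) := div_nonneg (Finset.sum_nonneg fun A _ => (hprod A).1) hΘ.le
      have hup : (∑ A : Θ, ∏ q ∈ S, ν (A, x + LL q.1 (mix h h' q.2))) /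
          (Fintype.card Θ : ℝ) ≤ Bd ^ t := by
        rw [div_le_iff₀ hΘ]
        refine (Finset.sum_le_sum fun A _ => (hprod A).2).trans ?_
        rw [Finset.sum_const, Finset.card_univ, nsmul_eq_mul, mul_comm]
      have h3 : (0 : ℝ) ≤ Bd ^ t := by positivity
      rw [abs_le]
      constructor <;> linarith
  refine (coin_abs_EE2_le (unif Γ) lam hμ hl _ _ hpt).trans ?_
  rw [coin_EE2_add, coin_EE2_const _ _ hμ hl, coin_EE2_sum]
  have hE : ∀ q ∈ S, ∀ q' ∈ S.erase q, EE2 (unif Γ) lam (fun x (h h' : Fin κ → Γ) =>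
      Ψ (x + LL q.1 (mix h h' q.2)) (x + LL q'.1 (mix h h' q'.2))) ≤ ε₂ := by
    intro q hq q' hq'
    have h1 : ∀ x : Γ, _ := fun x => lf2_pair lam hl ε₂ Ψ hΨs hav x q q' (hS q hq)
      (hS q' (Finset.mem_of_mem_erase hq')) (fun hh => (Finset.ne_of_mem_erase hq') hh.symm)
    unfold EE2
    calc _ ≤ ∑ x : Γ, unif Γ x * ε₂ :=
          Finset.sum_le_sum fun x _ => mul_le_mul_of_nonneg_left (h1 x) (hμ.1 x)
      _ = ε₂ := by rw [← Finset.sum_mul, hμ.2, one_mul]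
  have hsum : ∑ q ∈ S, EE2 (unif Γ) lam (fun (x : Γ) (h h' : Fin κ → Γ) => ∑ q' ∈ S.erase q,
      Ψ (x + LL q.1 (mix h h' q.2)) (x + LL q'.1 (mix h h' q'.2))) ≤
      (t : ℝ) ^ 2 * ε₂ := by
    have h1 : ∀ q ∈ S, EE2 (unif Γ) lam (fun (x : Γ) (h h' : Fin κ → Γ) => ∑ q' ∈ S.erase q,
        Ψ (x + LL q.1 (mix h h' q.2)) (x + LL q'.1 (mix h h' q'.2))) ≤
        (t : ℝ) * ε₂ := by
      intro q hq
      rw [coin_EE2_sum]
      refine (Finset.sum_le_sum (hE q hq)).trans ?_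
      rw [Finset.sum_const, nsmul_eq_mul]
      refine mul_le_mul_of_nonneg_right ?_ hε₂
      exact_mod_cast (Finset.card_le_card (Finset.erase_subset _ _)).trans hcard
    refine (Finset.sum_le_sum h1).trans ?_
    rw [Finset.sum_const, nsmul_eq_mul, pow_two, mul_assoc]
    refine mul_le_mul_of_nonneg_right ?_ (by positivity)
    exact_mod_cast hcard
  linarith

end Pool.Agent.H16.GP2
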