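import Pool.Agent.H16.GPS.Rel.Coin2
import Pool.Agent.H16.GPS.Rel.Coin

/-!
JOB GP2-LFD2 (MP_c183ae_nt). The condition `LFd` from correlations with a pair term `Ψ`.

PROOF. Copy `lfd_of_corr` (with its private lemmas) of `H16/GPS/Rel/Coin2.lean`. Changes:
(1) pointwise bound. With `z_ω = z + κ! • ∑ c, mix y y' ω c`, for all `z, y, y'`:
`|(∑ A, ∏ ω ∈ S, ν (A, z_ω)) / card Θ - 1| ≤ ε + ∑ ω ∈ S, ∑ ω' ∈ S.erase ω, Ψ (z_ω) (z_ω')`: if the points are distinct this is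
`hcorr` for the image of `S`; if `z_ω = z_ω'` for some `ω ≠ ω'` the left side is `≤ Bd^t + 1 ≤ Ψ (z_ω) (z_ω')` (`hΨd`; note
`#S ≤ 2^κ ≤ κ 2^κ`).
(2) average of one term: for `ω ≠ ω'` take `i` in the symmetric difference (say `i ∈ ω`, `i ∉ ω'`); `z_ω` depends on the
variable `y' i` with the coefficient `κ!` and `z_ω'` does not (`coin2_mix_mem`, `coin2_mix_notMem`). With `sum_pi_update` for
this variable the inner sum is `∑ g, lam' g * Ψ y₀ (a + κ! • g) ≤ ε₂` (`hav`, symmetry `hΨs`). Since now the pair term depends on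
the base point `z`, keep the average over `z` (weight `unif Γ`, or `1/card Γ`) outside. ~200 lines, mostly copied.
-/

set_option autoImplicit false

open Finset

namespace Pool.Agent.H16.GP2

open Pool.Agent.H16.GPS

private theorem lfd2_mix_mem {κ : ℕ} {Γ : Type} [AddCommGroup Γ] (ω : Finset (Fin κ))
    (y y' : Fin κ → Γ) (i : Fin κ) (x : Γ) (hi : i ∈ ω) :
    ∑ c, mix y (Function.update y' i x) ω c = x + ∑ c ∈ univ.erase i, mix y y' ω c := by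
  rw [← Finset.add_sum_erase univ _ (Finset.mem_univ i)]
  congr 1
  · simp [mix, hi]
  · refine Finset.sum_congr rfl fun c hc => ?_
    have hci : c ≠ i := Finset.ne_of_mem_erase hc
    simp only [mix, Function.update_of_ne hci]

private theorem lfd2_mix_notMem {κ : ℕ} {Γ : Type} [AddCommGroup Γ] (ω : Finset (Fin κ))
    (y y' : Fin κ → Γ) (i : Fin κ) (x : Γ) (hi : i ∉ ω) :
    mix y (Function.update y' i x) ω = mix y y' ω := by
  funext c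
  by_cases hci : c = i
  · subst hci
    simp [mix, hi]
  · simp only [mix, Function.update_of_ne hci]

/-- the average over `y'` of the pair term, ordered case -/
private theorem lfd2_pair {κ : ℕ} {Γ : Type} [Fintype Γ] [AddCommGroup Γ] [DecidableEq Γ]
    (lam' : Γ → ℝ) (hl : IsPW lam') (ε₂ : ℝ)
    (Ψ : Γ → Γ → ℝ) (hΨs : ∀ x y, Ψ x y = Ψ y x) (N : ℕ)
    (hav : ∀ (y a : Γ), ∑ g, lam' g * Ψ y (a + N • g) ≤ ε₂)
    (ω ω' : Finset (Fin κ)) (i : Fin κ) (hi : i ∈ ω) (hi' : i ∉ ω') (z : Γ) (y : Fin κ → Γ) :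
    ∑ y' : Fin κ → Γ, (∏ c, lam' (y' c)) *
      Ψ (z + N • ∑ c, mix y y' ω c) (z + N • ∑ c, mix y y' ω' c) ≤ ε₂ := by
  have hW : ∀ y : Fin κ → Γ, 0 ≤ ∏ c, lam' (y c) := fun y => Finset.prod_nonneg fun c _ => hl.1 _
  rw [sum_pi_update lam' hl i (fun y' : Fin κ → Γ =>
    Ψ (z + N • ∑ c, mix y y' ω c) (z + N • ∑ c, mix y y' ω' c))]
  calc ∑ y' : Fin κ → Γ, (∏ c, lam' (y' c)) * ∑ x, lam' x *
        Ψ (z + N • ∑ c, mix y (Function.update y' i x) ω c)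
          (z + N • ∑ c, mix y (Function.update y' i x) ω' c)
      ≤ ∑ y' : Fin κ → Γ, (∏ c, lam' (y' c)) * ε₂ := by
        refine Finset.sum_le_sum fun y' _ => mul_le_mul_of_nonneg_left ?_ (hW y')
        simp only [lfd2_mix_mem ω y y' i _ hi, lfd2_mix_notMem ω' y y' i _ hi']
        refine le_trans (le_of_eq ?_) (hav (z + N • ∑ c, mix y y' ω' c)
          (z + N • ∑ c ∈ univ.erase i, mix y y' ω c))
        refine Finset.sum_congr rfl fun x _ => ?_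
        rw [hΨs]
        congr 2
        rw [smul_add]
        abel
    _ = ε₂ := by rw [← Finset.sum_mul, sum_pi_weight lam' hl, one_mul]

/-- the average over `y'` of the pair term -/
private theorem lfd2_pair' {κ : ℕ} {Γ : Type} [Fintype Γ] [AddCommGroup Γ] [DecidableEq Γ]
    (lam' : Γ → ℝ) (hl : IsPW lam') (ε₂ : ℝ)
    (Ψ : Γ → Γ → ℝ) (hΨs : ∀ x y, Ψ x y = Ψ y x) (N : ℕ)
    (hav : ∀ (y a : Γ), ∑ g, lam' g * Ψ y (a + N • g) ≤ ε₂)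
    (ω ω' : Finset (Fin κ)) (hne : ω ≠ ω') (z : Γ) (y : Fin κ → Γ) :
    ∑ y' : Fin κ → Γ, (∏ c, lam' (y' c)) *
      Ψ (z + N • ∑ c, mix y y' ω c) (z + N • ∑ c, mix y y' ω' c) ≤ ε₂ := by
  by_cases h : ω ⊆ ω'
  · have h2 : ¬ ω' ⊆ ω := fun h3 => hne (Finset.Subset.antisymm h h3)
    obtain ⟨i, hi, hi'⟩ := Finset.not_subset.1 h2
    have h3 := lfd2_pair lam' hl ε₂ Ψ hΨs N hav ω' ω i hi hi' z y
    refine le_trans (le_of_eq ?_) h3
    refine Finset.sum_congr rfl fun y' _ => ?_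
    rw [hΨs]
  · obtain ⟨i, hi, hi'⟩ := Finset.not_subset.1 h
    exact lfd2_pair lam' hl ε₂ Ψ hΨs N hav ω ω' i hi hi' z y

/-- the average of the pair term -/
private theorem lfd2_EE2_pair {κ : ℕ} {Γ : Type} [Fintype Γ] [AddCommGroup Γ] [DecidableEq Γ]
    (lam' : Γ → ℝ) (hl : IsPW lam') (ε₂ : ℝ)
    (Ψ : Γ → Γ → ℝ) (hΨs : ∀ x y, Ψ x y = Ψ y x) (N : ℕ)
    (hav : ∀ (y a : Γ), ∑ g, lam' g * Ψ y (a + N • g) ≤ ε₂)
    (ω ω' : Finset (Fin κ)) (hne : ω ≠ ω') :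
    EE2 (unif Γ) lam' (fun z y y' =>
      Ψ (z + N • ∑ c, mix y y' ω c) (z + N • ∑ c, mix y y' ω' c)) ≤ ε₂ := by
  have hΓ : (0 : ℝ) < (Fintype.card Γ : ℝ) := by
    exact_mod_cast Fintype.card_pos_iff.2 ⟨(0 : Γ)⟩
  have hW : ∀ y : Fin κ → Γ, 0 ≤ ∏ c, lam' (y c) := fun y => Finset.prod_nonneg fun c _ => hl.1 _
  have h1 : ∀ z : Γ, ∑ y : Fin κ → Γ, (∏ c, lam' (y c)) * ∑ y' : Fin κ → Γ, (∏ c, lam' (y' c)) *
      Ψ (z + N • ∑ c, mix y y' ω c) (z + N • ∑ c, mix y y' ω' c) ≤ ε₂ := by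
    intro z
    calc ∑ y : Fin κ → Γ, (∏ c, lam' (y c)) * ∑ y' : Fin κ → Γ, (∏ c, lam' (y' c)) *
            Ψ (z + N • ∑ c, mix y y' ω c) (z + N • ∑ c, mix y y' ω' c)
        ≤ ∑ y : Fin κ → Γ, (∏ c, lam' (y c)) * ε₂ :=
          Finset.sum_le_sum fun y _ => mul_le_mul_of_nonneg_left
            (lfd2_pair' lam' hl ε₂ Ψ hΨs N hav ω ω' hne z y) (hW y)
      _ = ε₂ := by rw [← Finset.sum_mul, sum_pi_weight lam' hl, one_mul]
  calc EE2 (unif Γ) lam' (fun z y y' =>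
          Ψ (z + N • ∑ c, mix y y' ω c) (z + N • ∑ c, mix y y' ω' c))
      ≤ ∑ _z : Γ, (1 / (Fintype.card Γ : ℝ)) * ε₂ := by
        rw [EE2]
        refine Finset.sum_le_sum fun z _ => ?_
        rw [unif]
        exact mul_le_mul_of_nonneg_left (h1 z) (by positivity)
    _ = ε₂ := by
        rw [Finset.sum_const, Finset.card_univ, nsmul_eq_mul]
        field_simp

/-- average over the parameter first -/
private theorem lfd2_EE2_param {κ : ℕ} {Θ Γ : Type} [Fintype Θ] [Nonempty Θ] [Fintype Γ]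
    [AddCommGroup Γ] (lam' : Γ → ℝ) (F : Θ × Γ → (Fin κ → Γ) → (Fin κ → Γ) → ℝ) :
    EE2 (unif (Θ × Γ)) lam' F =
      EE2 (unif Γ) lam' (fun z y y' => (∑ A : Θ, F (A, z) y y') / (Fintype.card Θ : ℝ)) := by
  have hΘ : (0 : ℝ) < (Fintype.card Θ : ℝ) := by exact_mod_cast Fintype.card_pos
  have hΓ : (0 : ℝ) < (Fintype.card Γ : ℝ) := by
    exact_mod_cast Fintype.card_pos_iff.2 ⟨(0 : Γ)⟩
  rw [EE2, EE2, Fintype.sum_prod_type_right]
  refine Finset.sum_congr rfl fun z _ => ?_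
  simp only [unif, Finset.mul_sum, Finset.sum_div]
  rw [Finset.sum_comm]
  refine Finset.sum_congr rfl fun y _ => ?_
  rw [Finset.sum_comm]
  refine Finset.sum_congr rfl fun y' _ => ?_
  refine Finset.sum_congr rfl fun A _ => ?_
  rw [Fintype.card_prod]
  push_cast
  field_simp

/-- pointwise bound -/
private theorem lfd2_point {J : Type} [DecidableEq J] {Θ Γ : Type} [Fintype Θ] [Nonempty Θ]
    [DecidableEq Γ] (ν : Θ × Γ → ℝ) (Bd : ℝ) (hBd : 1 ≤ Bd)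
    (hν : ∀ p, 0 ≤ ν p ∧ ν p ≤ Bd) (ε : ℝ) (hε : 0 ≤ ε) (t : ℕ)
    (Ψ : Γ → Γ → ℝ) (hΨ0 : ∀ x y, 0 ≤ Ψ x y) (hΨd : ∀ x, Bd ^ t + 1 ≤ Ψ x x)
    (hcorr : ∀ S : Finset Γ, #S ≤ t →
      |(∑ A : Θ, ∏ x ∈ S, ν (A, x)) / (Fintype.card Θ : ℝ) - 1| ≤
        ε + ∑ x ∈ S, ∑ y ∈ S.erase x, Ψ x y)
    (S : Finset J) (hS : #S ≤ t) (f : J → Γ) :
    |(∑ A : Θ, ∏ ω ∈ S, ν (A, f ω)) / (Fintype.card Θ : ℝ) - 1| ≤
      ε + ∑ q ∈ (S ×ˢ S).filter (fun q => q.1 ≠ q.2), Ψ (f q.1) (f q.2) := by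
  have hΘ : (0 : ℝ) < (Fintype.card Θ : ℝ) := by exact_mod_cast Fintype.card_pos
  by_cases hd : ∀ ω ∈ S, ∀ ω' ∈ S, ω ≠ ω' → f ω ≠ f ω'
  · have hinj : Set.InjOn f S := by
      intro ω hω ω' hω' he
      by_contra hne
      exact hd ω hω ω' hω' hne he
    have h1 := hcorr (S.image f) (Finset.card_image_le.trans hS)
    have h2 : ∀ A : Θ, ∏ x ∈ S.image f, ν (A, x) = ∏ ω ∈ S, ν (A, f ω) := by
      intro A
      exact Finset.prod_image hinj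
    simp only [h2] at h1
    refine h1.trans (le_of_eq ?_)
    congr 1
    have h3 : ∀ T : Finset Γ, ∑ x ∈ T, ∑ y ∈ T.erase x, Ψ x y =
        ∑ x ∈ T, ∑ y ∈ T, if x ≠ y then Ψ x y else 0 := by
      intro T
      refine Finset.sum_congr rfl fun x _ => ?_
      rw [← Finset.sum_filter]
      refine Finset.sum_congr ?_ fun _ _ => rfl
      ext y
      simp only [Finset.mem_erase, Finset.mem_filter]
      constructor
      · rintro ⟨h, h'⟩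
        exact ⟨h', fun he => h he.symm⟩
      · rintro ⟨h, h'⟩
        exact ⟨fun he => h' he.symm, h⟩
    rw [h3, Finset.sum_filter, Finset.sum_product, Finset.sum_image hinj]
    refine Finset.sum_congr rfl fun ω hω => ?_
    rw [Finset.sum_image hinj]
    refine Finset.sum_congr rfl fun ω' hω' => ?_
    by_cases he : ω = ω'
    · subst he
      simp
    · rw [if_pos he, if_pos (hd ω hω ω' hω' he)]
  · push Not at hd
    obtain ⟨ω, hω, ω', hω', hne, he⟩ := hd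
    have h2 : Ψ (f ω) (f ω') ≤ ∑ q ∈ (S ×ˢ S).filter (fun q => q.1 ≠ q.2), Ψ (f q.1) (f q.2) :=
      Finset.single_le_sum (f := fun q : J × J => Ψ (f q.1) (f q.2)) (fun q _ => hΨ0 _ _)
        (a := (ω, ω')) (by
        rw [Finset.mem_filter, Finset.mem_product]
        exact ⟨⟨hω, hω'⟩, hne⟩)
    have h3 := hΨd (f ω)
    rw [← he] at h2
    have h1 : ∀ A : Θ, 0 ≤ ∏ ω ∈ S, ν (A, f ω) ∧ ∏ ω ∈ S, ν (A, f ω) ≤ Bd ^ t := by
      intro A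
      refine ⟨Finset.prod_nonneg fun ω _ => (hν _).1, ?_⟩
      calc ∏ ω ∈ S, ν (A, f ω) ≤ ∏ _ω ∈ S, Bd :=
            Finset.prod_le_prod (fun ω _ => (hν _).1) fun ω _ => (hν _).2
        _ = Bd ^ #S := by rw [Finset.prod_const]
        _ ≤ Bd ^ t := pow_le_pow_right₀ hBd hS
    have h4 : 0 ≤ (∑ A : Θ, ∏ ω ∈ S, ν (A, f ω)) / (Fintype.card Θ : ℝ) :=
      div_nonneg (Finset.sum_nonneg fun A _ => (h1 A).1) hΘ.le
    have h5 : (∑ A : Θ, ∏ ω ∈ S, ν (A, f ω)) / (Fintype.card Θ : ℝ) ≤ Bd ^ t := by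
      rw [div_le_iff₀ hΘ]
      calc ∑ A : Θ, ∏ ω ∈ S, ν (A, f ω) ≤ ∑ _A : Θ, Bd ^ t :=
            Finset.sum_le_sum fun A _ => (h1 A).2
        _ = Bd ^ t * (Fintype.card Θ : ℝ) := by
            rw [Finset.sum_const, Finset.card_univ, nsmul_eq_mul, mul_comm]
    have h6 : (0 : ℝ) ≤ Bd ^ t := by positivity
    rw [abs_le]
    constructor
    · linarith
    · linarith

theorem lfd_of_corr2 (κ : ℕ) (hκ : 2 ≤ κ) {Θ Γ : Type} [Fintype Θ] [Nonempty Θ] [Fintype Γ]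
    [AddCommGroup Γ] [DecidableEq Γ] (lam' : Γ → ℝ) (hl : IsPW lam')
    (ν : Θ × Γ → ℝ) (Bd : ℝ) (hBd : 1 ≤ Bd) (hν : ∀ p, 0 ≤ ν p ∧ ν p ≤ Bd)
    (ε ε₂ : ℝ) (hε : 0 ≤ ε) (hε₂ : 0 ≤ ε₂)
    (Ψ : Γ → Γ → ℝ) (hΨ0 : ∀ x y, 0 ≤ Ψ x y) (hΨs : ∀ x y, Ψ x y = Ψ y x)
    (hΨd : ∀ x, Bd ^ (κ * 2 ^ κ) + 1 ≤ Ψ x x)
    (hcorr : ∀ S : Finset Γ, #S ≤ κ * 2 ^ κ →
      |(∑ A : Θ, ∏ x ∈ S, ν (A, x)) / (Fintype.card Θ : ℝ) - 1| ≤
        ε + ∑ x ∈ S, ∑ y ∈ S.erase x, Ψ x y)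
    (hav : ∀ (y a : Γ), ∑ g, lam' g * Ψ y (a + κ.factorial • g) ≤ ε₂) :
    LFd κ lam' ν (ε + ((κ * 2 ^ κ : ℕ) : ℝ) ^ 2 * ε₂) := by
  classical
  intro S
  have hS : #S ≤ κ * 2 ^ κ := by
    have h1 := Finset.card_le_univ S
    rw [Fintype.card_finset, Fintype.card_fin] at h1
    nlinarith [Nat.one_le_two_pow (n := κ)]
  obtain ⟨t, ht⟩ : ∃ t, t = κ * 2 ^ κ := ⟨_, rfl⟩
  rw [← ht] at hcorr hS hΨd ⊢
  have hΓ : (0 : ℝ) < (Fintype.card Γ : ℝ) := by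
    exact_mod_cast Fintype.card_pos_iff.2 ⟨(0 : Γ)⟩
  have hu : IsPW (unif Γ) := by
    refine ⟨fun x => by rw [unif]; positivity, ?_⟩
    simp only [unif]
    rw [Finset.sum_const, Finset.card_univ, nsmul_eq_mul]
    field_simp
  rw [lfd2_EE2_param]
  rw [show (1 : ℝ) = EE2 (unif Γ) lam' (fun (_ : Γ) (_ _ : Fin κ → Γ) => (1 : ℝ)) from
    (coin_EE2_const (unif Γ) lam' hu hl 1).symm, ← coin_EE2_sub]
  refine (coin_abs_EE2_le (unif Γ) lam' hu hl _ (fun z y y' => ε +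
    ∑ q ∈ (S ×ˢ S).filter (fun q => q.1 ≠ q.2),
      Ψ (z + κ.factorial • ∑ c, mix y y' q.1 c) (z + κ.factorial • ∑ c, mix y y' q.2 c)) ?_).trans ?_
  · intro z y y'
    exact lfd2_point ν Bd hBd hν ε hε t Ψ hΨ0 hΨd hcorr S hS
      (fun ω => z + κ.factorial • ∑ c, mix y y' ω c)
  · rw [coin_EE2_add, coin_EE2_const (unif Γ) lam' hu hl, coin_EE2_sum]
    have h1 : ∑ q ∈ (S ×ˢ S).filter (fun q => q.1 ≠ q.2),
        EE2 (unif Γ) lam' (fun z y y' => Ψ (z + κ.factorial • ∑ c, mix y y' q.1 c)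
          (z + κ.factorial • ∑ c, mix y y' q.2 c)) ≤
        ∑ _q ∈ (S ×ˢ S).filter (fun q => q.1 ≠ q.2), ε₂ :=
      Finset.sum_le_sum fun q hq =>
        lfd2_EE2_pair lam' hl ε₂ Ψ hΨs κ.factorial hav q.1 q.2 (Finset.mem_filter.1 hq).2
    rw [Finset.sum_const, nsmul_eq_mul] at h1
    have h2 : (#((S ×ˢ S).filter (fun q => q.1 ≠ q.2)) : ℝ) ≤ (t : ℝ) ^ 2 := by
      have h2 : #((S ×ˢ S).filter (fun q => q.1 ≠ q.2)) ≤ t ^ 2 := by
        refine (Finset.card_filter_le _ _).trans ?_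
        rw [Finset.card_product, pow_two]
        exact Nat.mul_le_mul hS hS
      exact_mod_cast h2
    have h3 := mul_le_mul_of_nonneg_right h2 hε₂
    linarith

end Pool.Agent.H16.GP2
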