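import Pool.Agent.H16.GPS.Fin1

/-!
JOB GP2-LAWAVG (MP_c183ae_nt). Two lemmas on laws.

PROOFS. `lawN_avg`: see `lawN_atom` in `H16/GPS/Rel/Laws.lean` (`lawU_add`: for fixed `r` and fixed `ω.2 i`, `i ≠ 0`, the value is
`b (ω.2 0) + rest`): `∑ g, lawN n b g * φ g` is an average over `(r, rest)` of `(∑ ξ, φ (b ξ + rest)) / card Ξ
= ∑ g, lawU b g * φ (g + rest) ≤ M` (`sum_lawU`).
`nearInv_box2`: copy of `nearInv_box` in `H16/GPS/Fin1.lean` (there `H' = 3`). ~80 lines.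
-/

set_option autoImplicit false

open Finset

namespace Pool.Agent.H16.GP2

open Pool.Agent.H16.GPS

theorem lawN_avg {Ξ Γ : Type} [Fintype Ξ] [Nonempty Ξ] [Fintype Γ] [AddCommGroup Γ] (n : ℕ)
    (hn : 1 ≤ n) (b : Ξ → Γ) (φ : Γ → ℝ) (M : ℝ) (h : ∀ v, ∑ g, lawU b g * φ (g + v) ≤ M) :
    ∑ g, lawN n b g * φ g ≤ M := by
  obtain ⟨m, rfl⟩ : ∃ m, n = m + 1 := ⟨n - 1, by omega⟩
  obtain ⟨c, hc⟩ := lawN_eq m b
  have hpos : (0 : ℝ) < (Fintype.card (Fin (m + 1) × (Fin m → Ξ)) : ℝ) := by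
    exact_mod_cast Fintype.card_pos
  have h1 : ∑ g, lawN (m + 1) b g * φ g = (∑ ρ, ∑ g, lawU b (g - c ρ) * φ g) /
      (Fintype.card (Fin (m + 1) × (Fin m → Ξ)) : ℝ) := by
    rw [sum_comm, sum_div]
    refine sum_congr rfl (fun g _ => ?_)
    rw [hc, ← sum_mul]
    ring
  rw [h1, div_le_iff₀ hpos]
  calc ∑ ρ, ∑ g, lawU b (g - c ρ) * φ g
      = ∑ ρ : Fin (m + 1) × (Fin m → Ξ), ∑ g, lawU b g * φ (g + c ρ) := by
        refine sum_congr rfl (fun ρ _ => ?_)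
        refine Eq.trans (Equiv.sum_comp (Equiv.addRight (c ρ))
          (fun g => lawU b (g - c ρ) * φ g)).symm ?_
        refine sum_congr rfl (fun g _ => ?_)
        simp
    _ ≤ ∑ ρ : Fin (m + 1) × (Fin m → Ξ), M := sum_le_sum (fun ρ _ => h _)
    _ = M * (Fintype.card (Fin (m + 1) × (Fin m → Ξ)) : ℝ) := by
        rw [sum_const, card_univ, nsmul_eq_mul, mul_comm]

theorem nearInv_box2 (κ s H H' V n : ℕ) [NeZero V] (hH : 1 ≤ H) (hH' : 1 ≤ H') (hn : 1 ≤ n) (τ : ℝ)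
    (hτ : 2 * (s : ℝ) * ((H' * κ.factorial : ℕ) : ℝ) / H ≤ τ) :
    NearInv κ (lawN n (bx s H V)) (lawU (bx s H' V)) τ := by
  intro y hy c hc
  obtain ⟨ξ, hξ⟩ := lawU_support _ _ hy
  have : Nonempty (Fin s → Fin H) := ⟨fun _ => ⟨0, hH⟩⟩
  apply lawN_shift n hn
  have h1 : c • y = fun i => (((c * (((ξ i : ℕ) + 1 : ℕ) : ℤ)) : ℤ) : ZMod V) := by
    rw [← hξ]
    funext i
    simp [bx]
    ring
  rw [h1]
  refine (box_shift s H V hH (H' * κ.factorial) (fun i => c * (((ξ i : ℕ) + 1 : ℕ) : ℤ)) ?_).trans hτ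
  intro i
  rw [abs_mul]
  have h2 : |((((ξ i : ℕ) + 1 : ℕ) : ℤ))| ≤ (H' : ℤ) := by
    have h3 := (ξ i).2
    rw [abs_of_nonneg (by positivity)]
    omega
  have h3 : (0 : ℤ) ≤ |c| := abs_nonneg _
  have h4 : |c| * |((((ξ i : ℕ) + 1 : ℕ) : ℤ))| ≤ (κ.factorial : ℤ) * (H' : ℤ) := by
    apply mul_le_mul _ h2 (abs_nonneg _) (by positivity)
    exact_mod_cast hc
  push_cast
  push_cast at h4
  linarith

end Pool.Agent.H16.GP2
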