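import Pool.Agent.H16.GP2.Defs
import Pool.Agent.H16.GPS.Num.Mean
import Pool.Agent.H10.RP.Quad

/-!
JOB GP2-MEAN (MP_c183ae_nt). Mean value of the primes along `W m A ± 1`, `W` constant.

PROOF. Copy the proof of `mean_prime` in `H16/GPS/Num/Mean.lean` (imported: `class_lower`, `class_sum_le`, `totient_mul_of_dvd`
can be used). Changes: `W = Wp w` is constant, `W' = W * m`. Instead of `small_unif .. 1` use
`Pool.Agent.H10.RP.smallS .. Y0` (H10/RP/Quad.lean) with `Y0 = 8 * Wp w`: the exceptional modulus `q₁` satisfies `Y0 < q₁` and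
`q₁ ∣ 8 * ∏ p ∈ q₁.primeFactors, p`. If `q₁ ∣ W'`, all prime factors of `q₁` are `≤ w`, so
`∏ p ∈ q₁.primeFactors, p ∣ Wp w` and `q₁ ≤ 8 * Wp w = Y0`, a contradiction; so `¬ q₁ ∣ W'`. Sizes:
`log W' ≤ log W + sqrt ℓ ≤ ℓ / (4 (log ℓ)²) ≤ ℓ' / (2 (log ℓ')²)` for large `ℓ`; `w < RR η ℓ`. The constant `c` is that of
`class_lower` (independent of `w`). ~150 lines, mostly copied.
-/

set_option autoImplicit false

open Finset Filter

namespace Pool.Agent.H16.GP2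

open Pool.Agent.H16 Pool.Agent.H16.GPS

private lemma Wp_pos (w : ℕ) : 0 < Wp w := by
  unfold Wp
  apply Finset.prod_pos
  intro p hp
  exact (mem_primesIoc.mp hp).2.2.pos

private lemma prime_dvd_Wp {w p : ℕ} (hp : p.Prime) : p ∣ Wp w ↔ p ≤ w := by
  unfold Wp
  constructor
  · intro h
    obtain ⟨q, hq, hpq⟩ := (Prime.dvd_finsetProd_iff hp.prime _).mp h
    have hq2 := mem_primesIoc.mp hq
    have : p = q := (Nat.prime_dvd_prime_iff_eq hp hq2.2.2).mp hpq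
    subst this
    exact hq2.2.1
  · intro h
    exact Finset.dvd_prod_of_mem _ (mem_primesIoc.mpr ⟨hp.one_lt, h, hp⟩)

/-- an essentially squarefree number whose prime factors are at most `w` divides `8 * Wp w` -/
private lemma le_of_primeFactors {w q : ℕ} (hq : q ∣ 8 * ∏ p ∈ q.primeFactors, p)
    (h : ∀ p, p.Prime → p ∣ q → p ≤ w) : q ≤ 8 * Wp w := by
  have h1 : ∏ p ∈ q.primeFactors, p ∣ Wp w := by
    unfold Wp
    apply Finset.prod_dvd_prod_of_subset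
    intro p hp
    have hp1 := Nat.prime_of_mem_primeFactors hp
    exact mem_primesIoc.mpr ⟨hp1.one_lt, h p hp1 (Nat.dvd_of_mem_primeFactors hp), hp1⟩
  exact Nat.le_of_dvd (by have := Wp_pos w; omega) (hq.trans (Nat.mul_dvd_mul_left 8 h1))

/-- the size conditions at `ℓ'` -/
private lemma ev_sizeQ (η : ℝ) (hη0 : 0 < η) (w : ℕ) : ∀ᶠ ℓ : ℝ in atTop,
    1 ≤ Real.log ℓ ∧ 1 ≤ ℓ ∧
    Real.log (Wp w) + Real.sqrt ℓ ≤ ℓ / (4 * (Real.log ℓ) ^ 2) ∧
    (w : ℝ) ≤ Real.exp (η * ℓ) ∧ 3 ≤ Real.exp (η * ℓ) := by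
  have h1 : ∀ᶠ ℓ : ℝ in atTop, (Real.log ℓ) ^ 4 ≤ 1 / 64 * ℓ := by
    have := (Real.isLittleO_pow_log_id_atTop (n := 4)).bound (by norm_num : (0 : ℝ) < 1 / 64)
    filter_upwards [this, eventually_ge_atTop (1 : ℝ)] with ℓ h hℓ
    simp only [id, Real.norm_eq_abs] at h
    rw [abs_of_nonneg (by linarith : (0:ℝ) ≤ ℓ)] at h
    exact (le_abs_self _).trans h
  filter_upwards [h1, eventually_ge_atTop (Real.exp 1), eventually_ge_atTop (3 / η),
    eventually_ge_atTop ((w : ℝ) / η), eventually_ge_atTop ((Real.log (Wp w)) ^ 2)] with ℓ h1 h3 h4 h5 h6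
  have e1 : (1 : ℝ) ≤ Real.exp 1 := Real.one_le_exp (by norm_num)
  have hℓ0 : 0 < ℓ := by linarith
  have hL : 1 ≤ Real.log ℓ := by
    rw [Real.le_log_iff_exp_le hℓ0]; exact h3
  have hηℓ : 3 ≤ η * ℓ := by
    rw [div_le_iff₀ hη0] at h4
    linarith [mul_comm η ℓ]
  have hwℓ : (w : ℝ) ≤ η * ℓ := by
    rw [div_le_iff₀ hη0] at h5
    linarith [mul_comm η ℓ]
  have hexp := Real.add_one_le_exp (η * ℓ)
  refine ⟨hL, by linarith, ?_, by linarith, by linarith⟩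
  have hlogW : Real.log (Wp w) ≤ Real.sqrt ℓ := Real.le_sqrt_of_sq_le h6
  have hs : Real.sqrt ℓ * Real.sqrt ℓ = ℓ := Real.mul_self_sqrt hℓ0.le
  have hs0 : 0 ≤ Real.sqrt ℓ := Real.sqrt_nonneg ℓ
  have h7 : 8 * (Real.log ℓ) ^ 2 ≤ Real.sqrt ℓ := by
    apply Real.le_sqrt_of_sq_le
    have : (8 * (Real.log ℓ) ^ 2) ^ 2 = 64 * (Real.log ℓ) ^ 4 := by ring
    rw [this]
    linarith
  rw [le_div_iff₀ (by positivity)]
  have h8 : (0 : ℝ) ≤ 4 * (Real.log ℓ) ^ 2 := by positivity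
  calc (Real.log (Wp w) + Real.sqrt ℓ) * (4 * (Real.log ℓ) ^ 2)
      ≤ (2 * Real.sqrt ℓ) * (4 * (Real.log ℓ) ^ 2) := by
        apply mul_le_mul_of_nonneg_right _ h8
        linarith
    _ = Real.sqrt ℓ * (8 * (Real.log ℓ) ^ 2) := by ring
    _ ≤ Real.sqrt ℓ * Real.sqrt ℓ := mul_le_mul_of_nonneg_left h7 hs0
    _ = ℓ := hs

theorem mean_primeQ (η : ℝ) (hη0 : 0 < η) (hη1 : η ≤ 1 / 4) : ∃ c : ℝ, 0 < c ∧
    ∀ w : ℕ, 2 ≤ w → ∀ᶠ ℓ : ℝ in atTop, ∀ (Y m : ℕ), Real.exp (ℓ / 2) ≤ Y → 0 < m →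
      ((Wp w * m * Y : ℕ) : ℝ) ≤ Real.exp ℓ → (m : ℝ) ≤ Real.exp (Real.sqrt ℓ) →
      (∀ p, p.Prime → p ∣ m → p ≤ w) → ∀ σ : Bool,
      c * (Y : ℝ) ≤ ∑ A ∈ Icc 1 Y, ((Wp w).totient : ℝ) / (Wp w : ℝ) *
        aw (Real.log ((Wp w * m * Y : ℕ) : ℝ)) (Pool.Agent.H16.GPS.RR η ℓ) (sh σ (Wp w * m * A)) := by
  classical
  obtain ⟨c, hc, L0, hL0⟩ := class_lower
  refine ⟨c, hc, fun w _ => ?_⟩
  obtain ⟨L1, hL1⟩ := Pool.Agent.H10.RP.smallS ((2 * 1 + 4 + ((1 : ℕ) : ℝ) ^ 2) + 1 + 4)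
    ((2 * 1 + 4 + ((1 : ℕ) : ℝ) ^ 2) + 1 + 3 + 12) (by positivity) (by positivity) (8 * Wp w)
  filter_upwards [ev_sizeQ η hη0 w, eventually_ge_atTop (2 * L0), eventually_ge_atTop (2 * L1)] with
    ℓ ⟨hlog, hℓ1, hsz, hww, hRR⟩ hℓ0 hℓL1
  intro Y m hY hm hsize hmle hmp σ
  set W := Wp w with hWdef
  have hWpos : 0 < W := Wp_pos w
  set W' := W * m with hW'
  have hW'pos : 0 < W' := Nat.mul_pos hWpos hm
  have hY0 : (0 : ℝ) < Y := (Real.exp_pos _).trans_le hY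
  have hY0' : 0 < Y := by exact_mod_cast hY0
  have hWYpos : (0 : ℝ) < ((W' * Y : ℕ) : ℝ) := by exact_mod_cast Nat.mul_pos hW'pos hY0'
  set ℓ' := Real.log ((W' * Y : ℕ) : ℝ) with hℓ'
  have hexp : Real.exp ℓ' = ((W' * Y : ℕ) : ℝ) := Real.exp_log hWYpos
  have hℓ'le : ℓ' ≤ ℓ := by
    rw [hℓ', Real.log_le_iff_le_exp hWYpos]; exact hsize
  have hℓ'ge : ℓ / 2 ≤ ℓ' := by
    rw [hℓ', Real.le_log_iff_exp_le hWYpos]
    refine hY.trans ?_
    have : Y ≤ W' * Y := Nat.le_mul_of_pos_left Y hW'pos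
    exact_mod_cast this
  obtain ⟨q₁, hq1, hqS, hSP⟩ := hL1 ℓ' (by linarith)
  -- the primes dividing `W'`
  have hpW : ∀ p, p.Prime → p ∣ W' → p ≤ w := by
    intro p hp hpd
    rcases (Nat.Prime.dvd_mul hp).mp hpd with h | h
    · exact (prime_dvd_Wp hp).mp h
    · exact hmp p hp h
  have hwR : w ≤ GPS.RR η ℓ := by
    unfold GPS.RR
    exact Nat.le_floor hww
  have hR3 : 3 ≤ GPS.RR η ℓ := by
    unfold GPS.RR
    apply Nat.le_floor
    push_cast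
    linarith
  have hRle : ((GPS.RR η ℓ : ℕ) : ℝ) ≤ Real.exp (ℓ' / 2) := by
    have h1 : ((GPS.RR η ℓ : ℕ) : ℝ) ≤ Real.exp (η * ℓ) := Nat.floor_le (Real.exp_pos _).le
    refine h1.trans (Real.exp_le_exp.mpr ?_)
    nlinarith
  have hlogW : Real.log W' ≤ ℓ' / (2 * (Real.log ℓ') ^ 2) := by
    have h1 : Real.log W' ≤ Real.log W + Real.sqrt ℓ := by
      rw [hW']
      push_cast
      have hW0 : (0 : ℝ) < W := by exact_mod_cast hWpos
      have hm0 : (0 : ℝ) < m := by exact_mod_cast hm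
      rw [Real.log_mul hW0.ne' hm0.ne']
      have h2 : Real.log m ≤ Real.sqrt ℓ := by
        rw [Real.log_le_iff_le_exp hm0]; exact hmle
      linarith
    refine h1.trans (hsz.trans ?_)
    have hℓ'pos : 1 < ℓ' := by
      have h9 : Real.exp 1 ≤ ℓ := by
        rw [← Real.le_log_iff_exp_le (by linarith)]; exact hlog
      have := Real.exp_one_gt_d9
      linarith
    have hlog' : 0 < Real.log ℓ' := Real.log_pos hℓ'pos
    have hlogle : Real.log ℓ' ≤ Real.log ℓ := Real.log_le_log (by linarith) hℓ'le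
    calc ℓ / (4 * (Real.log ℓ) ^ 2) ≤ ℓ / (4 * (Real.log ℓ') ^ 2) := by
          apply div_le_div_of_nonneg_left (by linarith) (by positivity)
          have := pow_le_pow_left₀ hlog'.le hlogle 2
          linarith
      _ = (ℓ / 2) / (2 * (Real.log ℓ') ^ 2) := by
          rw [div_div]; congr 1; ring
      _ ≤ _ := by
          apply div_le_div_of_nonneg_right hℓ'ge (by positivity)
  have hqW : ¬ q₁ ∣ W' := by
    intro h
    have := le_of_primeFactors (w := w) hqS (fun p hp hpq => hpW p hp (hpq.trans h))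
    omega
  have hA0cop : Nat.Coprime (if σ then 1 else W' - 1) W' := by
    cases σ
    · simp only [Bool.false_eq_true, if_false]
      rw [Nat.coprime_comm]
      have := (Nat.coprime_self_sub_right (Nat.succ_le_of_lt hW'pos)).mpr (Nat.coprime_one_right W')
      exact this
    · simp
  have h1 := hL0 ℓ' (by linarith) q₁ hSP W' hW'pos hlogW (GPS.RR η ℓ) hR3 hRle
    (fun p hp hpd => (hpW p hp hpd).trans hwR) hqW _ hA0cop
  have h2 := class_sum_le ℓ' (GPS.RR η ℓ) W' Y hW'pos hexp σ _ rfl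
  have h3 := h1.trans h2
  rw [← Finset.mul_sum]
  have hφ : (W'.totient : ℝ) = (W.totient : ℝ) * m := by
    have := totient_mul_of_dvd W m hm (fun p hp hpm => (prime_dvd_Wp hp).mpr (hmp p hp hpm))
    rw [hW', this]
    push_cast
    ring
  have hφW : (0 : ℝ) < (W.totient : ℝ) := by exact_mod_cast Nat.totient_pos.mpr hWpos
  have hW0 : (0 : ℝ) < W := by exact_mod_cast hWpos
  have hm0 : (0 : ℝ) < m := by exact_mod_cast hm
  rw [hexp, hφ] at h3
  have h4 : c * (Y : ℝ) = (W.totient : ℝ) / (W : ℝ) * (c * ((W' * Y : ℕ) : ℝ) / ((W.totient : ℝ) * m)) := by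
    rw [hW']
    push_cast
    field_simp
  rw [h4]
  exact mul_le_mul_of_nonneg_left h3 (by positivity)

end Pool.Agent.H16.GP2
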