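import Pool.Agent.H16.GP2.Defs
import Pool.Agent.H16.GPS.Num.NuBound

/-!
JOB GP2-NUB (MP_c183ae_nt). Pointwise bounds for the majorant.

PROOF. Copy `nu_nonneg` and `nu_bound` of `H16/GPS/Num/NuBound.lean` (imported: `NuB.card_le`, `NuB.omega_le`, `NuB.VP_pos`,
`NuB.GG_nonneg`), with `PP K η ℓ e` replaced by `PQ K η ℓ w = primesIoc w (zz K η ℓ)`. `B` and the threshold do not depend on
`w`. ~150 lines, copied.
-/

set_option autoImplicit false

open Finset Filter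

namespace Pool.Agent.H16.GP2

open Pool.Agent.H16 Pool.Agent.H16.GPS

theorem NuBQ.PQ_prime (K : ℕ) (η ℓ : ℝ) (w p : ℕ) (hp : p ∈ PQ K η ℓ w) :
    p.Prime ∧ p ≤ zz K η ℓ := by
  unfold PQ at hp
  have h := mem_primesIoc.1 hp
  exact ⟨h.2.2, h.2.1⟩

theorem nuQ_nonneg (K : ℕ) (η ℓ : ℝ) (w n : ℕ) : 0 ≤ nuQ K η ℓ w n := by
  classical
  unfold nuQ
  refine mul_nonneg (mul_nonneg (div_nonneg (NuB.GG_nonneg _ _)
    (NuB.VP_pos _ fun p hp => (NuBQ.PQ_prime K η ℓ w p hp).1).le) ?_) (sq_nonneg _)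
  split_ifs <;> norm_num

theorem nuQ_bound (K : ℕ) (η : ℝ) (hη0 : 0 < η) (hη1 : η ≤ 1) : ∃ B : ℕ, ∀ᶠ ℓ : ℝ in atTop,
    ∀ w n : ℕ, 1 ≤ n → (n : ℝ) ≤ Real.exp (2 * ℓ) → nuQ K η ℓ w n ≤ ℓ ^ B := by
  classical
  obtain ⟨C, hC, hGG⟩ := GG_upper
  obtain ⟨c, hc, hVp⟩ := Vp_ge
  set N : ℕ := ⌈2 / η * (8 * K + 5)⌉₊ with hN
  have hND : 2 / η * (8 * K + 5) ≤ N := Nat.le_ceil _
  refine ⟨2 * N + 3, ?_⟩
  filter_upwards [eventually_ge_atTop (Real.exp 1), eventually_ge_atTop (1 / η),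
    eventually_ge_atTop (C * (1 + 1 / c))] with ℓ hl1 hl2 hl3 w n hn hnl
  have he1 : (1 : ℝ) ≤ Real.exp 1 := Real.one_le_exp (by norm_num)
  have hl0 : 1 ≤ ℓ := he1.trans hl1
  have hlpos : 0 < ℓ := by linarith
  have hlog : 1 ≤ Real.log ℓ := by
    rw [Real.le_log_iff_exp_le hlpos]
    exact hl1
  -- the depth
  have hk : 4 * (kk K ℓ : ℝ) + 5 ≤ (8 * K + 5) * Real.log ℓ := by
    unfold kk
    push_cast
    have h1 : (⌈Real.log ℓ⌉₊ : ℝ) ≤ 2 * Real.log ℓ := by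
      have := (Nat.ceil_lt_add_one (by linarith : (0 : ℝ) ≤ Real.log ℓ)).le
      linarith
    have h2 : (K : ℝ) * (⌈Real.log ℓ⌉₊ : ℝ) ≤ K * (2 * Real.log ℓ) :=
      mul_le_mul_of_nonneg_left h1 (Nat.cast_nonneg K)
    nlinarith
  have hk5 : (5 : ℝ) ≤ 4 * (kk K ℓ : ℝ) + 5 := by
    have : (0 : ℝ) ≤ kk K ℓ := Nat.cast_nonneg _
    linarith
  have hkpos : (0 : ℝ) < 4 * (kk K ℓ : ℝ) + 5 := by linarith
  set u : ℝ := η * ℓ / (4 * (kk K ℓ : ℝ) + 5) with hu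
  have hu0 : 0 ≤ u := by positivity
  have hul : u ≤ ℓ := by
    rw [hu, div_le_iff₀ hkpos]
    nlinarith [mul_le_mul_of_nonneg_right hη1 hlpos.le, mul_le_mul_of_nonneg_left hk5 hlpos.le]
  -- the number of divisors
  have hom := NuB.omega_le n hn u ℓ hnl
  set ω : ℕ := #(n.primeFactors.filter (fun p => ⌊Real.exp u⌋₊ < p)) with hω
  have hω1 : (ω : ℝ) ≤ N * Real.log ℓ := by
    have h1 : (ω : ℝ) * (η * ℓ) ≤ 2 * ℓ * (4 * (kk K ℓ : ℝ) + 5) := by
      rw [hu] at hom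
      rw [mul_div_assoc', div_le_iff₀ hkpos] at hom
      exact hom
    have h2 : (ω : ℝ) * η ≤ 2 * (4 * (kk K ℓ : ℝ) + 5) := by
      have h3 : ((ω : ℝ) * η) * ℓ ≤ (2 * (4 * (kk K ℓ : ℝ) + 5)) * ℓ := by
        calc ((ω : ℝ) * η) * ℓ = (ω : ℝ) * (η * ℓ) := by ring
          _ ≤ 2 * ℓ * (4 * (kk K ℓ : ℝ) + 5) := h1
          _ = _ := by ring
      exact le_of_mul_le_mul_right h3 hlpos
    have h3 : (ω : ℝ) ≤ 2 / η * ((8 * K + 5) * Real.log ℓ) := by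
      rw [div_mul_eq_mul_div, le_div_iff₀ hη0]
      linarith
    calc (ω : ℝ) ≤ 2 / η * ((8 * K + 5) * Real.log ℓ) := h3
      _ = (2 / η * (8 * K + 5)) * Real.log ℓ := by ring
      _ ≤ N * Real.log ℓ := mul_le_mul_of_nonneg_right hND (by linarith)
  have h2ω : (2 : ℝ) ^ ω ≤ ℓ ^ N := by
    have h1 : (2 : ℝ) ≤ Real.exp 1 := by
      have := Real.add_one_le_exp (1 : ℝ)
      linarith
    calc (2 : ℝ) ^ ω ≤ Real.exp 1 ^ ω := pow_le_pow_left₀ (by norm_num) h1 ω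
      _ = Real.exp ω := by rw [← Real.exp_nat_mul, mul_one]
      _ ≤ Real.exp (N * Real.log ℓ) := Real.exp_le_exp.2 hω1
      _ = ℓ ^ N := by rw [Real.exp_nat_mul, Real.exp_log hlpos]
  have hS : |∑ d ∈ (Dr (zz K η ℓ) (RR η ℓ)).filter (fun d => d ∣ n),
      lamS (zz K η ℓ) (RR η ℓ) d| ≤ ℓ ^ N := by
    refine (Finset.abs_sum_le_sum_abs _ _).trans ?_
    refine (Finset.sum_le_sum fun d _ => lamS_abs _ _ d).trans ?_
    rw [Finset.sum_const, nsmul_eq_mul, mul_one]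
    have h1 := NuB.card_le n (zz K η ℓ) (RR η ℓ) hn
    have h2 : (#((Dr (zz K η ℓ) (RR η ℓ)).filter (fun d => d ∣ n)) : ℝ) ≤ (2 : ℝ) ^ ω := by
      exact_mod_cast h1
    exact h2.trans h2ω
  have hS2 : (∑ d ∈ (Dr (zz K η ℓ) (RR η ℓ)).filter (fun d => d ∣ n),
      lamS (zz K η ℓ) (RR η ℓ) d) ^ 2 ≤ (ℓ ^ N) ^ 2 := by
    rw [← sq_abs]
    exact pow_le_pow_left₀ (abs_nonneg _) hS 2
  -- `GG`
  have hG : GG (zz K η ℓ) (RR η ℓ) ≤ C * ℓ := by
    have hηl : 1 ≤ η * ℓ := by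
      rw [div_le_iff₀ hη0] at hl2
      linarith
    have hR2 : 2 ≤ RR η ℓ := by
      unfold RR
      refine Nat.le_floor ?_
      have := Real.add_one_le_exp (η * ℓ)
      push_cast
      linarith
    refine (hGG _ _ hR2).trans (mul_le_mul_of_nonneg_left ?_ hC.le)
    have hR0 : (0 : ℝ) < RR η ℓ := by
      have : 0 < RR η ℓ := by omega
      exact_mod_cast this
    rw [Real.log_le_iff_le_exp hR0]
    unfold RR
    refine (Nat.floor_le (Real.exp_pos _).le).trans (Real.exp_le_exp.2 ?_)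
    nlinarith
  -- `VP`
  have hV : 1 / VP (PQ K η ℓ w) ≤ (1 + 1 / c) * ℓ := by
    have hVpos := NuB.VP_pos (PQ K η ℓ w) fun p hp => (NuBQ.PQ_prime K η ℓ w p hp).1
    by_cases hz : 2 ≤ zz K η ℓ
    · have h1 : Vp (zz K η ℓ) ≤ VP (PQ K η ℓ w) := by
        unfold Vp VP
        have hsub : PQ K η ℓ w ⊆ Nat.primesLE (zz K η ℓ) := by
          intro p hp
          have := NuBQ.PQ_prime K η ℓ w p hp
          rw [Nat.mem_primesLE]
          exact ⟨this.2, this.1⟩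
        rw [← Finset.prod_sdiff hsub]
        have hA : ∏ p ∈ Nat.primesLE (zz K η ℓ) \ PQ K η ℓ w, (1 - 1 / (p : ℝ)) ≤ 1 := by
          refine Finset.prod_le_one ?_ ?_
          · intro p hp
            have hp' := (Finset.mem_sdiff.1 hp).1
            rw [Nat.mem_primesLE] at hp'
            have h1 : (1 : ℝ) < p := by exact_mod_cast hp'.2.one_lt
            have h2 : 1 / (p : ℝ) < 1 := by
              rw [div_lt_one (by linarith)]
              exact h1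
            linarith
          · intro p _
            have h1 : (0 : ℝ) ≤ 1 / (p : ℝ) := by positivity
            linarith
        exact mul_le_of_le_one_left hVpos.le hA
      have h2 := hVp (zz K η ℓ) hz
      have hz0 : (0 : ℝ) < zz K η ℓ := by
        have : 0 < zz K η ℓ := by omega
        exact_mod_cast this
      have hlz : Real.log (zz K η ℓ) ≤ ℓ := by
        rw [Real.log_le_iff_le_exp hz0]
        unfold zz
        exact (Nat.floor_le (Real.exp_pos _).le).trans (Real.exp_le_exp.2 hul)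
      have hlz0 : 0 < Real.log (zz K η ℓ) := Real.log_pos (by
        have : (2 : ℝ) ≤ zz K η ℓ := by exact_mod_cast hz
        linarith)
      have h3 : 1 / VP (PQ K η ℓ w) ≤ Real.log (zz K η ℓ) / c := by
        rw [div_le_div_iff₀ hVpos hc, one_mul]
        rw [div_le_iff₀ hlz0] at h2
        nlinarith
      calc 1 / VP (PQ K η ℓ w) ≤ Real.log (zz K η ℓ) / c := h3
        _ ≤ ℓ / c := div_le_div_of_nonneg_right hlz hc.le
        _ ≤ (1 + 1 / c) * ℓ := by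
            have : (1 + 1 / c) * ℓ = ℓ + ℓ / c := by ring
            rw [this]
            linarith
    · have h1 : PQ K η ℓ w = ∅ := by
        rw [Finset.eq_empty_iff_forall_notMem]
        intro p hp
        have := NuBQ.PQ_prime K η ℓ w p hp
        have := this.1.two_le
        omega
      have h2 : VP (PQ K η ℓ w) = 1 := by
        rw [h1]
        unfold VP
        exact Finset.prod_empty
      rw [h2]
      have h3 : (0 : ℝ) ≤ 1 / c := by positivity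
      nlinarith
  have hV0 : 0 ≤ 1 / VP (PQ K η ℓ w) :=
    (one_div_pos.2 (NuB.VP_pos (PQ K η ℓ w) fun p hp => (NuBQ.PQ_prime K η ℓ w p hp).1)).le
  have hGV : GG (zz K η ℓ) (RR η ℓ) / VP (PQ K η ℓ w) ≤ (C * (1 + 1 / c)) * ℓ ^ 2 := by
    rw [div_eq_mul_one_div]
    calc GG (zz K η ℓ) (RR η ℓ) * (1 / VP (PQ K η ℓ w)) ≤ (C * ℓ) * ((1 + 1 / c) * ℓ) :=
          mul_le_mul hG hV hV0 (by positivity)
      _ = _ := by ring
  have hGV0 : 0 ≤ GG (zz K η ℓ) (RR η ℓ) / VP (PQ K η ℓ w) := by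
    rw [div_eq_mul_one_div]
    exact mul_nonneg (NuB.GG_nonneg _ _) hV0
  have hGV1 : GG (zz K η ℓ) (RR η ℓ) / VP (PQ K η ℓ w) ≤ ℓ ^ 3 := by
    refine hGV.trans ?_
    calc (C * (1 + 1 / c)) * ℓ ^ 2 ≤ ℓ * ℓ ^ 2 := mul_le_mul_of_nonneg_right hl3 (by positivity)
      _ = ℓ ^ 3 := by ring
  unfold nuQ
  have hi : GG (zz K η ℓ) (RR η ℓ) / VP (PQ K η ℓ w) *
      (if ∀ p ∈ PQ K η ℓ w, ¬ p ∣ n then (1 : ℝ) else 0) ≤ ℓ ^ 3 := by
    split_ifs
    · rw [mul_one]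
      exact hGV1
    · rw [mul_zero]
      positivity
  calc GG (zz K η ℓ) (RR η ℓ) / VP (PQ K η ℓ w) *
      (if ∀ p ∈ PQ K η ℓ w, ¬ p ∣ n then (1 : ℝ) else 0) *
      (∑ d ∈ (Dr (zz K η ℓ) (RR η ℓ)).filter (fun d => d ∣ n), lamS (zz K η ℓ) (RR η ℓ) d) ^ 2
      ≤ ℓ ^ 3 * (ℓ ^ N) ^ 2 := mul_le_mul hi hS2 (sq_nonneg _) (by positivity)
    _ = ℓ ^ (2 * N + 3) := by rw [← pow_mul, ← pow_add]; congr 1; ring

end Pool.Agent.H16.GP2
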