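import Pool.Agent.H16.GPS.Fin1

/-!
JOB GP2-POSPROP (MP_c183ae_nt). A positive proportion of good `A`.

PROOF. Let `G` be the set on the right and `f' (A, x) = 0` if `A ∈ G`, `f (A, x)` otherwise. If `δ/2 ≤ ∑ p, unif p * f' p`, then
`hrel` gives `c ≤ Lam κ lam f'`, and `exists_good` (H16/GPS/Fin1.lean) gives `x, d` with `lam (d i) ≠ 0` and
`c * card Θ ≤ ∑ A, ∏ j, f' (A, x + LL j d)`; the right side is positive, so for some `A` all the factors are `≠ 0`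
(`κ ≥ 1`), hence `A ∉ G` and all `f (A, x + LL j d) ≠ 0`, i.e. `A ∈ G`: contradiction. So `∑ unif * f' < δ/2`, hence
`δ/2 * card Θ * card Γ ≤ ∑ A ∈ G, ∑ x, f (A, x) ≤ ∑ A ∈ G, ∑ x, ν (A, x) ≤ sqrt (#G) * sqrt (∑ A, (∑ x, ν (A, x))²)`
(Cauchy-Schwarz, `sq_sum_le_card_mul_sum_sq`), so `δ²/4 (card Θ)² (card Γ)² ≤ #G * 3 * card Θ * (card Γ)²`. ~100 lines.
-/

set_option autoImplicit false

open Finset

namespace Pool.Agent.H16.GP2

open Pool.Agent.H16.GPS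

open Classical in
theorem pos_prop {Θ Γ : Type} [Fintype Θ] [Nonempty Θ] [Fintype Γ] [AddCommGroup Γ] (κ : ℕ)
    (hκ : 1 ≤ κ) (lam : Γ → ℝ) (hl : IsPW lam) (ν f : Θ × Γ → ℝ) (hf : ∀ p, 0 ≤ f p ∧ f p ≤ ν p)
    (δ c : ℝ) (hδ : 0 < δ) (hc : 0 < c)
    (h2 : ∑ A : Θ, (∑ x : Γ, ν (A, x)) ^ 2 ≤ 3 * (Fintype.card Θ : ℝ) * (Fintype.card Γ : ℝ) ^ 2)
    (hm : δ ≤ ∑ p, unif (Θ × Γ) p * f p)
    (hrel : ∀ f' : Θ × Γ → ℝ, (∀ p, 0 ≤ f' p ∧ f' p ≤ ν p) →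
      δ / 2 ≤ ∑ p, unif (Θ × Γ) p * f' p → c ≤ Lam κ lam f') :
    δ ^ 2 / 12 * (Fintype.card Θ : ℝ) ≤ (#(univ.filter (fun A : Θ =>
      ∃ (x : Γ) (d : Fin κ → Γ), (∀ i, lam (d i) ≠ 0) ∧ ∀ j : Fin κ, f (A, x + LL j d) ≠ 0)) : ℝ) := by
  set G : Finset Θ := univ.filter (fun A : Θ =>
      ∃ (x : Γ) (d : Fin κ → Γ), (∀ i, lam (d i) ≠ 0) ∧ ∀ j : Fin κ, f (A, x + LL j d) ≠ 0) with hG
  have : Nonempty Γ := ⟨0⟩
  have hΘ : (0 : ℝ) < (Fintype.card Θ : ℝ) := by exact_mod_cast Fintype.card_pos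
  have hΓ : (0 : ℝ) < (Fintype.card Γ : ℝ) := by exact_mod_cast Fintype.card_pos
  obtain ⟨f', hf'⟩ : ∃ f' : Θ × Γ → ℝ, ∀ p, f' p = if p.1 ∈ G then 0 else f p := ⟨_, fun _ => rfl⟩
  have hf'0 : ∀ p, 0 ≤ f' p ∧ f' p ≤ ν p := by
    intro p
    rw [hf' p]
    split_ifs
    · exact ⟨le_refl _, (hf p).1.trans (hf p).2⟩
    · exact hf p
  have hlt : ∑ p, unif (Θ × Γ) p * f' p < δ / 2 := by
    by_contra hcon
    push Not at hcon
    obtain ⟨x, d, hd, hs⟩ := exists_good κ lam hl f' c (hrel f' hf'0 hcon) hc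
    have h2 : 0 < ∑ A : Θ, ∏ j : Fin κ, f' (A, x + LL j d) := lt_of_lt_of_le (by positivity) hs
    obtain ⟨A, _, hA⟩ := Finset.exists_ne_zero_of_sum_ne_zero h2.ne'
    rw [Finset.prod_ne_zero_iff] at hA
    have h3 := hA ⟨0, hκ⟩ (mem_univ _)
    have h4 : A ∉ G := by
      intro h
      apply h3
      rw [hf', if_pos h]
    apply h4
    rw [hG, mem_filter]
    refine ⟨mem_univ _, x, d, hd, fun j => ?_⟩
    have h5 := hA j (mem_univ _)
    rw [hf', if_neg h4] at h5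
    exact h5
  have hmass : δ / 2 * ((Fintype.card Θ : ℝ) * (Fintype.card Γ : ℝ)) ≤
      ∑ A ∈ G, ∑ x : Γ, ν (A, x) := by
    have h1 : ∑ p, unif (Θ × Γ) p * f p - ∑ p, unif (Θ × Γ) p * f' p =
        (∑ A ∈ G, ∑ x : Γ, f (A, x)) / ((Fintype.card Θ : ℝ) * (Fintype.card Γ : ℝ)) := by
      rw [← Finset.sum_sub_distrib, Fintype.sum_prod_type, Finset.sum_div,
        ← Finset.sum_subset (Finset.subset_univ G)]
      · apply Finset.sum_congr rfl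
        intro A hA
        rw [Finset.sum_div]
        apply Finset.sum_congr rfl
        intro x _
        rw [hf', if_pos hA, mul_zero, sub_zero]
        unfold unif
        rw [Fintype.card_prod]
        push_cast
        ring
      · intro A _ hA
        apply Finset.sum_eq_zero
        intro x _
        rw [hf', if_neg hA, sub_self]
    have h2 : δ / 2 ≤ (∑ A ∈ G, ∑ x : Γ, f (A, x)) /
        ((Fintype.card Θ : ℝ) * (Fintype.card Γ : ℝ)) := by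
      rw [← h1]
      linarith
    rw [le_div_iff₀ (by positivity)] at h2
    exact h2.trans (Finset.sum_le_sum fun A _ => Finset.sum_le_sum fun x _ => (hf (A, x)).2)
  have hcs : (∑ A ∈ G, ∑ x : Γ, ν (A, x)) ^ 2 ≤
      (#G : ℝ) * (3 * (Fintype.card Θ : ℝ) * (Fintype.card Γ : ℝ) ^ 2) := by
    refine sq_sum_le_card_mul_sum_sq.trans ?_
    apply mul_le_mul_of_nonneg_left _ (Nat.cast_nonneg _)
    refine le_trans ?_ h2
    exact Finset.sum_le_sum_of_subset_of_nonneg (Finset.subset_univ G)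
      (fun A _ _ => sq_nonneg _)
  have hsq : (δ / 2 * ((Fintype.card Θ : ℝ) * (Fintype.card Γ : ℝ))) ^ 2 ≤
      (#G : ℝ) * (3 * (Fintype.card Θ : ℝ) * (Fintype.card Γ : ℝ) ^ 2) :=
    (pow_le_pow_left₀ (by positivity) hmass 2).trans hcs
  have h9 : 0 < 3 * (Fintype.card Θ : ℝ) * (Fintype.card Γ : ℝ) ^ 2 := by positivity
  refine le_of_mul_le_mul_right ?_ h9
  calc δ ^ 2 / 12 * (Fintype.card Θ : ℝ) * (3 * (Fintype.card Θ : ℝ) * (Fintype.card Γ : ℝ) ^ 2)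
      = (δ / 2 * ((Fintype.card Θ : ℝ) * (Fintype.card Γ : ℝ))) ^ 2 := by ring
    _ ≤ _ := hsq

end Pool.Agent.H16.GP2
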