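import Pool.Agent.H16.GP2.Defs

/-!
JOB GP2-ROMEXP (MP_c183ae_nt). Expansion of `psi` over squarefree moduli.

PROOF. For a prime `p`: `((1 - 1/p)⁻¹)^C ≤ (1 + 2/p)^C ≤ 1 + (2^C - 1) (2/p) ≤ 1 + b p`, `b p = 2^(C+1)/p`
(`(1 + x)^C ≤ 1 + (2^C - 1) x` for `0 ≤ x ≤ 1` by induction). Then
`1 + psi ≤ ∏ p ∈ Q.filter cond, (1 + b p) = ∏ p ∈ Q, (1 + if cond p then b p else 0) = ∑ S ∈ Q.powerset, ∏ p ∈ S, (if cond p then b p else 0)`
(`Finset.prod_one_add` or `Finset.prod_add_one`), and the term of `S` is `(∏ b p) * (if ∀ p ∈ S, cond p then 1 else 0)`; the term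
`S = ∅` is `1`. ~60 lines.
-/

set_option autoImplicit false

open Finset

namespace Pool.Agent.H16.GP2

open Pool.Agent.H16 Pool.Agent.H16.GPS

lemma romExp_pow (C : ℕ) (x : ℝ) (h0 : 0 ≤ x) (h1 : x ≤ 1) :
    (1 + x) ^ C ≤ 1 + (2 ^ C - 1) * x := by
  induction C with
  | zero => simp
  | succ n ih =>
    have h2 : (1 : ℝ) ≤ 2 ^ n := one_le_pow₀ (by norm_num)
    calc (1 + x) ^ (n + 1) = (1 + x) ^ n * (1 + x) := pow_succ _ _
      _ ≤ (1 + (2 ^ n - 1) * x) * (1 + x) := mul_le_mul_of_nonneg_right ih (by linarith)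
      _ ≤ 1 + (2 ^ (n + 1) - 1) * x := by
        rw [pow_succ]
        nlinarith [mul_nonneg (sub_nonneg.mpr h2) (mul_nonneg h0 (sub_nonneg.mpr h1))]

lemma romExp_prime (C : ℕ) {p : ℕ} (hp : p.Prime) :
    ((1 - 1 / (p : ℝ))⁻¹) ^ C ≤ 1 + ((2 ^ (C + 1) : ℕ) : ℝ) / p := by
  have h2 : (2 : ℝ) ≤ p := by exact_mod_cast hp.two_le
  have hp0 : (0 : ℝ) < p := by linarith
  have h3 : (1 - 1 / (p : ℝ))⁻¹ ≤ 1 + 2 / p := by
    have h4 : (0 : ℝ) < 1 - 1 / p := by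
      rw [sub_pos, div_lt_one hp0]
      linarith
    rw [inv_le_iff_one_le_mul₀ h4]
    have h5 : (1 + 2 / (p : ℝ)) * (1 - 1 / p) = 1 + (p - 2) / p ^ 2 := by
      field_simp
      ring
    rw [h5]
    have h6 : 0 ≤ ((p : ℝ) - 2) / p ^ 2 := div_nonneg (by linarith) (by positivity)
    linarith
  have h7 : (0 : ℝ) ≤ (1 - 1 / (p : ℝ))⁻¹ := le_trans zero_le_one (one_le_inv_prime hp)
  have h8 : 2 / (p : ℝ) ≤ 1 := by
    rw [div_le_one hp0]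
    exact h2
  have h9 : 0 ≤ 2 / (p : ℝ) := by positivity
  calc ((1 - 1 / (p : ℝ))⁻¹) ^ C ≤ (1 + 2 / p) ^ C := pow_le_pow_left₀ h7 h3 C
    _ ≤ 1 + (2 ^ C - 1) * (2 / p) := romExp_pow C _ h9 h8
    _ ≤ 1 + 2 ^ C * (2 / p) := by nlinarith
    _ = 1 + ((2 ^ (C + 1) : ℕ) : ℝ) / p := by
      push_cast
      rw [pow_succ]
      ring

theorem psi_expand (C w : ℕ) (ℓ : ℝ) (y m : ℕ) :
    psi C w ℓ y m ≤ ∑ S ∈ (primesIoc w ⌊ℓ⌋₊).powerset.erase ∅,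
      (∏ p ∈ S, ((2 ^ (C + 1) : ℕ) : ℝ) / p) * (if ∀ p ∈ S, y % p = m % p then (1 : ℝ) else 0) := by
  have h1 : ∏ p ∈ (primesIoc w ⌊ℓ⌋₊).filter (fun p => y % p = m % p),
      ((1 - 1 / (p : ℝ))⁻¹) ^ C ≤
      ∏ p ∈ (primesIoc w ⌊ℓ⌋₊).filter (fun p => y % p = m % p),
        (1 + ((2 ^ (C + 1) : ℕ) : ℝ) / p) := by
    apply Finset.prod_le_prod
    · intro p hp
      have h := one_le_inv_prime (mem_primesIoc.mp (Finset.mem_filter.mp hp).1).2.2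
      positivity
    · intro p hp
      exact romExp_prime C (mem_primesIoc.mp (Finset.mem_filter.mp hp).1).2.2
  have h2 : ∏ p ∈ (primesIoc w ⌊ℓ⌋₊).filter (fun p => y % p = m % p),
        (1 + ((2 ^ (C + 1) : ℕ) : ℝ) / p) =
      ∏ p ∈ primesIoc w ⌊ℓ⌋₊,
        (1 + if y % p = m % p then ((2 ^ (C + 1) : ℕ) : ℝ) / p else 0) := by
    rw [Finset.prod_filter]
    apply Finset.prod_congr rfl
    intro p _
    split_ifs <;> simp
  have h3 : ∀ S : Finset ℕ,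
      ∏ p ∈ S, (if y % p = m % p then ((2 ^ (C + 1) : ℕ) : ℝ) / p else 0) =
      (∏ p ∈ S, ((2 ^ (C + 1) : ℕ) : ℝ) / p) *
        (if ∀ p ∈ S, y % p = m % p then (1 : ℝ) else 0) := by
    intro S
    split_ifs with h
    · rw [mul_one]
      exact Finset.prod_congr rfl fun p hp => if_pos (h p hp)
    · rw [mul_zero]
      push Not at h
      obtain ⟨p, hp, hne⟩ := h
      exact Finset.prod_eq_zero hp (if_neg hne)
  unfold psi
  rw [sub_le_iff_le_add]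
  refine h1.trans ?_
  rw [h2, Finset.prod_one_add,
    ← Finset.sum_erase_add _ _ (Finset.empty_mem_powerset (primesIoc w ⌊ℓ⌋₊)),
    Finset.prod_empty]
  gcongr with S hS
  exact (h3 S).le

end Pool.Agent.H16.GP2
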