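import Pool.Agent.H16.GP2.RomCount
import Pool.Agent.H16.GPS.Rel.Laws
import Pool.Agent.H16.GPS.Num.Box
import Pool.Agent.H16.GPS.Num.Mult

/-!
JOB GP2-ROMORD (MP_c183ae_nt). Probability that `y ≡ m(a + c g)` modulo all the primes of `S`.

PROOF. By `sum_lawU` the left side is `#{ξ : Fin (s+1) → Fin H | ∀ p ∈ S, ..} / H^(s+1)`. Split `ξ = Fin.cons ξ₀ ξ'`
(`Fin.consEquiv` / `Fin.prod_univ_succ`): `mx gen (a + c • bx ξ) = gen 0 ^ (a 0 + c • (ξ₀+1)).val * M` with `M` depending only on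
`ξ'`, `M` coprime to `d = ∏ p ∈ S, p` (`gen i` primes `∉ S`). For fixed `ξ'`: if `ξ₀`, `ξ₀*` both satisfy the condition, then
`gen 0 ^ v * M ≡ gen 0 ^ v* * M` modulo every `p ∈ S`, hence mod `d` (distinct primes), hence `(gen 0)^v = (gen 0)^v*` in
`ZMod d` (unit), hence `v % D = v* % D`, `D = orderOf (gen 0 : ZMod d)` (pass to units: `ZMod.unitOfCoprime`, `orderOf_units`,
`pow_eq_pow_iff_modEq`). So by `wrap_count` there are at most `3 (|c| H / D + 1)` such `ξ₀`; sum over the `H^s` tuples `ξ'` and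
divide by `H^(s+1)`. ~150 lines.
-/

set_option autoImplicit false

open Finset

namespace Pool.Agent.H16.GP2

open Pool.Agent.H16.GPS

/-- congruence modulo all the primes of `S` is congruence modulo their product -/
theorem romOrd_modEq (S : Finset ℕ) (hS : ∀ p ∈ S, p.Prime) (x y : ℕ)
    (h : ∀ p ∈ S, x ≡ y [MOD p]) : x ≡ y [MOD ∏ p ∈ S, p] := by
  rw [Nat.modEq_iff_dvd]
  push_cast
  refine Finset.prod_dvd_of_coprime ?_ fun p hp => (Nat.modEq_iff_dvd).1 (h p hp)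
  intro p hp q hq hpq
  exact (Nat.isCoprime_iff_coprime).2 ((Nat.coprime_primes (hS p hp) (hS q hq)).2 hpq)

theorem romOrd_cop (S : Finset ℕ) (hS : ∀ p ∈ S, p.Prime) (q : ℕ) (hq : q.Prime)
    (h : ∀ p ∈ S, q ≠ p) : q.Coprime (∏ p ∈ S, p) :=
  Nat.Coprime.prod_right fun p hp => (Nat.coprime_primes hq (hS p hp)).2 (h p hp)

theorem romOrd_order (d q : ℕ) (hq : q.Coprime d) (v w : ℕ) (h : q ^ v ≡ q ^ w [MOD d]) :
    v % orderOf (q : ZMod d) = w % orderOf (q : ZMod d) := by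
  have h1 : (q : ZMod d) = ((ZMod.unitOfCoprime q hq : (ZMod d)ˣ) : ZMod d) := by simp
  rw [h1, orderOf_units]
  have h2 : (ZMod.unitOfCoprime q hq) ^ v = (ZMod.unitOfCoprime q hq) ^ w := by
    apply Units.ext
    rw [Units.val_pow_eq_pow_val, Units.val_pow_eq_pow_val, ← h1, ← Nat.cast_pow, ← Nat.cast_pow]
    exact (ZMod.natCast_eq_natCast_iff _ _ _).2 h
  exact pow_eq_pow_iff_modEq.1 h2

theorem romOrd_pos (d q : ℕ) [NeZero d] (hq : q.Coprime d) : 1 ≤ orderOf (q : ZMod d) := by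
  have h1 : (q : ZMod d) = ((ZMod.unitOfCoprime q hq : (ZMod d)ˣ) : ZMod d) := by simp
  rw [h1, orderOf_units]
  exact orderOf_pos _

/-- the multiplier as a product over the first and the other coordinates -/
theorem romOrd_mx (s V H : ℕ) (gen : Fin (s + 1) → ℕ) (c : ℤ) (a : Fin (s + 1) → ZMod V)
    (x : Fin H) (ξ : Fin s → Fin H) :
    mx gen (a + c • bx (s + 1) H V (Fin.cons x ξ)) =
      gen 0 ^ (a 0 + c • (((x : ℕ) + 1 : ℕ) : ZMod V)).val *
        ∏ i : Fin s, gen i.succ ^ (a i.succ + c • (((ξ i : ℕ) + 1 : ℕ) : ZMod V)).val := by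
  unfold mx
  rw [Fin.prod_univ_succ]
  rfl

theorem romOrd_count (s V H : ℕ) [NeZero V] (gen : Fin (s + 1) → ℕ)
    (hgen : ∀ i, (gen i).Prime) (S : Finset ℕ) (hS : ∀ p ∈ S, p.Prime ∧ ∀ i, gen i ≠ p)
    (c : ℤ) (hc : c ≠ 0) (hcH : |c| * H ≤ V) (y : ℕ) (a : Fin (s + 1) → ZMod V)
    (ξ : Fin s → Fin H) :
    ∑ x : Fin H, (if ∀ p ∈ S, y % p = mx gen (a + c • bx (s + 1) H V (Fin.cons x ξ)) % p
        then (1 : ℝ) else 0) ≤
      3 * ((|c| : ℤ) * (H : ℝ) / (orderOf (gen 0 : ZMod (∏ p ∈ S, p)) : ℝ) + 1) := by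
  classical
  have hd : (∏ p ∈ S, p) ≠ 0 := Finset.prod_ne_zero_iff.2 fun p hp => (hS p hp).1.ne_zero
  have : NeZero (∏ p ∈ S, p) := ⟨hd⟩
  have hq : (gen 0).Coprime (∏ p ∈ S, p) :=
    romOrd_cop S (fun p hp => (hS p hp).1) _ (hgen 0) fun p hp => (hS p hp).2 0
  have hM : (∏ i : Fin s, gen i.succ ^ (a i.succ + c • (((ξ i : ℕ) + 1 : ℕ) : ZMod V)).val).Coprime
      (∏ p ∈ S, p) :=
    Nat.Coprime.prod_left fun i _ => Nat.Coprime.pow_left _
      (romOrd_cop S (fun p hp => (hS p hp).1) _ (hgen _) fun p hp => (hS p hp).2 _)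
  have hD := romOrd_pos (∏ p ∈ S, p) (gen 0) hq
  rw [sum_boole]
  by_cases hne : ∃ x : Fin H, ∀ p ∈ S,
      y % p = mx gen (a + c • bx (s + 1) H V (Fin.cons x ξ)) % p
  · obtain ⟨x0, hx0⟩ := hne
    refine le_trans ?_ (wrap_count V H (orderOf (gen 0 : ZMod (∏ p ∈ S, p))) hD c hc hcH (a 0)
      ((a 0 + c • (((x0 : ℕ) + 1 : ℕ) : ZMod V)).val % orderOf (gen 0 : ZMod (∏ p ∈ S, p))))
    norm_cast
    refine Finset.card_le_card fun x hx => ?_
    rw [Finset.mem_filter] at hx ⊢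
    refine ⟨Finset.mem_univ _, ?_⟩
    apply romOrd_order _ _ hq
    apply Nat.ModEq.cancel_right_of_coprime hM.symm
    apply romOrd_modEq S fun p hp => (hS p hp).1
    intro p hp
    have h1 := hx.2 p hp
    have h2 := hx0 p hp
    rw [romOrd_mx] at h1 h2
    exact h1.symm.trans h2
  · have h0 : univ.filter (fun x : Fin H => ∀ p ∈ S,
        y % p = mx gen (a + c • bx (s + 1) H V (Fin.cons x ξ)) % p) = ∅ := by
      rw [Finset.filter_eq_empty_iff]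
      intro x _ hx
      exact hne ⟨x, hx⟩
    rw [h0, Finset.card_empty, Nat.cast_zero]
    have h1 : (0 : ℝ) ≤ ((|c| : ℤ) : ℝ) := by exact_mod_cast abs_nonneg c
    positivity

theorem box_ord (s V H : ℕ) [NeZero V] (hH : 1 ≤ H) (gen : Fin (s + 1) → ℕ)
    (hgen : ∀ i, (gen i).Prime) (S : Finset ℕ) (hS : ∀ p ∈ S, p.Prime ∧ ∀ i, gen i ≠ p)
    (c : ℤ) (hc : c ≠ 0) (hcH : |c| * H ≤ V) (y : ℕ) (a : Fin (s + 1) → ZMod V) :
    ∑ g, lawU (bx (s + 1) H V) g *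
        (if ∀ p ∈ S, y % p = mx gen (a + c • g) % p then (1 : ℝ) else 0) ≤
      3 * ((|c| : ℤ) / (orderOf (gen 0 : ZMod (∏ p ∈ S, p)) : ℝ) + 1 / (H : ℝ)) := by
  classical
  have hH0 : (0 : ℝ) < H := by exact_mod_cast hH
  rw [sum_lawU]
  have hcard : (Fintype.card (Fin (s + 1) → Fin H) : ℝ) = (H : ℝ) ^ s * H := by
    simp [pow_succ]
  rw [hcard, div_le_iff₀ (by positivity)]
  rw [← (Fin.consEquiv fun _ : Fin (s + 1) => Fin H).sum_comp, Fintype.sum_prod_type, sum_comm]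
  refine (sum_le_sum fun ξ _ => romOrd_count s V H gen hgen S hS c hc hcH y a ξ).trans ?_
  rw [sum_const, card_univ, nsmul_eq_mul]
  have hcard2 : (Fintype.card (Fin s → Fin H) : ℝ) = (H : ℝ) ^ s := by simp
  apply le_of_eq
  rw [show ((Fintype.card ((i : Fin s) → Fin H) : ℕ) : ℝ) = (H : ℝ) ^ s from hcard2]
  field_simp

end Pool.Agent.H16.GP2
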