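import Pool.Agent.H16.GP2.RomTail
import Pool.Agent.H16.GP2.RomOrd
import Pool.Agent.H16.GP2.RomExp

/-!
JOB GP2-ROMAVG (MP_c183ae_nt). The average of `psi` over a box is small.

PROOF. `C₂ = 2^(C+1)`, `w₀` from `rom_tail g₀ _ C₂ (ε/(6 κ' + 6))`, `w₀ ≥ g₀`. Let `Q = primesIoc w ⌊ℓ⌋₊`. By `psi_expand` and `box_ord`
(all `gen i ≤ w < p` for `p ∈ Q`; `|c| H ≤ κ' H ≤ V`; exchange the sums over `g` and `S`):
`∑ g, lawU g * psi ≤ ∑_{S ≠ ∅} f(S) * 3 (κ'/D_S + 1/H) ≤ 3 κ' ∑_{S ≠ ∅} f(S)/D_S + (3/H) ∏ p ∈ Q, (1 + C₂/p)`, `f(S) = ∏ C₂/p`. The first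
term is `≤ ε/2`. Second: `1 + C₂/p ≤ ((1-1/p)⁻¹)^C₂` (Bernoulli) and `∏ p ∈ Q, (1-1/p)⁻¹ ≤ 8 e^11 log (⌊ℓ⌋₊)`
(`Pool.Agent.H22.prod_few_primes` with `N = ⌊ℓ⌋₊`), so it is `≤ 3 (8 e^11 log ℓ)^C₂ / ℓ^β → 0` (`isLittleO_log_rpow_atTop` /
`isLittleO_pow_log_...`). ~130 lines.
-/

set_option autoImplicit false

open Finset Filter

namespace Pool.Agent.H16.GP2

open Pool.Agent.H16 Pool.Agent.H16.GPS

lemma romAvg_prod (C₂ w N : ℕ) (hN : 2 ≤ N) :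
    ∏ p ∈ primesIoc w N, (1 + (C₂ : ℝ) / p) ≤ (8 * Real.exp 11 * Real.log N) ^ C₂ := by
  have h1 : ∀ p ∈ primesIoc w N, 1 + (C₂ : ℝ) / p ≤ ((1 - 1 / (p : ℝ))⁻¹) ^ C₂ := by
    intro p hp
    have hpp := (mem_primesIoc.mp hp).2.2
    have h1 : (1 : ℝ) < p := by exact_mod_cast hpp.one_lt
    have h2 : 0 < 1 - 1 / (p : ℝ) := by
      rw [sub_pos, div_lt_one (by linarith)]; exact h1
    have h3 : 1 + 1 / (p : ℝ) ≤ (1 - 1 / (p : ℝ))⁻¹ := by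
      rw [le_inv_comm₀ (by positivity) h2, inv_eq_one_div, le_div_iff₀ (by positivity)]
      have h4 : (1 - 1 / (p : ℝ)) * (1 + 1 / (p : ℝ)) = 1 - (1 / (p : ℝ)) ^ 2 := by ring
      rw [h4]
      nlinarith [sq_nonneg (1 / (p : ℝ))]
    calc 1 + (C₂ : ℝ) / p = 1 + (C₂ : ℝ) * (1 / p) := by ring
      _ ≤ (1 + 1 / (p : ℝ)) ^ C₂ := by
        apply one_add_mul_le_pow
        have : (0 : ℝ) ≤ 1 / p := by positivity
        linarith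
      _ ≤ _ := pow_le_pow_left₀ (by positivity) h3 _
  have h2 : ∏ p ∈ primesIoc w N, (1 + (C₂ : ℝ) / p) ≤
      ∏ p ∈ primesIoc w N, ((1 - 1 / (p : ℝ))⁻¹) ^ C₂ :=
    Finset.prod_le_prod (fun p _ => by positivity) h1
  refine h2.trans ?_
  rw [Finset.prod_pow]
  refine pow_le_pow_left₀ (Finset.prod_nonneg fun p hp =>
    le_trans zero_le_one (one_le_inv_prime (mem_primesIoc.mp hp).2.2)) ?_ _
  refine Pool.Agent.H22.prod_few_primes _ (fun p hp => (mem_primesIoc.mp hp).2.2) N hN ?_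
  calc (primesIoc w N).card ≤ (Finset.Ioc w N).card := Finset.card_filter_le _ _
    _ = N - w := Nat.card_Ioc w N
    _ ≤ N := Nat.sub_le _ _

lemma romAvg_eventually (C₂ : ℕ) (β : ℝ) (hβ : 0 < β) (ε : ℝ) (hε : 0 < ε) :
    ∀ᶠ ℓ : ℝ in atTop, 3 * (8 * Real.exp 11 * Real.log ℓ) ^ C₂ ≤ ε / 2 * ℓ ^ β := by
  have h1 := isLittleO_log_rpow_rpow_atTop (s := β) (C₂ : ℝ) hβ
  have hc : (0 : ℝ) < ε / 2 / (3 * (8 * Real.exp 11) ^ C₂) := by positivity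
  filter_upwards [h1.bound hc, eventually_ge_atTop 1] with ℓ h2 h3
  have hlog : 0 ≤ Real.log ℓ := Real.log_nonneg h3
  rw [Real.rpow_natCast, Real.norm_of_nonneg (by positivity),
    Real.norm_of_nonneg (by positivity)] at h2
  rw [mul_pow]
  have h4 : (0 : ℝ) < 3 * (8 * Real.exp 11) ^ C₂ := by positivity
  calc 3 * ((8 * Real.exp 11) ^ C₂ * Real.log ℓ ^ C₂)
      = 3 * (8 * Real.exp 11) ^ C₂ * Real.log ℓ ^ C₂ := by ring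
    _ ≤ 3 * (8 * Real.exp 11) ^ C₂ * (ε / 2 / (3 * (8 * Real.exp 11) ^ C₂) * ℓ ^ β) :=
      mul_le_mul_of_nonneg_left h2 h4.le
    _ = ε / 2 * ℓ ^ β := by field_simp

theorem rom_avg (g₀ : ℕ) (hg : g₀.Prime) (C κ' : ℕ) (β : ℝ) (hβ : 0 < β) (ε : ℝ) (hε : 0 < ε) :
    ∃ w₀ : ℕ, ∀ w : ℕ, w₀ ≤ w → ∀ᶠ ℓ : ℝ in atTop, ∀ (s H V : ℕ) [NeZero V] (gen : Fin (s + 1) → ℕ),
    gen 0 = g₀ → (∀ i, (gen i).Prime ∧ gen i ≤ w) → ℓ ^ β ≤ H → κ' * H ≤ V →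
    ∀ (y : ℕ) (a : Fin (s + 1) → ZMod V) (c : ℤ), c ≠ 0 → |c| ≤ κ' →
    ∑ g, lawU (bx (s + 1) H V) g * psi C w ℓ y (mx gen (a + c • g)) ≤ ε := by
  obtain ⟨w₀, hw₀⟩ := rom_tail g₀ hg.two_le (2 ^ (C + 1)) (ε / (6 * κ' + 6)) (by positivity)
  refine ⟨w₀, fun w hw => ?_⟩
  filter_upwards [romAvg_eventually (2 ^ (C + 1)) β hβ ε hε, eventually_ge_atTop 2] with ℓ hℓ h2
  intro s H V _ gen hgen0 hgen hH hV y a c hc hcκ
  have hℓβ : 0 < ℓ ^ β := Real.rpow_pos_of_pos (by linarith) _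
  have hH0 : (0 : ℝ) < H := lt_of_lt_of_le hℓβ hH
  have hH1 : 1 ≤ H := by exact_mod_cast Nat.one_le_iff_ne_zero.2 (by
    rintro rfl
    simp at hH0)
  have hfloor : 2 ≤ ⌊ℓ⌋₊ := Nat.le_floor (by exact_mod_cast h2)
  have hcH : |c| * H ≤ V := by
    have h3 : |c| * (H : ℤ) ≤ (κ' : ℤ) * H := mul_le_mul_of_nonneg_right hcκ (by positivity)
    refine h3.trans ?_
    exact_mod_cast hV
  set Q := primesIoc w ⌊ℓ⌋₊ with hQ
  have hcκ' : ((|c| : ℤ) : ℝ) ≤ κ' := by exact_mod_cast hcκ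
  have hf0 : ∀ S : Finset ℕ, (0 : ℝ) ≤ ∏ p ∈ S, ((2 ^ (C + 1) : ℕ) : ℝ) / p :=
    fun S => Finset.prod_nonneg fun p _ => by positivity
  -- expansion
  have step1 : ∑ g, lawU (bx (s + 1) H V) g * psi C w ℓ y (mx gen (a + c • g)) ≤
      ∑ g, lawU (bx (s + 1) H V) g * ∑ S ∈ Q.powerset.erase ∅,
        (∏ p ∈ S, ((2 ^ (C + 1) : ℕ) : ℝ) / p) *
          (if ∀ p ∈ S, y % p = mx gen (a + c • g) % p then (1 : ℝ) else 0) :=
    Finset.sum_le_sum fun g _ => mul_le_mul_of_nonneg_left (psi_expand C w ℓ y _)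
      (lawU_nonneg _ _)
  have step2 : ∑ g, lawU (bx (s + 1) H V) g * ∑ S ∈ Q.powerset.erase ∅,
        (∏ p ∈ S, ((2 ^ (C + 1) : ℕ) : ℝ) / p) *
          (if ∀ p ∈ S, y % p = mx gen (a + c • g) % p then (1 : ℝ) else 0) =
      ∑ S ∈ Q.powerset.erase ∅, (∏ p ∈ S, ((2 ^ (C + 1) : ℕ) : ℝ) / p) *
        ∑ g, lawU (bx (s + 1) H V) g *
          (if ∀ p ∈ S, y % p = mx gen (a + c • g) % p then (1 : ℝ) else 0) := by
    simp only [Finset.mul_sum]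
    rw [Finset.sum_comm]
    refine Finset.sum_congr rfl fun S _ => Finset.sum_congr rfl fun g _ => ?_
    ring
  have step3 : ∀ S ∈ Q.powerset.erase ∅,
      (∏ p ∈ S, ((2 ^ (C + 1) : ℕ) : ℝ) / p) *
        ∑ g, lawU (bx (s + 1) H V) g *
          (if ∀ p ∈ S, y % p = mx gen (a + c • g) % p then (1 : ℝ) else 0) ≤
      3 * κ' * ((∏ p ∈ S, ((2 ^ (C + 1) : ℕ) : ℝ) / p) /
        (orderOf (g₀ : ZMod (∏ p ∈ S, p)) : ℝ)) +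
        3 / H * (∏ p ∈ S, ((2 ^ (C + 1) : ℕ) : ℝ) / p) := by
    intro S hS
    have hSQ : S ⊆ Q := Finset.mem_powerset.1 (Finset.mem_of_mem_erase hS)
    have hSp : ∀ p ∈ S, p.Prime ∧ ∀ i, gen i ≠ p := by
      intro p hp
      have h4 := mem_primesIoc.mp (hSQ hp)
      refine ⟨h4.2.2, fun i h5 => ?_⟩
      have := (hgen i).2
      omega
    have h6 := box_ord s V H hH1 gen (fun i => (hgen i).1) S hSp c hc hcH y a
    rw [hgen0] at h6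
    have hD : (0 : ℝ) ≤ (orderOf (g₀ : ZMod (∏ p ∈ S, p)) : ℝ) := by positivity
    have h7 : ((|c| : ℤ) : ℝ) / (orderOf (g₀ : ZMod (∏ p ∈ S, p)) : ℝ) ≤
        κ' / (orderOf (g₀ : ZMod (∏ p ∈ S, p)) : ℝ) := div_le_div_of_nonneg_right hcκ' hD
    calc _ ≤ (∏ p ∈ S, ((2 ^ (C + 1) : ℕ) : ℝ) / p) *
          (3 * (((|c| : ℤ) : ℝ) / (orderOf (g₀ : ZMod (∏ p ∈ S, p)) : ℝ) + 1 / (H : ℝ))) :=
          mul_le_mul_of_nonneg_left h6 (hf0 S)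
      _ ≤ (∏ p ∈ S, ((2 ^ (C + 1) : ℕ) : ℝ) / p) *
          (3 * (κ' / (orderOf (g₀ : ZMod (∏ p ∈ S, p)) : ℝ) + 1 / (H : ℝ))) := by
          refine mul_le_mul_of_nonneg_left ?_ (hf0 S)
          linarith
      _ = _ := by ring
  have step4 := hw₀ w hw Q (fun p hp => by
    have h4 := mem_primesIoc.mp hp
    exact ⟨h4.2.2, h4.1⟩)
  have step5 : ∑ S ∈ Q.powerset.erase ∅, (∏ p ∈ S, ((2 ^ (C + 1) : ℕ) : ℝ) / p) ≤
      (8 * Real.exp 11 * Real.log ℓ) ^ (2 ^ (C + 1)) := by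
    calc ∑ S ∈ Q.powerset.erase ∅, (∏ p ∈ S, ((2 ^ (C + 1) : ℕ) : ℝ) / p)
        ≤ ∑ S ∈ Q.powerset, (∏ p ∈ S, ((2 ^ (C + 1) : ℕ) : ℝ) / p) :=
          Finset.sum_le_sum_of_subset_of_nonneg (Finset.erase_subset _ _) fun S _ _ => hf0 S
      _ = ∏ p ∈ Q, (1 + ((2 ^ (C + 1) : ℕ) : ℝ) / p) := (Finset.prod_one_add _).symm
      _ ≤ (8 * Real.exp 11 * Real.log ⌊ℓ⌋₊) ^ (2 ^ (C + 1)) := romAvg_prod _ w _ hfloor
      _ ≤ _ := by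
          have h8 : (1 : ℝ) ≤ (⌊ℓ⌋₊ : ℝ) := by exact_mod_cast (le_trans one_le_two hfloor)
          have h9 : Real.log (⌊ℓ⌋₊ : ℝ) ≤ Real.log ℓ :=
            Real.log_le_log (by linarith) (Nat.floor_le (by linarith))
          have h10 : 0 ≤ Real.log (⌊ℓ⌋₊ : ℝ) := Real.log_nonneg h8
          refine pow_le_pow_left₀ (by positivity) ?_ _
          exact mul_le_mul_of_nonneg_left h9 (by positivity)
  have step6 : 3 / (H : ℝ) * ∑ S ∈ Q.powerset.erase ∅, (∏ p ∈ S, ((2 ^ (C + 1) : ℕ) : ℝ) / p) ≤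
      ε / 2 := by
    have h11 : 3 / (H : ℝ) * ∑ S ∈ Q.powerset.erase ∅, (∏ p ∈ S, ((2 ^ (C + 1) : ℕ) : ℝ) / p) ≤
        3 / (H : ℝ) * (8 * Real.exp 11 * Real.log ℓ) ^ (2 ^ (C + 1)) :=
      mul_le_mul_of_nonneg_left step5 (by positivity)
    refine h11.trans ?_
    rw [div_mul_eq_mul_div, div_le_iff₀ hH0]
    exact hℓ.trans (mul_le_mul_of_nonneg_left hH (by positivity))
  have step7 : 3 * (κ' : ℝ) * ∑ S ∈ Q.powerset.erase ∅,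
      ((∏ p ∈ S, ((2 ^ (C + 1) : ℕ) : ℝ) / p) / (orderOf (g₀ : ZMod (∏ p ∈ S, p)) : ℝ)) ≤
      ε / 2 := by
    refine (mul_le_mul_of_nonneg_left step4 (by positivity)).trans ?_
    have hk : (0 : ℝ) ≤ κ' := by positivity
    rw [mul_div_assoc', div_le_iff₀ (by positivity)]
    nlinarith
  refine step1.trans (step2.le.trans ((Finset.sum_le_sum step3).trans ?_))
  rw [Finset.sum_add_distrib, ← Finset.mul_sum, ← Finset.mul_sum]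
  linarith

end Pool.Agent.H16.GP2
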