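import Pool.Agent.H16.GPS.Rel.Basic

/-!
JOB GP2-SECOND (MP_c183ae_nt). Second moment of `A ↦ E_x ν(A, x)`.

PROOF. `∑_A (∑_x ν(A,x))² = ∑_x ∑_y ∑_A ν(A,x) ν(A,y)`. For `x ≠ y`, `hcorr {x,y}`:
`∑_A ν(A,x) ν(A,y) ≤ card Θ (1 + ε + Ψ x y + Ψ y x) = card Θ (1 + ε + 2 Ψ x y)`. For `x = y` it is
`≤ card Θ * Bd² ≤ card Θ * Ψ x x ≤ card Θ (1 + ε + 2 Ψ x x)` (`hΨd2`). So the sum is
`≤ card Θ ((1+ε) (card Γ)² + 2 ∑_x ∑_y Ψ x y)`. Finally `∑_y Ψ x y = ∑_g lam g ∑_y Ψ x (y + g)` (translation, `∑ lam = 1`)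
`= ∑_y ∑_g lam g Ψ x (y + g) ≤ card Γ * ε₂` (`hav`), hence `∑_x ∑_y Ψ x y ≤ (card Γ)² ε₂`. Use `1 + ε + 2 ε₂ ≤ 3`. ~90 lines.
-/

set_option autoImplicit false

open Finset

namespace Pool.Agent.H16.GP2

open Pool.Agent.H16.GPS

theorem second_moment {Θ Γ : Type} [Fintype Θ] [Nonempty Θ] [Fintype Γ] [AddCommGroup Γ]
    [DecidableEq Γ] (lam : Γ → ℝ) (hl : IsPW lam) (ν : Θ × Γ → ℝ) (Bd : ℝ) (hν : ∀ p, 0 ≤ ν p ∧ ν p ≤ Bd)
    (ε ε₂ : ℝ) (hε : 0 ≤ ε) (hε₂ : 0 ≤ ε₂) (hεε : ε + 2 * ε₂ ≤ 2)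
    (Ψ : Γ → Γ → ℝ) (hΨ0 : ∀ x y, 0 ≤ Ψ x y) (hΨs : ∀ x y, Ψ x y = Ψ y x)
    (hΨd2 : ∀ x, Bd ^ 2 ≤ Ψ x x)
    (hcorr : ∀ S : Finset Γ, #S ≤ 2 →
      |(∑ A : Θ, ∏ x ∈ S, ν (A, x)) / (Fintype.card Θ : ℝ) - 1| ≤
        ε + ∑ x ∈ S, ∑ y ∈ S.erase x, Ψ x y)
    (hav : ∀ (y a : Γ), ∑ g, lam g * Ψ y (a + g) ≤ ε₂) :
    ∑ A : Θ, (∑ x : Γ, ν (A, x)) ^ 2 ≤ 3 * (Fintype.card Θ : ℝ) * (Fintype.card Γ : ℝ) ^ 2 := by
  set T : ℝ := (Fintype.card Θ : ℝ) with hT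
  set N : ℝ := (Fintype.card Γ : ℝ) with hN
  have hTpos : 0 < T := by
    rw [hT]
    exact_mod_cast Fintype.card_pos
  have h1 : ∑ A : Θ, (∑ x : Γ, ν (A, x)) ^ 2 = ∑ x : Γ, ∑ y : Γ, ∑ A : Θ, ν (A, x) * ν (A, y) := by
    simp_rw [sq, Finset.sum_mul_sum]
    rw [Finset.sum_comm]
    refine Finset.sum_congr rfl (fun x _ => ?_)
    rw [Finset.sum_comm]
  have h2 : ∀ x y : Γ, ∑ A : Θ, ν (A, x) * ν (A, y) ≤ T * (1 + ε + 2 * Ψ x y) := by
    intro x y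
    by_cases hxy : x = y
    · subst hxy
      have h3 : ∑ A : Θ, ν (A, x) * ν (A, x) ≤ ∑ _A : Θ, Bd ^ 2 := by
        refine Finset.sum_le_sum (fun A _ => ?_)
        obtain ⟨h4, h5⟩ := hν (A, x)
        nlinarith
      rw [Finset.sum_const, Finset.card_univ, nsmul_eq_mul, ← hT] at h3
      have h6 : T * Bd ^ 2 ≤ T * (1 + ε + 2 * Ψ x x) := by
        refine mul_le_mul_of_nonneg_left ?_ hTpos.le
        have := hΨd2 x
        have := hΨ0 x x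
        linarith
      exact h3.trans h6
    · have h3 := hcorr {x, y} (Finset.card_le_two)
      have h4 : ∀ A : Θ, ∏ z ∈ ({x, y} : Finset Γ), ν (A, z) = ν (A, x) * ν (A, y) := fun A =>
        Finset.prod_pair hxy
      have h5 : ∑ z ∈ ({x, y} : Finset Γ), ∑ w ∈ ({x, y} : Finset Γ).erase z, Ψ z w =
          Ψ x y + Ψ y x := by
        rw [Finset.sum_pair hxy]
        have e1 : ({x, y} : Finset Γ).erase x = {y} := by
          ext w
          simp only [Finset.mem_erase, Finset.mem_insert, Finset.mem_singleton]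
          constructor
          · rintro ⟨h, h' | h'⟩
            · exact absurd h' h
            · exact h'
          · rintro rfl
            exact ⟨fun h => hxy h.symm, Or.inr rfl⟩
        have e2 : ({x, y} : Finset Γ).erase y = {x} := by
          ext w
          simp only [Finset.mem_erase, Finset.mem_insert, Finset.mem_singleton]
          constructor
          · rintro ⟨h, h' | h'⟩
            · exact h'
            · exact absurd h' h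
          · rintro rfl
            exact ⟨hxy, Or.inl rfl⟩
        rw [e1, e2, Finset.sum_singleton, Finset.sum_singleton]
      rw [h5, ← hΨs x y] at h3
      simp_rw [h4] at h3
      have h6 := (abs_le.1 h3).2
      have h7 : (∑ A : Θ, ν (A, x) * ν (A, y)) / T ≤ 1 + ε + 2 * Ψ x y := by
        linarith
      rw [div_le_iff₀ hTpos] at h7
      linarith
  have h3 : ∀ x : Γ, ∑ y : Γ, Ψ x y ≤ N * ε₂ := by
    intro x
    have h4 : ∑ y : Γ, Ψ x y = ∑ g : Γ, lam g * ∑ y : Γ, Ψ x (y + g) := by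
      have h5 : ∀ g : Γ, ∑ y : Γ, Ψ x (y + g) = ∑ y : Γ, Ψ x y := fun g =>
        Fintype.sum_equiv (Equiv.addRight g) _ _ (fun _ => rfl)
      simp_rw [h5]
      rw [← Finset.sum_mul, hl.2, one_mul]
    rw [h4]
    simp_rw [Finset.mul_sum]
    rw [Finset.sum_comm]
    calc ∑ y : Γ, ∑ g : Γ, lam g * Ψ x (y + g) ≤ ∑ _y : Γ, ε₂ :=
          Finset.sum_le_sum (fun y _ => hav x y)
      _ = N * ε₂ := by rw [Finset.sum_const, Finset.card_univ, nsmul_eq_mul]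
  rw [h1]
  have hN0 : 0 ≤ N := by rw [hN]; exact Nat.cast_nonneg _
  calc ∑ x : Γ, ∑ y : Γ, ∑ A : Θ, ν (A, x) * ν (A, y)
      ≤ ∑ x : Γ, ∑ y : Γ, T * (1 + ε + 2 * Ψ x y) :=
        Finset.sum_le_sum (fun x _ => Finset.sum_le_sum (fun y _ => h2 x y))
    _ = T * ((1 + ε) * N ^ 2 + 2 * ∑ x : Γ, ∑ y : Γ, Ψ x y) := by
        simp_rw [← Finset.mul_sum, Finset.sum_add_distrib, ← Finset.mul_sum, Finset.sum_const,
          Finset.card_univ, nsmul_eq_mul]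
        rw [← hN]
        ring
    _ ≤ T * ((1 + ε) * N ^ 2 + 2 * (N * (N * ε₂))) := by
        refine mul_le_mul_of_nonneg_left ?_ hTpos.le
        have h8 : ∑ x : Γ, ∑ y : Γ, Ψ x y ≤ N * (N * ε₂) := by
          calc ∑ x : Γ, ∑ y : Γ, Ψ x y ≤ ∑ _x : Γ, N * ε₂ :=
                Finset.sum_le_sum (fun x _ => h3 x)
            _ = N * (N * ε₂) := by rw [Finset.sum_const, Finset.card_univ, nsmul_eq_mul]
        linarith
    _ ≤ 3 * T * N ^ 2 := by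
        have h9 : (1 + ε + 2 * ε₂) * (T * N ^ 2) ≤ 3 * (T * N ^ 2) := by
          refine mul_le_mul_of_nonneg_right ?_ (by positivity)
          linarith
        nlinarith

end Pool.Agent.H16.GP2
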