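import Pool.Agent.H16.GP2.Defs

/-!
JOB GP2-SINGUP (MP_c183ae_nt). Upper bound for the singular series by a product over pairs.

PROOF. `n = #ℳ ≤ t`, `u p = (1 - 1/p)⁻¹ ≥ 1`. For `p ∈ Q` the factor is `(1 - ρ/p) * (u p)^n`, `ρ = #(ℳ.image (· % p))`.
If the elements of `ℳ` are distinct mod `p` then `ρ = n` and the factor is `≤ 1` (Bernoulli: `1 - n/p ≤ (1 - 1/p)^n`,
`one_add_mul_le_pow`); otherwise it is `≤ (u p)^n ≤ (u p)^t` and some pair `q ∈ ℳ.offDiag` has `q.1 % p = q.2 % p`. (The factors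
are `≥ 0` for `w ≥ t`.) So the factor is `≤ ∏ q ∈ ℳ.offDiag, (if q.1 % p = q.2 % p then (u p)^t else 1)`. Exchange the products:
`sing Q ℳ ≤ ∏ q ∈ ℳ.offDiag, ∏ p ∈ Q.filter (q.1 % p = q.2 % p), (u p)^t`. For one pair split at `p ≤ ⌊ℓ⌋₊`: the small
primes are a subset of `(primesIoc w ⌊ℓ⌋₊).filter ..`, giving at most `1 + psi t w ℓ q.1 q.2`; the large ones: they divide
`|q.1 - q.2|` (a nonzero integer `≤ exp (sqrt ℓ)`, `< 2^(2 sqrt ℓ)`), so there are at most `2 sqrt ℓ + 1` of them and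
`∏ (u p)^t ≤ exp (2 t (2 sqrt ℓ + 1)/ℓ)` (`u p ≤ exp (2/p) ≤ exp (2/ℓ)`). There are at most `t²` pairs:
`exp (t² * 2 t (2 sqrt ℓ + 1)/ℓ) ≤ 1 + ε` eventually. ~180 lines.

Status: complete (helper26).
-/

set_option autoImplicit false

open Finset Filter

namespace Pool.Agent.H16.GP2

open Pool.Agent.H16 Pool.Agent.H16.GPS

lemma su_one_le_prod {ι : Type*} (s : Finset ι) (f : ι → ℝ) (h : ∀ i ∈ s, 1 ≤ f i) :
    1 ≤ ∏ i ∈ s, f i := by
  have h1 := Finset.prod_le_prod (s := s) (f := fun _ => (1 : ℝ)) (g := f)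
    (fun _ _ => zero_le_one) h
  rwa [Finset.prod_const_one] at h1

lemma su_inv_le {p : ℕ} (hp : 2 ≤ p) : (1 - 1 / (p : ℝ))⁻¹ ≤ Real.exp (2 / p) := by
  have h2 : (2 : ℝ) ≤ p := by exact_mod_cast hp
  have hx : 0 < 1 / (p : ℝ) := by positivity
  have hx2 : 1 / (p : ℝ) ≤ 1 / 2 := one_div_le_one_div_of_le (by norm_num) h2
  have h3 := Real.add_one_le_exp (2 / (p : ℝ))
  have h4 : 2 / (p : ℝ) = 2 * (1 / (p : ℝ)) := by ring
  have h5 : 0 < 1 - 1 / (p : ℝ) := by linarith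
  rw [inv_le_comm₀ h5 (Real.exp_pos _)]
  rw [inv_le_iff_one_le_mul₀ (Real.exp_pos _)]
  rw [h4] at h3 ⊢
  generalize 1 / (p : ℝ) = x at *
  nlinarith

lemma su_factor (t : ℕ) (ℳ : Finset ℕ) (hM : #ℳ ≤ t) {p : ℕ} (hp : p.Prime) :
    (1 - (#(ℳ.image (fun m => m % p)) : ℝ) / p) * ((1 - 1 / (p : ℝ))⁻¹) ^ #ℳ ≤
      ∏ q ∈ ℳ.offDiag, (if q.1 % p = q.2 % p then ((1 - 1 / (p : ℝ))⁻¹) ^ t else 1) := by
  have hp0 : (0 : ℝ) < p := by exact_mod_cast hp.pos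
  have hp1 : (1 : ℝ) < p := by exact_mod_cast hp.one_lt
  have h1p : 0 < 1 - 1 / (p : ℝ) := by
    have : 1 / (p : ℝ) < 1 := by rw [div_lt_one hp0]; exact hp1
    linarith
  have hu := one_le_inv_prime hp
  have hall : ∀ q ∈ ℳ.offDiag,
      1 ≤ (if q.1 % p = q.2 % p then ((1 - 1 / (p : ℝ))⁻¹) ^ t else 1) := by
    intro q _
    split_ifs
    · exact one_le_pow₀ hu
    · exact le_rfl
  by_cases h : ∃ q ∈ ℳ.offDiag, q.1 % p = q.2 % p
  · obtain ⟨q, hq, hqe⟩ := h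
    rw [← Finset.mul_prod_erase _ _ hq, if_pos hqe]
    have h1 : 1 ≤ ∏ x ∈ ℳ.offDiag.erase q,
        (if x.1 % p = x.2 % p then ((1 - 1 / (p : ℝ))⁻¹) ^ t else 1) :=
      su_one_le_prod _ _ fun x hx => hall x (Finset.mem_of_mem_erase hx)
    have h2 : ((1 - 1 / (p : ℝ))⁻¹) ^ #ℳ ≤ ((1 - 1 / (p : ℝ))⁻¹) ^ t := pow_le_pow_right₀ hu hM
    have h3 : 1 - (#(ℳ.image (fun m => m % p)) : ℝ) / p ≤ 1 := by
      have : 0 ≤ (#(ℳ.image (fun m => m % p)) : ℝ) / p := by positivity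
      linarith
    have h4 : 0 ≤ ((1 - 1 / (p : ℝ))⁻¹) ^ #ℳ := by positivity
    have h5 : 0 ≤ ((1 - 1 / (p : ℝ))⁻¹) ^ t := by positivity
    calc (1 - (#(ℳ.image (fun m => m % p)) : ℝ) / p) * ((1 - 1 / (p : ℝ))⁻¹) ^ #ℳ
        ≤ 1 * ((1 - 1 / (p : ℝ))⁻¹) ^ #ℳ := mul_le_mul_of_nonneg_right h3 h4
      _ ≤ ((1 - 1 / (p : ℝ))⁻¹) ^ t * 1 := by rw [one_mul, mul_one]; exact h2
      _ ≤ _ := mul_le_mul_of_nonneg_left h1 h5
  · push Not at h
    have hinj : Set.InjOn (fun m => m % p) (ℳ : Set ℕ) := by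
      intro a ha b hb hab
      by_contra hne
      exact h (a, b) (Finset.mem_offDiag.mpr ⟨ha, hb, hne⟩) hab
    rw [Finset.card_image_of_injOn hinj]
    have h1 := one_add_mul_le_pow (a := -(1 / (p : ℝ))) (by linarith) #ℳ
    have h2 : 1 - (#ℳ : ℝ) / p ≤ (1 - 1 / (p : ℝ)) ^ #ℳ := by
      have e1 : 1 + (#ℳ : ℝ) * -(1 / (p : ℝ)) = 1 - (#ℳ : ℝ) / p := by ring
      have e2 : (1 + -(1 / (p : ℝ))) = 1 - 1 / (p : ℝ) := by ring
      rwa [e1, e2] at h1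
    have h3 : (1 - (#ℳ : ℝ) / p) * ((1 - 1 / (p : ℝ))⁻¹) ^ #ℳ ≤ 1 := by
      calc (1 - (#ℳ : ℝ) / p) * ((1 - 1 / (p : ℝ))⁻¹) ^ #ℳ
          ≤ (1 - 1 / (p : ℝ)) ^ #ℳ * ((1 - 1 / (p : ℝ))⁻¹) ^ #ℳ :=
            mul_le_mul_of_nonneg_right h2 (by positivity)
        _ = 1 := by rw [← mul_pow, mul_inv_cancel₀ h1p.ne', one_pow]
    exact h3.trans (su_one_le_prod _ _ hall)

lemma su_card {ℓ : ℝ} (S : Finset ℕ) (a b : ℕ) (hab : a ≠ b)
    (ha : (a : ℝ) ≤ Real.exp (Real.sqrt ℓ)) (hb : (b : ℝ) ≤ Real.exp (Real.sqrt ℓ))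
    (hS : ∀ p ∈ S, p.Prime ∧ a % p = b % p) : (#S : ℝ) ≤ 2 * Real.sqrt ℓ := by
  have hdvd : ∏ p ∈ S, p ∣ ((b : ℤ) - a).natAbs := by
    apply Finset.prod_primes_dvd
    · intro p hp
      exact (hS p hp).1.prime
    · intro p hp
      have h1 : (p : ℤ) ∣ (b : ℤ) - a := Nat.modEq_iff_dvd.mp (hS p hp).2
      exact Int.natCast_dvd.mp h1
  have hpos : 0 < ((b : ℤ) - a).natAbs := by
    rw [Int.natAbs_pos]
    omega
  have hle := Nat.le_of_dvd hpos hdvd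
  have h2 : 2 ^ #S ≤ ∏ p ∈ S, p := by
    rw [← Finset.prod_const]
    exact Finset.prod_le_prod' fun p hp => (hS p hp).1.two_le
  have h3 : ((b : ℤ) - a).natAbs ≤ max a b := by omega
  have h4 : (2 : ℝ) ^ #S ≤ Real.exp (Real.sqrt ℓ) := by
    have h5 : ((2 ^ #S : ℕ) : ℝ) ≤ ((max a b : ℕ) : ℝ) := by
      exact_mod_cast (h2.trans hle).trans h3
    have h6 : ((max a b : ℕ) : ℝ) ≤ Real.exp (Real.sqrt ℓ) := by
      rw [Nat.cast_max]
      exact max_le ha hb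
    push_cast at h5
    exact h5.trans (by rw [← Nat.cast_max]; exact h6)
  have h7 := Real.log_le_log (by positivity) h4
  rw [Real.log_pow, Real.log_exp] at h7
  have h8 := Real.log_two_gt_d9
  have h9 : (0 : ℝ) ≤ (#S : ℝ) := Nat.cast_nonneg _
  nlinarith

lemma su_pair (t w : ℕ) {ℓ : ℝ} (hℓ : 0 < ℓ) (Q : Finset ℕ) (hQ : ∀ p ∈ Q, p.Prime ∧ w < p)
    (a b : ℕ) (hab : a ≠ b)
    (ha : (a : ℝ) ≤ Real.exp (Real.sqrt ℓ)) (hb : (b : ℝ) ≤ Real.exp (Real.sqrt ℓ)) :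
    ∏ p ∈ Q.filter (fun p => a % p = b % p), ((1 - 1 / (p : ℝ))⁻¹) ^ t ≤
      (1 + psi t w ℓ a b) * Real.exp (4 * t / Real.sqrt ℓ) := by
  classical
  have hf1 : ∀ p ∈ Q, 1 ≤ ((1 - 1 / (p : ℝ))⁻¹) ^ t := fun p hp =>
    one_le_pow₀ (one_le_inv_prime (hQ p hp).1)
  rw [← Finset.prod_filter_mul_prod_filter_not (Q.filter (fun p => a % p = b % p))
    (fun p => p ≤ ⌊ℓ⌋₊)]
  have hA : ∏ p ∈ (Q.filter (fun p => a % p = b % p)).filter (fun p => p ≤ ⌊ℓ⌋₊),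
      ((1 - 1 / (p : ℝ))⁻¹) ^ t ≤ 1 + psi t w ℓ a b := by
    have hsub : (Q.filter (fun p => a % p = b % p)).filter (fun p => p ≤ ⌊ℓ⌋₊) ⊆
        (primesIoc w ⌊ℓ⌋₊).filter (fun p => a % p = b % p) := by
      intro p hp
      rw [Finset.mem_filter, Finset.mem_filter] at hp
      rw [Finset.mem_filter, mem_primesIoc]
      exact ⟨⟨(hQ p hp.1.1).2, hp.2, (hQ p hp.1.1).1⟩, hp.1.2⟩
    have h1 := Finset.prod_sdiff hsub (f := fun p : ℕ => ((1 - 1 / (p : ℝ))⁻¹) ^ t)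
    have h2 : 1 + psi t w ℓ a b = ∏ p ∈ (primesIoc w ⌊ℓ⌋₊).filter (fun p => a % p = b % p),
        ((1 - 1 / (p : ℝ))⁻¹) ^ t := by
      unfold psi
      ring
    rw [h2, ← h1]
    have h3 : 1 ≤ ∏ p ∈ (primesIoc w ⌊ℓ⌋₊).filter (fun p => a % p = b % p) \
        (Q.filter (fun p => a % p = b % p)).filter (fun p => p ≤ ⌊ℓ⌋₊),
        ((1 - 1 / (p : ℝ))⁻¹) ^ t := by
      apply su_one_le_prod
      intro p hp
      rw [Finset.mem_sdiff, Finset.mem_filter, mem_primesIoc] at hp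
      exact one_le_pow₀ (one_le_inv_prime hp.1.1.2.2)
    have h4 : 0 ≤ ∏ p ∈ (Q.filter (fun p => a % p = b % p)).filter (fun p => p ≤ ⌊ℓ⌋₊),
        ((1 - 1 / (p : ℝ))⁻¹) ^ t := by
      refine zero_le_one.trans (su_one_le_prod _ _ fun p hp => ?_)
      rw [Finset.mem_filter, Finset.mem_filter] at hp
      exact hf1 p hp.1.1
    exact le_mul_of_one_le_left h4 h3
  have hB : ∏ p ∈ (Q.filter (fun p => a % p = b % p)).filter (fun p => ¬ p ≤ ⌊ℓ⌋₊),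
      ((1 - 1 / (p : ℝ))⁻¹) ^ t ≤ Real.exp (4 * t / Real.sqrt ℓ) := by
    set S := (Q.filter (fun p => a % p = b % p)).filter (fun p => ¬ p ≤ ⌊ℓ⌋₊) with hSdef
    have hcard : (#S : ℝ) ≤ 2 * Real.sqrt ℓ := by
      apply su_card S a b hab ha hb
      intro p hp
      rw [hSdef, Finset.mem_filter, Finset.mem_filter] at hp
      exact ⟨(hQ p hp.1.1).1, hp.1.2⟩
    have h1 : ∏ p ∈ S, ((1 - 1 / (p : ℝ))⁻¹) ^ t ≤ ∏ _p ∈ S, Real.exp (2 * t / ℓ) := by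
      apply Finset.prod_le_prod
      · intro p hp
        rw [hSdef, Finset.mem_filter, Finset.mem_filter] at hp
        exact zero_le_one.trans (hf1 p hp.1.1)
      · intro p hp
        rw [hSdef, Finset.mem_filter, Finset.mem_filter] at hp
        have hpp := (hQ p hp.1.1).1
        have h2 : ℓ < p := (Nat.floor_lt hℓ.le).mp (not_le.mp hp.2)
        have h3 : (1 - 1 / (p : ℝ))⁻¹ ≤ Real.exp (2 / ℓ) :=
          (su_inv_le hpp.two_le).trans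
            (Real.exp_le_exp.mpr (div_le_div_of_nonneg_left (by norm_num) hℓ h2.le))
        calc ((1 - 1 / (p : ℝ))⁻¹) ^ t ≤ (Real.exp (2 / ℓ)) ^ t :=
              pow_le_pow_left₀ (zero_le_one.trans (one_le_inv_prime hpp)) h3 t
          _ = Real.exp (2 * t / ℓ) := by
              rw [← Real.exp_nat_mul]
              congr 1
              ring
    refine h1.trans ?_
    rw [Finset.prod_const, ← Real.exp_nat_mul]
    apply Real.exp_le_exp.mpr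
    have hs : 0 < Real.sqrt ℓ := Real.sqrt_pos.mpr hℓ
    have hs2 : Real.sqrt ℓ * Real.sqrt ℓ = ℓ := Real.mul_self_sqrt hℓ.le
    have h5 : (4 * (t : ℝ) / Real.sqrt ℓ) = (2 * Real.sqrt ℓ) * (2 * t / ℓ) := by
      rw [div_eq_iff hs.ne']
      field_simp
      nlinarith [hs2]
    rw [h5]
    exact mul_le_mul_of_nonneg_right hcard (by positivity)
  have hB0 : 0 ≤ ∏ p ∈ (Q.filter (fun p => a % p = b % p)).filter (fun p => ¬ p ≤ ⌊ℓ⌋₊),
      ((1 - 1 / (p : ℝ))⁻¹) ^ t := by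
    refine zero_le_one.trans (su_one_le_prod _ _ fun p hp => ?_)
    rw [Finset.mem_filter, Finset.mem_filter] at hp
    exact hf1 p hp.1.1
  have hpsi := psi_nonneg t w ℓ a b
  exact mul_le_mul hA hB hB0 (by linarith)

theorem sing_upper (t : ℕ) (ε : ℝ) (hε : 0 < ε) : ∃ w₀ : ℕ, ∀ w : ℕ, w₀ ≤ w → ∀ᶠ ℓ : ℝ in atTop,
    ∀ Q : Finset ℕ, (∀ p ∈ Q, p.Prime ∧ w < p) → ∀ ℳ : Finset ℕ, #ℳ ≤ t →
    (∀ m ∈ ℳ, (m : ℝ) ≤ Real.exp (Real.sqrt ℓ)) →
    sing Q ℳ ≤ (1 + ε) * ∏ q ∈ ℳ.offDiag, (1 + psi t w ℓ q.1 q.2) := by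
  refine ⟨t, fun w hw => ?_⟩
  have hlim : Tendsto (fun ℓ : ℝ => Real.exp (4 * (t : ℝ) ^ 3 / Real.sqrt ℓ)) atTop (nhds 1) := by
    have h1 : Tendsto (fun ℓ : ℝ => 4 * (t : ℝ) ^ 3 / Real.sqrt ℓ) atTop (nhds 0) :=
      tendsto_const_nhds.div_atTop Real.tendsto_sqrt_atTop
    have h2 := (Real.continuous_exp.tendsto 0).comp h1
    rw [Real.exp_zero] at h2
    exact h2
  have h1 : ∀ᶠ ℓ : ℝ in atTop, Real.exp (4 * (t : ℝ) ^ 3 / Real.sqrt ℓ) < 1 + ε :=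
    hlim.eventually_lt_const (by linarith)
  filter_upwards [h1, eventually_gt_atTop 0] with ℓ hℓ hℓ0
  intro Q hQ ℳ hM hsize
  have hs : 0 < Real.sqrt ℓ := Real.sqrt_pos.mpr hℓ0
  have hP : 0 ≤ ∏ q ∈ ℳ.offDiag, (1 + psi t w ℓ q.1 q.2) :=
    Finset.prod_nonneg fun q _ => by
      have := psi_nonneg t w ℓ q.1 q.2
      linarith
  calc sing Q ℳ = ∏ p ∈ Q, ((1 - (#(ℳ.image (fun m => m % p)) : ℝ) / p) *
        ((1 - 1 / (p : ℝ))⁻¹) ^ #ℳ) := by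
        unfold sing VP
        rw [div_eq_mul_inv, ← inv_pow, ← Finset.prod_inv_distrib, ← Finset.prod_pow,
          ← Finset.prod_mul_distrib]
    _ ≤ ∏ p ∈ Q, ∏ q ∈ ℳ.offDiag,
        (if q.1 % p = q.2 % p then ((1 - 1 / (p : ℝ))⁻¹) ^ t else 1) := by
        apply Finset.prod_le_prod
        · intro p hp
          obtain ⟨hpp, hwp⟩ := hQ p hp
          have h2 : (#(ℳ.image (fun m => m % p)) : ℝ) ≤ p := by
            have : #(ℳ.image (fun m => m % p)) ≤ p :=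
              Finset.card_image_le.trans (hM.trans (hw.trans hwp.le))
            exact_mod_cast this
          have hp0 : (0 : ℝ) < p := by exact_mod_cast hpp.pos
          have h3 : (#(ℳ.image (fun m => m % p)) : ℝ) / p ≤ 1 := by
            rw [div_le_one hp0]
            exact h2
          exact mul_nonneg (by linarith)
            (pow_nonneg (zero_le_one.trans (one_le_inv_prime hpp)) _)
        · intro p hp
          exact su_factor t ℳ hM (hQ p hp).1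
    _ = ∏ q ∈ ℳ.offDiag, ∏ p ∈ Q.filter (fun p => q.1 % p = q.2 % p),
        ((1 - 1 / (p : ℝ))⁻¹) ^ t := by
        rw [Finset.prod_comm]
        exact Finset.prod_congr rfl fun q _ => (Finset.prod_filter _ _).symm
    _ ≤ ∏ q ∈ ℳ.offDiag, ((1 + psi t w ℓ q.1 q.2) * Real.exp (4 * t / Real.sqrt ℓ)) := by
        apply Finset.prod_le_prod
        · intro q _
          refine zero_le_one.trans (su_one_le_prod _ _ fun p hp => ?_)
          exact one_le_pow₀ (one_le_inv_prime (hQ p (Finset.mem_filter.mp hp).1).1)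
        · intro q hq
          rw [Finset.mem_offDiag] at hq
          exact su_pair t w hℓ0 Q hQ q.1 q.2 hq.2.2 (hsize _ hq.1) (hsize _ hq.2.1)
    _ = (∏ q ∈ ℳ.offDiag, (1 + psi t w ℓ q.1 q.2)) *
        Real.exp (4 * t / Real.sqrt ℓ) ^ #ℳ.offDiag := by
        rw [Finset.prod_mul_distrib, Finset.prod_const]
    _ ≤ (∏ q ∈ ℳ.offDiag, (1 + psi t w ℓ q.1 q.2)) * (1 + ε) := by
        apply mul_le_mul_of_nonneg_left _ hP
        refine le_trans ?_ hℓ.le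
        rw [← Real.exp_nat_mul]
        apply Real.exp_le_exp.mpr
        have hc : #ℳ.offDiag ≤ t * t := by
          rw [Finset.offDiag_card]
          exact (Nat.sub_le _ _).trans (Nat.mul_le_mul hM hM)
        have hc' : (#ℳ.offDiag : ℝ) ≤ t * t := by exact_mod_cast hc
        have h5 : 4 * (t : ℝ) ^ 3 / Real.sqrt ℓ = (t * t) * (4 * t / Real.sqrt ℓ) := by ring
        rw [h5]
        exact mul_le_mul_of_nonneg_right hc' (by positivity)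
    _ = (1 + ε) * ∏ q ∈ ℳ.offDiag, (1 + psi t w ℓ q.1 q.2) := mul_comm _ _

end Pool.Agent.H16.GP2
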