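import Pool.Agent.H16.GP2.SingLow
import Pool.Agent.H16.GP2.SingUp

/-!
JOB GP2-SINGCLOSE (MP_c183ae_nt). The singular series is close to `1` up to a sum over pairs.

PROOF. Use `sing_lower` and `sing_upper` with `min ε 1`. Let `I = ℳ.offDiag`, `#I ≤ t²`. If `I = ∅` the product is `1`. Otherwise
let `q*` maximize `psi t w ℓ q.1 q.2` over `I`; `∏ q ∈ I, (1 + psi t ..) ≤ (1 + psi t (q*))^(t²) = 1 + psi (t^3) (q*)`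
(`(1 + psi C)` is a product of `(..)^C`, so `(1 + psi t)^(t²) = 1 + psi (t * t²)`) `≤ 1 + ∑ q ∈ I, psi (t^3) ..`. Hence
`sing - 1 ≤ (1 + ε)(1 + Σ) - 1 ≤ ε + 2 Σ` (`ε ≤ 1`), and the sum over `offDiag` is the double sum over `m`, `m' ∈ ℳ.erase m`.
~80 lines.
-/

set_option autoImplicit false

open Finset Filter

namespace Pool.Agent.H16.GP2

open Pool.Agent.H16 Pool.Agent.H16.GPS

lemma sc_pow (t w : ℕ) (ℓ : ℝ) (m m' : ℕ) :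
    (1 + psi t w ℓ m m') ^ (t ^ 2) = 1 + psi (t ^ 3) w ℓ m m' := by
  unfold psi
  rw [add_sub_cancel, add_sub_cancel, ← Finset.prod_pow]
  refine Finset.prod_congr rfl fun p _ => ?_
  rw [← pow_mul]
  congr 1
  ring

lemma sc_prod (t w : ℕ) (ℓ : ℝ) (ℳ : Finset ℕ) (hM : #ℳ ≤ t) :
    ∏ q ∈ ℳ.offDiag, (1 + psi t w ℓ q.1 q.2) ≤ 1 + ∑ q ∈ ℳ.offDiag, psi (t ^ 3) w ℓ q.1 q.2 := by
  have hcard : #ℳ.offDiag ≤ t ^ 2 := by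
    rw [Finset.offDiag_card]
    calc #ℳ * #ℳ - #ℳ ≤ #ℳ * #ℳ := Nat.sub_le _ _
      _ ≤ t * t := Nat.mul_le_mul hM hM
      _ = t ^ 2 := by ring
  rcases ℳ.offDiag.eq_empty_or_nonempty with he | hne
  · rw [he]; simp
  · obtain ⟨q, hq, hmax⟩ := Finset.exists_max_image ℳ.offDiag (fun q => psi t w ℓ q.1 q.2) hne
    have h1 : (1 : ℝ) ≤ 1 + psi t w ℓ q.1 q.2 := by linarith [psi_nonneg t w ℓ q.1 q.2]
    calc ∏ r ∈ ℳ.offDiag, (1 + psi t w ℓ r.1 r.2)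
        ≤ ∏ r ∈ ℳ.offDiag, (1 + psi t w ℓ q.1 q.2) := by
          refine Finset.prod_le_prod (fun r _ => ?_) (fun r hr => ?_)
          · linarith [psi_nonneg t w ℓ r.1 r.2]
          · linarith [hmax r hr]
      _ = (1 + psi t w ℓ q.1 q.2) ^ #ℳ.offDiag := by rw [Finset.prod_const]
      _ ≤ (1 + psi t w ℓ q.1 q.2) ^ (t ^ 2) := pow_le_pow_right₀ h1 hcard
      _ = 1 + psi (t ^ 3) w ℓ q.1 q.2 := sc_pow t w ℓ q.1 q.2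
      _ ≤ 1 + ∑ r ∈ ℳ.offDiag, psi (t ^ 3) w ℓ r.1 r.2 := by
          have := Finset.single_le_sum (f := fun r : ℕ × ℕ => psi (t ^ 3) w ℓ r.1 r.2)
            (fun r _ => psi_nonneg (t ^ 3) w ℓ r.1 r.2) hq
          linarith

theorem sing_close (t : ℕ) (ε : ℝ) (hε : 0 < ε) : ∃ w₀ : ℕ, ∀ w : ℕ, w₀ ≤ w → ∀ᶠ ℓ : ℝ in atTop,
    ∀ Q : Finset ℕ, (∀ p ∈ Q, p.Prime ∧ w < p) → ∀ ℳ : Finset ℕ, #ℳ ≤ t →
    (∀ m ∈ ℳ, (m : ℝ) ≤ Real.exp (Real.sqrt ℓ)) →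
    |sing Q ℳ - 1| ≤ ε + 2 * ∑ m ∈ ℳ, ∑ m' ∈ ℳ.erase m, psi (t ^ 3) w ℓ m m' := by
  have he' : 0 < min ε 1 := lt_min hε one_pos
  obtain ⟨w1, h1⟩ := sing_lower t (min ε 1) he'
  obtain ⟨w2, h2⟩ := sing_upper t (min ε 1) he'
  refine ⟨max w1 w2, fun w hw => ?_⟩
  filter_upwards [h2 w (le_trans (le_max_right _ _) hw)] with ℓ hℓ
  intro Q hQ ℳ hM hm
  have hlow := h1 w (le_trans (le_max_left _ _) hw) Q hQ ℳ hM
  have hup := hℓ Q hQ ℳ hM hm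
  have hsum : ∑ m ∈ ℳ, ∑ m' ∈ ℳ.erase m, psi (t ^ 3) w ℓ m m' =
      ∑ q ∈ ℳ.offDiag, psi (t ^ 3) w ℓ q.1 q.2 := by
    symm
    refine Finset.sum_finset_product' ℳ.offDiag ℳ (fun m => ℳ.erase m) (fun q => ?_)
    rw [Finset.mem_offDiag, Finset.mem_erase]
    constructor
    · rintro ⟨a, b, c⟩; exact ⟨a, Ne.symm c, b⟩
    · rintro ⟨a, c, b⟩; exact ⟨a, b, Ne.symm c⟩
  rw [hsum]
  have hprod := sc_prod t w ℓ ℳ hM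
  have hS : 0 ≤ ∑ q ∈ ℳ.offDiag, psi (t ^ 3) w ℓ q.1 q.2 :=
    Finset.sum_nonneg fun q _ => psi_nonneg _ _ _ _ _
  have hem : min ε 1 ≤ ε := min_le_left _ _
  have he1 : min ε 1 ≤ 1 := min_le_right _ _
  rw [abs_le]
  constructor
  · linarith
  · have h3 : (1 + min ε 1) * ∏ q ∈ ℳ.offDiag, (1 + psi t w ℓ q.1 q.2) ≤
        (1 + min ε 1) * (1 + ∑ q ∈ ℳ.offDiag, psi (t ^ 3) w ℓ q.1 q.2) :=
      mul_le_mul_of_nonneg_left hprod (by linarith)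
    have h4 : min ε 1 * ∑ q ∈ ℳ.offDiag, psi (t ^ 3) w ℓ q.1 q.2 ≤
        1 * ∑ q ∈ ℳ.offDiag, psi (t ^ 3) w ℓ q.1 q.2 := mul_le_mul_of_nonneg_right he1 hS
    nlinarith

end Pool.Agent.H16.GP2
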