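import Pool.Agent.H16.GP2.Par
import Pool.Agent.H16.GP2.LF2
import Pool.Agent.H16.GP2.LFd2
import Pool.Agent.H16.GP2.LawAvg
import Pool.Agent.H16.GP2.Second
import Pool.Agent.H16.GP2.PosProp
import Pool.Agent.H16.GP2.CorrQ
import Pool.Agent.H16.GP2.SingClose
import Pool.Agent.H16.GP2.RomAvg
import Pool.Agent.H16.GP2.MeanQ
import Pool.Agent.H16.GP2.NuQ
import Pool.Agent.H16.GP2.FleQ
import Pool.Agent.H16.GPS.Fin3

/-!
GP2: final assembly.
-/

set_option autoImplicit false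

open Finset Filter

namespace Pool.Agent.H16.GP2

open Pool.Agent.H16 Pool.Agent.H16.GPS

lemma Wp_pos (w : ℕ) : 0 < Wp w := by
  unfold Wp
  apply Finset.prod_pos
  intro p hp
  exact (mem_primesIoc.mp hp).2.2.pos

lemma Wp_two_le {w : ℕ} (hw : 2 ≤ w) : 2 ≤ Wp w := by
  have h4 : 2 ∣ Wp w := by
    unfold Wp
    exact Finset.dvd_prod_of_mem _ (mem_primesIoc.mpr ⟨by norm_num, hw, Nat.prime_two⟩)
  exact Nat.le_of_dvd (Wp_pos w) h4

/-- the majorant on `Θ × Γ` -/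
noncomputable def nuH {s V : ℕ} (K : ℕ) (η ℓ : ℝ) (w Y : ℕ) (σ : Bool) (gen : Fin s → ℕ) :
    Fin Y × (Fin s → ZMod V) → ℝ :=
  fun p => nuQ K η ℓ w (sh σ (Wp w * mx gen p.2 * ((p.1 : ℕ) + 1)))

/-- the weight of the primes on `Θ × Γ`, cut off near the boundary -/
noncomputable def fH {s V : ℕ} (c₀ η ℓ : ℝ) (w Y Q : ℕ) (σ : Bool) (gen : Fin s → ℕ) :
    Fin Y × (Fin s → ZMod V) → ℝ := by
  classical exact
  fun p => if ∃ i, V ≤ (p.2 i).val + Q then 0 else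
    c₀ * (((Wp w).totient : ℝ) / (Wp w : ℝ) *
      aw (Real.log ((Wp w * mx gen p.2 * Y : ℕ) : ℝ)) (Pool.Agent.H16.GPS.RR η ℓ)
        (sh σ (Wp w * mx gen p.2 * ((p.1 : ℕ) + 1))))

/-- the pair term -/
noncomputable def PsiH {s V : ℕ} (C w : ℕ) (ℓ D : ℝ) (gen : Fin s → ℕ) (x y : Fin s → ZMod V) : ℝ :=
  2 * psi C w ℓ (mx gen x) (mx gen y) + (if x = y then D else 0)

/-- correlations on the grid -/
lemma corr_gridQ {s V : ℕ} [NeZero V] (K : ℕ) (η ℓ ε₁ ε₂ : ℝ) (C w Y t : ℕ) (D : ℝ) (hD : 0 ≤ D)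
    (σ : Bool) (gen : Fin s → ℕ) (hg : ∀ i, (gen i).Prime) (hi : Function.Injective gen)
    (hcorr : ∀ ℳ : Finset ℕ, #ℳ ≤ t →
      (∀ m ∈ ℳ, 0 < m ∧ (m : ℝ) ≤ Real.exp (Real.sqrt ℓ) ∧ ∀ p, p.Prime → p ∣ m → p ≤ w) →
      |(∑ A ∈ Icc 1 Y, ∏ m ∈ ℳ, nuQ K η ℓ w (sh σ (Wp w * m * A))) / (Y : ℝ) -
        sing (PQ K η ℓ w) ℳ| ≤ ε₁)
    (hsing : ∀ ℳ : Finset ℕ, #ℳ ≤ t → (∀ m ∈ ℳ, (m : ℝ) ≤ Real.exp (Real.sqrt ℓ)) →
      |sing (PQ K η ℓ w) ℳ - 1| ≤ ε₂ + 2 * ∑ m ∈ ℳ, ∑ m' ∈ ℳ.erase m, psi C w ℓ m m')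
    (hgw : ∀ i, gen i ≤ w)
    (hm : ∀ x : Fin s → ZMod V, (mx gen x : ℝ) ≤ Real.exp (Real.sqrt ℓ))
    (S : Finset (Fin s → ZMod V)) (hS : #S ≤ t) :
    |(∑ A : Fin Y, ∏ x ∈ S, nuH K η ℓ w Y σ gen (A, x)) / (Fintype.card (Fin Y) : ℝ) - 1| ≤
      (ε₁ + ε₂) + ∑ x ∈ S, ∑ y ∈ S.erase x, PsiH C w ℓ D gen x y := by
  classical
  have hinj := mx_inj (V := V) gen hg hi
  have hcard : #(S.image (mx gen)) ≤ t := (Finset.card_image_le).trans hS
  have h1 := hcorr (S.image (mx gen)) hcard (by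
    intro m hm'
    obtain ⟨x, -, rfl⟩ := Finset.mem_image.mp hm'
    refine ⟨mx_pos gen hg x, hm x, fun p hp hpd => ?_⟩
    obtain ⟨i, hi'⟩ := mx_prime gen hg x p hp hpd
    rw [hi']; exact hgw i)
  have h3 := hsing (S.image (mx gen)) hcard (by
    intro m hm'
    obtain ⟨x, -, rfl⟩ := Finset.mem_image.mp hm'
    exact hm x)
  rw [Fintype.card_fin]
  have h2 : ∑ A : Fin Y, ∏ x ∈ S, nuH K η ℓ w Y σ gen (A, x) =
      ∑ A ∈ Icc 1 Y, ∏ m ∈ S.image (mx gen), nuQ K η ℓ w (sh σ (Wp w * m * A)) := by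
    rw [← sum_fin_Icc]
    apply Finset.sum_congr rfl
    intro A _
    rw [Finset.prod_image (fun a _ b _ hab => hinj hab)]
    rfl
  rw [h2]
  have h4 : ∑ m ∈ S.image (mx gen), ∑ m' ∈ (S.image (mx gen)).erase m, psi C w ℓ m m' =
      ∑ x ∈ S, ∑ y ∈ S.erase x, psi C w ℓ (mx gen x) (mx gen y) := by
    rw [Finset.sum_image (fun a _ b _ hab => hinj hab)]
    apply Finset.sum_congr rfl
    intro x _
    rw [← Finset.image_erase hinj, Finset.sum_image (fun a _ b _ hab => hinj hab)]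
  have h5 : 2 * ∑ x ∈ S, ∑ y ∈ S.erase x, psi C w ℓ (mx gen x) (mx gen y) ≤
      ∑ x ∈ S, ∑ y ∈ S.erase x, PsiH C w ℓ D gen x y := by
    rw [Finset.mul_sum]
    apply Finset.sum_le_sum
    intro x _
    rw [Finset.mul_sum]
    apply Finset.sum_le_sum
    intro y _
    unfold PsiH
    have : 0 ≤ (if x = y then D else 0) := by split_ifs <;> linarith
    linarith
  rw [h4] at h3
  calc |(∑ A ∈ Icc 1 Y, ∏ m ∈ S.image (mx gen), nuQ K η ℓ w (sh σ (Wp w * m * A))) / (Y : ℝ) - 1|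
      = |((∑ A ∈ Icc 1 Y, ∏ m ∈ S.image (mx gen), nuQ K η ℓ w (sh σ (Wp w * m * A))) / (Y : ℝ) -
          sing (PQ K η ℓ w) (S.image (mx gen))) + (sing (PQ K η ℓ w) (S.image (mx gen)) - 1)| := by
        congr 1; ring
    _ ≤ _ := (abs_add_le _ _).trans (by linarith)

/-- the pair term has a small average over a law with small atoms -/
lemma psiH_avg {s V : ℕ} [NeZero V] (C w : ℕ) (ℓ D : ℝ) (hD : 0 ≤ D) (gen : Fin s → ℕ)
    (lam : (Fin s → ZMod V) → ℝ) (ε₁ ε₂ at' : ℝ) (c : ℤ)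
    (hc : Function.Injective (fun g : Fin s → ZMod V => c • g))
    (hlam : ∀ g, 0 ≤ lam g) (hat : ∀ g, lam g ≤ at')
    (h1 : ∀ (y : ℕ) (a : Fin s → ZMod V), ∑ g, lam g * psi C w ℓ y (mx gen (a + c • g)) ≤ ε₁)
    (h2 : at' * D ≤ ε₂) (y a : Fin s → ZMod V) :
    ∑ g, lam g * PsiH C w ℓ D gen y (a + c • g) ≤ 2 * ε₁ + ε₂ := by
  classical
  unfold PsiH
  have e : ∀ g, lam g * (2 * psi C w ℓ (mx gen y) (mx gen (a + c • g)) +
      (if y = a + c • g then D else 0)) =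
      2 * (lam g * psi C w ℓ (mx gen y) (mx gen (a + c • g))) +
        lam g * (if y = a + c • g then D else 0) := fun g => by ring
  rw [Finset.sum_congr rfl (fun g _ => e g), Finset.sum_add_distrib, ← Finset.mul_sum]
  have h3 := h1 (mx gen y) a
  have h4 : ∑ g, lam g * (if y = a + c • g then D else 0) ≤ at' * D := by
    by_cases hex : ∃ g₀, y = a + c • g₀
    · obtain ⟨g₀, hg₀⟩ := hex
      rw [Finset.sum_eq_single g₀]
      · rw [if_pos hg₀]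
        exact mul_le_mul_of_nonneg_right (hat g₀) hD
      · intro g _ hg
        rw [if_neg, mul_zero]
        intro hcon
        apply hg
        apply hc
        have : a + c • g = a + c • g₀ := by rw [← hcon, ← hg₀]
        exact add_left_cancel this
      · intro h; exact absurd (Finset.mem_univ _) h
    · push Not at hex
      rw [Finset.sum_eq_zero]
      · exact mul_nonneg ((hlam 0).trans (hat 0)) hD
      · intro g _
        rw [if_neg (hex g), mul_zero]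
  linarith

end Pool.Agent.H16.GP2
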