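import Pool.Agent.H16.GP2.Fin

/-!
GP2: the main theorem.
-/

set_option autoImplicit false

open Finset Filter

namespace Pool.Agent.H16.GP2

open Pool.Agent.H16 Pool.Agent.H16.GPS

/-- the good `A` -/
def Good {S : ℕ} (κ : ℕ) (W : ℕ) (σ : Bool) (u : ℝ) (gen : Fin S → ℕ) (A : ℕ) : Prop :=
  ∃ m r : ℕ, 0 < m ∧ 2 ≤ r ∧ (∀ p, p.Prime → p ∣ m * r → ∃ i, p = gen i) ∧
    (m : ℝ) ≤ u ∧ (r : ℝ) ≤ u ∧ ∀ j : ℕ, j < κ → (sh σ (W * A * m * r ^ j)).Prime

open Classical in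
theorem main2 (κ : ℕ) (hκ : 2 ≤ κ) (β : ℝ) (hβ : 0 < β) (hβ1 : β ≤ 1 / 4) : ∃ s : ℕ,
    ∀ gen : Fin (s + 1) → ℕ, Function.Injective gen → (∀ i, (gen i).Prime) →
    ∃ c : ℝ, 0 < c ∧ ∃ W : ℕ, 0 < W ∧ ∀ σ : Bool, ∀ᶠ ℓ : ℝ in atTop, ∀ Y : ℕ, Real.exp (ℓ / 2) ≤ Y →
      (W : ℝ) * Y ≤ Real.exp (ℓ - Real.sqrt ℓ) →
      c * (Y : ℝ) ≤ (#((Icc 1 Y).filter (fun A => Good κ W σ (Real.exp (ℓ ^ (2 * β))) gen A)) : ℝ) := by
  -- constants
  set t : ℕ := κ * 2 ^ κ with ht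
  have ht2 : 2 ≤ t := by
    rw [ht]
    have : 1 ≤ 2 ^ κ := Nat.one_le_two_pow
    nlinarith
  set η : ℝ := 1 / (8 * t + 8) with hη
  have ht0 : (0 : ℝ) ≤ t := Nat.cast_nonneg _
  have hη0 : 0 < η := by positivity
  have hη8 : η * (8 * t + 8) ≤ 1 := by
    rw [hη]; rw [one_div, inv_mul_cancel₀ (by positivity)]
  have hη1 : η ≤ 1 / 8 := by
    rw [hη]; apply one_div_le_one_div_of_le (by norm_num); linarith
  set K : ℕ := 16 * t + 1 with hK
  obtain ⟨cm, hcm, hmean⟩ := mean_primeQ η hη0 (by linarith)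
  obtain ⟨c₀, hc₀, hfle⟩ := f_le_nuQ K η hη0 (by linarith)
  obtain ⟨B, hB⟩ := nuQ_bound K η hη0 (by linarith)
  set δ : ℝ := c₀ * cm / 2 with hδ
  have hδ0 : 0 < δ := by positivity
  obtain ⟨n, hn, c₁, hc₁, hdense⟩ := dense_prop κ (by omega) (dhj κ (by omega)) (δ / 2 / 2)
    (by positivity)
  obtain ⟨ηR, hηR, τ, hτ, hrel⟩ := rel_main κ hκ (δ / 2) c₁ (by positivity) hc₁
  set e : ℝ := min ηR 1 with he
  have he0 : 0 < e := lt_min hηR one_pos
  have he1 : e ≤ 1 := min_le_right _ _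
  have heR : e ≤ ηR := min_le_left _ _
  set ε₂ : ℝ := e / (2 * ((t : ℝ) ^ 2 + 1)) with hε₂
  have hε₂0 : 0 < ε₂ := by positivity
  have hε₂t : (t : ℝ) ^ 2 * ε₂ ≤ e / 2 := by
    rw [hε₂, mul_div_assoc', div_le_div_iff₀ (by positivity) (by norm_num)]
    nlinarith
  have hε₂1 : ε₂ ≤ 1 / 2 := by
    rw [hε₂, div_le_div_iff₀ (by positivity) (by norm_num)]
    nlinarith [sq_nonneg (t : ℝ)]
  -- the number of generators
  set s : ℕ := ⌈((t * B + 1 : ℕ) : ℝ) / β⌉₊ with hs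
  refine ⟨s, ?_⟩
  set S : ℕ := s + 1 with hS
  intro gen hginj hgp
  have hS0 : 0 < S := by omega
  have hSβ : ((t * B + 1 : ℕ) : ℝ) ≤ β * S := by
    have h1 := Nat.le_ceil (((t * B + 1 : ℕ) : ℝ) / β)
    rw [← hs, div_le_iff₀ hβ] at h1
    rw [hS]
    push_cast
    push_cast at h1
    nlinarith
  set M₀ : ℕ := ⌈2 * (S : ℝ) * (κ.factorial : ℝ) / τ⌉₊ + 1 with hM₀
  set b : ℕ := ∑ i, gen i with hb
  have hgb : ∀ i, gen i ≤ b := fun i =>
    Finset.single_le_sum (f := gen) (fun i _ => Nat.zero_le _) (Finset.mem_univ i)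
  obtain ⟨w1, hw1⟩ := corrQ t η hη0 hη8 K le_rfl
  obtain ⟨w2, hw2⟩ := sing_close t (e / 8) (by positivity)
  obtain ⟨w3, hw3⟩ := rom_avg (gen ⟨0, hS0⟩) (hgp ⟨0, hS0⟩) (t ^ 3) κ.factorial β hβ (ε₂ / 4) (by positivity)
  set w : ℕ := max (max w1 w2) (max w3 (max b 2)) with hw
  have hw1' : w1 ≤ w := (le_max_left _ _).trans (le_max_left _ _)
  have hw2' : w2 ≤ w := (le_max_right _ _).trans (le_max_left _ _)
  have hw3' : w3 ≤ w := (le_max_left _ _).trans (le_max_right _ _)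
  have hwb : b ≤ w := (le_max_left _ _).trans ((le_max_right _ _).trans (le_max_right _ _))
  have hw2w : 2 ≤ w := (le_max_right _ _).trans ((le_max_right _ _).trans (le_max_right _ _))
  have hgw : ∀ i, gen i ≤ w := fun i => (hgb i).trans hwb
  have hcorr := hw1 w hw1' (e / 8) (by positivity)
  have hsing := hw2 w hw2'
  have hrom := hw3 w hw3'
  set Wd : ℕ := Wp w with hWd
  have hW2 : 2 ≤ Wd := Wp_two_le hw2w
  refine ⟨δ ^ 2 / 12, by positivity, Wd, by omega, fun σ => ?_⟩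
  filter_upwards [hmean w hw2w, hfle w hw2w, hB, hcorr, hsing, hrom,
    ev_mxQ κ n M₀ S b β hβ, ev_rQ κ n M₀ S b β hβ, ev_coinQ t B S β (ε₂ / 2) (by positivity) hβ hSβ,
    eventually_ge_atTop (2 : ℝ)]
    with ℓ hmean hfle hB hcorr hsing hrom hmx hr hcoin hℓ2
  intro Y hY1 hWY
  have hℓ0 : 0 < ℓ := by linarith
  have hℓ1 : 1 ≤ ℓ := by linarith
  set Hd : ℕ := Hp β ℓ with hHd
  set H : ℕ := Hb M₀ β ℓ with hH
  set Q : ℕ := Qb κ n M₀ β ℓ with hQ
  set V : ℕ := Vb κ n M₀ S β ℓ with hV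
  have hVeq : V = κ.factorial * (2 * S * Q) + 1 := rfl
  have hQeq : Q = κ * (κ * n * H) := rfl
  have hHeq : H = Hd * M₀ := rfl
  have hNZ : NeZero V := ⟨by omega⟩
  have hℓβ : 1 ≤ ℓ ^ β := Real.one_le_rpow hℓ1 hβ.le
  have hHdℓ : ℓ ^ β ≤ (Hd : ℝ) := Nat.le_ceil _
  have hHd1 : 1 ≤ Hd := by
    have : (0 : ℝ) < Hd := by linarith
    exact_mod_cast this
  have hM1 : 1 ≤ M₀ := by rw [hM₀]; omega
  have hHdH : Hd ≤ H := by rw [hHeq]; exact Nat.le_mul_of_pos_right _ hM1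
  have hH1 : 1 ≤ H := hHd1.trans hHdH
  have hHℓ : ℓ ^ β ≤ (H : ℝ) := hHdℓ.trans (by exact_mod_cast hHdH)
  have hs1 : 1 ≤ S := by omega
  have hfac : 1 ≤ κ.factorial := Nat.factorial_pos κ
  have hHQ : H ≤ Q := by
    rw [hQeq]
    calc H = 1 * (1 * 1 * H) := by ring
      _ ≤ κ * (κ * n * H) := by gcongr <;> omega
  have hQV : 2 * S * Q ≤ V := by
    rw [hVeq]
    calc 2 * S * Q = 1 * (2 * S * Q) := by ring
      _ ≤ κ.factorial * (2 * S * Q) := Nat.mul_le_mul_right _ hfac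
      _ ≤ _ := Nat.le_succ _
  have hQV2 : Q ≤ 2 * S * Q := by
    calc Q = 1 * 1 * Q := by ring
      _ ≤ 2 * S * Q := by gcongr <;> omega
  have hHV : H ≤ V := (hHQ.trans hQV2).trans hQV
  have hfH : κ.factorial * H ≤ V := by
    rw [hVeq]
    exact (Nat.mul_le_mul_left _ (hHQ.trans hQV2)).trans (Nat.le_succ _)
  have hfHd : κ.factorial * Hd ≤ V := (Nat.mul_le_mul_left _ hHdH).trans hfH
  have hHdV : Hd ≤ V := hHdH.trans hHV
  -- sizes
  have hsq : ℓ ^ (2 * β) ≤ Real.sqrt ℓ := by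
    rw [Real.sqrt_eq_rpow]
    exact Real.rpow_le_rpow_of_exponent_le hℓ1 (by linarith)
  have hb1 : 1 ≤ b := (hgp ⟨0, hS0⟩).one_le.trans (hgb ⟨0, hS0⟩)
  have hmxle : ∀ x : Fin S → ZMod V, (mx gen x : ℝ) ≤ Real.exp (ℓ ^ (2 * β)) := by
    intro x
    have h1 := mx_le gen b hb1 hgb x
    have h2 : (mx gen x : ℝ) ≤ (b : ℝ) ^ (V * S) := by exact_mod_cast h1
    exact h2.trans hmx
  have hmxle2 : ∀ x : Fin S → ZMod V, (mx gen x : ℝ) ≤ Real.exp (Real.sqrt ℓ) := fun x =>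
    (hmxle x).trans (Real.exp_le_exp.mpr hsq)
  have hmxpos : ∀ x : Fin S → ZMod V, 0 < mx gen x := fun x => mx_pos gen hgp x
  have hWmY : ∀ x : Fin S → ZMod V, ((Wd * mx gen x * Y : ℕ) : ℝ) ≤ Real.exp ℓ := by
    intro x
    push_cast
    calc (Wd : ℝ) * (mx gen x : ℝ) * (Y : ℝ) = (Wd * Y) * (mx gen x : ℝ) := by ring
      _ ≤ Real.exp (ℓ - Real.sqrt ℓ) * Real.exp (Real.sqrt ℓ) := by
          gcongr
          exact hmxle2 x
      _ = Real.exp ℓ := by rw [← Real.exp_add]; congr 1; ring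
  have hYpos : 0 < Y := by
    have : (0 : ℝ) < Y := (Real.exp_pos _).trans_le hY1
    exact_mod_cast this
  have : Nonempty (Fin Y) := ⟨⟨0, hYpos⟩⟩
  have hNZe : Real.exp ℓ + 1 ≤ Real.exp (2 * ℓ) := by
    have h1 : Real.exp (2 * ℓ) = Real.exp ℓ * Real.exp ℓ := by rw [← Real.exp_add]; congr 1; ring
    have h2 := Real.add_one_le_exp ℓ
    rw [h1]; nlinarith
  have hn2 : ∀ (x : Fin S → ZMod V) (A : Fin Y), 2 ≤ Wd * mx gen x * ((A : ℕ) + 1) ∧
      ((Wd * mx gen x * ((A : ℕ) + 1) : ℕ) : ℝ) ≤ Real.exp ℓ := by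
    intro x A
    constructor
    · calc 2 = 2 * 1 * 1 := by ring
        _ ≤ Wd * mx gen x * ((A : ℕ) + 1) := by
          apply Nat.mul_le_mul (Nat.mul_le_mul hW2 (hmxpos x)) (by omega)
    · refine le_trans ?_ (hWmY x)
      exact_mod_cast Nat.mul_le_mul_left _ A.2
  have hnn : ∀ (x : Fin S → ZMod V) (A : Fin Y),
      1 ≤ sh σ (Wd * mx gen x * ((A : ℕ) + 1)) ∧
      ((sh σ (Wd * mx gen x * ((A : ℕ) + 1)) : ℕ) : ℝ) ≤ Real.exp (2 * ℓ) := by
    intro x A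
    obtain ⟨h1, h2⟩ := hn2 x A
    obtain ⟨h3, h4⟩ := sh_bounds σ _ h1
    refine ⟨h3, ?_⟩
    have h5 : ((sh σ (Wd * mx gen x * ((A : ℕ) + 1)) : ℕ) : ℝ) ≤
        ((Wd * mx gen x * ((A : ℕ) + 1) : ℕ) : ℝ) + 1 := by exact_mod_cast h4
    linarith
  -- the functions
  set ν : Fin Y × (Fin S → ZMod V) → ℝ := nuH K η ℓ w Y σ gen with hν
  set f : Fin Y × (Fin S → ZMod V) → ℝ := fH c₀ η ℓ w Y Q σ gen with hf
  have hν0 : ∀ p, 0 ≤ ν p := fun p => nuQ_nonneg _ _ _ _ _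
  have hνB : ∀ p, ν p ≤ ℓ ^ B := fun p => hB w _ (hnn p.2 p.1).1 (hnn p.2 p.1).2
  have hfν : ∀ p, 0 ≤ f p ∧ f p ≤ ν p := by
    intro p
    rw [hf, hν]
    unfold fH nuH
    split_ifs with hcase
    · exact ⟨le_rfl, nuQ_nonneg _ _ _ _ _⟩
    · exact ⟨by
        apply mul_nonneg hc₀.le
        apply mul_nonneg (by positivity) (aw_nonneg _ _ _),
        hfle _ _ (hnn p.2 p.1).2⟩
  have hBd : (1 : ℝ) ≤ ℓ ^ B := one_le_pow₀ (by linarith)
  -- laws
  have hne1 : Nonempty (Fin S → Fin H) := ⟨fun _ => ⟨0, by omega⟩⟩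
  have hne3 : Nonempty (Fin S → Fin Hd) := ⟨fun _ => ⟨0, by omega⟩⟩
  have hl : IsPW (lawN n (bx S H V)) := lawN_isPW n hn _
  have hl' : IsPW (lawU (bx S Hd V)) := lawU_isPW _
  have hat : ∀ g, lawN n (bx S H V) g ≤ 1 / (H : ℝ) ^ S :=
    lawN_atom n hn _ _ (box_atom S H V (by omega) hHV)
  have hat' : ∀ g, lawU (bx S Hd V) g ≤ 1 / (Hd : ℝ) ^ S := box_atom S Hd V hHd1 hHdV
  -- the pair term
  set D : ℝ := (ℓ ^ B) ^ t + 1 with hD
  have hD0 : 0 ≤ D := by positivity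
  set Ψ : (Fin S → ZMod V) → (Fin S → ZMod V) → ℝ := PsiH (t ^ 3) w ℓ D gen with hΨ
  have hΨ0 : ∀ x y, 0 ≤ Ψ x y := by
    intro x y
    rw [hΨ]; unfold PsiH
    have h1 := psi_nonneg (t ^ 3) w ℓ (mx gen x) (mx gen y)
    split_ifs <;> linarith
  have hΨs : ∀ x y, Ψ x y = Ψ y x := by
    intro x y
    rw [hΨ]; unfold PsiH
    rw [psi_symm]
    congr 1
    simp only [eq_comm]
  have hΨd : ∀ x, (ℓ ^ B) ^ t + 1 ≤ Ψ x x := by
    intro x
    rw [hΨ]; unfold PsiH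
    have h1 := psi_nonneg (t ^ 3) w ℓ (mx gen x) (mx gen x)
    rw [if_pos rfl]
    linarith
  have hΨd2 : ∀ x, (ℓ ^ B) ^ 2 ≤ Ψ x x := by
    intro x
    refine le_trans ?_ (hΨd x)
    have h1 : (ℓ ^ B) ^ 2 ≤ (ℓ ^ B) ^ t := pow_le_pow_right₀ hBd ht2
    linarith
  have hcg : ∀ T : Finset (Fin S → ZMod V), #T ≤ t →
      |(∑ A : Fin Y, ∏ x ∈ T, ν (A, x)) / (Fintype.card (Fin Y) : ℝ) - 1| ≤
        e / 4 + ∑ x ∈ T, ∑ y ∈ T.erase x, Ψ x y := by
    intro T hT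
    have h1 := corr_gridQ (V := V) K η ℓ (e / 8) (e / 8) (t ^ 3) w Y t D hD0 σ gen hgp hginj
      (hcorr Y hY1 σ) (fun ℳ h1 h2 => hsing (PQ K η ℓ w) (fun p hp => by
        have := mem_primesIoc.mp hp
        exact ⟨this.2.2, this.1⟩) ℳ h1 h2) hgw hmxle2 T hT
    have h2 : e / 8 + e / 8 = e / 4 := by ring
    rw [h2] at h1
    exact h1
  -- averages of the pair term
  have hrom1 : ∀ (y : ℕ) (a : Fin S → ZMod V) (c : ℤ), c ≠ 0 → |c| ≤ κ.factorial →
      ∑ g, lawU (bx S H V) g * psi (t ^ 3) w ℓ y (mx gen (a + c • g)) ≤ ε₂ / 4 := fun y a c h1 h2 =>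
    hrom s H V gen rfl (fun i => ⟨hgp i, hgw i⟩) hHℓ hfH y a c h1 h2
  have hrom2 : ∀ (y : ℕ) (a : Fin S → ZMod V) (c : ℤ), c ≠ 0 → |c| ≤ κ.factorial →
      ∑ g, lawU (bx S Hd V) g * psi (t ^ 3) w ℓ y (mx gen (a + c • g)) ≤ ε₂ / 4 := fun y a c h1 h2 =>
    hrom s Hd V gen rfl (fun i => ⟨hgp i, hgw i⟩) hHdℓ hfHd y a c h1 h2
  have hrom3 : ∀ (y : ℕ) (a : Fin S → ZMod V) (c : ℤ), c ≠ 0 → |c| ≤ κ.factorial →
      ∑ g, lawN n (bx S H V) g * psi (t ^ 3) w ℓ y (mx gen (a + c • g)) ≤ ε₂ / 4 := by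
    intro y a c h1 h2
    apply lawN_avg n hn (bx S H V) (fun g => psi (t ^ 3) w ℓ y (mx gen (a + c • g)))
    intro v
    have h3 := hrom1 y (a + c • v) c h1 h2
    refine le_trans (le_of_eq ?_) h3
    apply Finset.sum_congr rfl
    intro g _
    have : a + c • (g + v) = a + c • v + c • g := by rw [smul_add]; abel
    rw [this]
  have hκfac : (κ : ℤ) ≤ κ.factorial := by exact_mod_cast Nat.self_le_factorial κ
  have hav1 : ∀ (y a : Fin S → ZMod V) (c : ℤ), c ≠ 0 → |c| ≤ κ →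
      ∑ g, lawN n (bx S H V) g * Ψ y (a + c • g) ≤ ε₂ := by
    intro y a c h1 h2
    have h3 := psiH_avg (t ^ 3) w ℓ D hD0 gen (lawN n (bx S H V)) (ε₂ / 4) (ε₂ / 2)
      (1 / (H : ℝ) ^ S) c (smul_inj κ S (2 * S * Q) V hVeq c h1 (Or.inl h2)) hl.1 hat
      (fun y a => hrom3 y a c h1 (h2.trans hκfac)) (hcoin H hHℓ) y a
    rw [hΨ]
    linarith
  have hav2 : ∀ (y a : Fin S → ZMod V),
      ∑ g, lawU (bx S Hd V) g * Ψ y (a + κ.factorial • g) ≤ ε₂ := by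
    intro y a
    have hne : (κ.factorial : ℤ) ≠ 0 := by exact_mod_cast (Nat.factorial_pos κ).ne'
    have h3 := psiH_avg (t ^ 3) w ℓ D hD0 gen (lawU (bx S Hd V)) (ε₂ / 4) (ε₂ / 2)
      (1 / (Hd : ℝ) ^ S) (κ.factorial : ℤ) (smul_inj κ S (2 * S * Q) V hVeq _ hne (Or.inr rfl))
      hl'.1 hat' (fun y a => hrom2 y a _ hne (by rw [abs_of_nonneg (by positivity)]))
      (hcoin Hd hHdℓ) y a
    rw [hΨ]
    simp only [natCast_zsmul] at h3
    linarith
  have hav3 : ∀ (y a : Fin S → ZMod V), ∑ g, lawN n (bx S H V) g * Ψ y (a + g) ≤ ε₂ := by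
    intro y a
    have h3 := hav1 y a 1 one_ne_zero (by rw [abs_one]; exact_mod_cast (by omega : 1 ≤ κ))
    simpa using h3
  have hLF : LFnu κ (lawN n (bx S H V)) ν ηR := by
    have h1 := lf_of_corr2 κ hκ (lawN n (bx S H V)) hl ν (ℓ ^ B) hBd
      (fun p => ⟨hν0 p, hνB p⟩) (e / 4) ε₂ (by positivity) hε₂0.le Ψ hΨ0 hΨs hΨd hcg hav1
    intro T hT
    refine (h1 T hT).trans ?_
    rw [← ht]
    linarith
  have hLFd : LFd κ (lawU (bx S Hd V)) ν ηR := by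
    have h1 := lfd_of_corr2 κ hκ (lawU (bx S Hd V)) hl' ν (ℓ ^ B) hBd
      (fun p => ⟨hν0 p, hνB p⟩) (e / 4) ε₂ (by positivity) hε₂0.le Ψ hΨ0 hΨs hΨd hcg hav2
    intro T
    refine (h1 T).trans ?_
    rw [← ht]
    linarith
  have hNI : NearInv κ (lawN n (bx S H V)) (lawU (bx S Hd V)) τ := by
    apply nearInv_box2 κ S H Hd V n hH1 hHd1 hn τ
    have hH0 : (0 : ℝ) < H := by exact_mod_cast hH1
    have hHd0 : (0 : ℝ) < Hd := by exact_mod_cast hHd1
    rw [div_le_iff₀ hH0, hHeq]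
    push_cast
    have h1 : 2 * (S : ℝ) * (κ.factorial : ℝ) / τ ≤ (M₀ : ℝ) := by
      rw [hM₀]; push_cast
      have := Nat.le_ceil (2 * (S : ℝ) * (κ.factorial : ℝ) / τ)
      linarith
    rw [div_le_iff₀ hτ] at h1
    nlinarith
  -- mean value
  have hmeanx : ∀ x : Fin S → ZMod V, (¬ ∃ i, V ≤ (x i).val + Q) →
      c₀ * cm * (Y : ℝ) ≤ ∑ A : Fin Y, f (A, x) := by
    intro x hx
    have h1 := hmean Y (mx gen x) hY1 (hmxpos x) (hWmY x) (hmxle2 x) (by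
      intro p hp hpd
      obtain ⟨i, hi⟩ := mx_prime gen hgp x p hp hpd
      rw [hi]; exact hgw i) σ
    have h2 : ∑ A : Fin Y, f (A, x) = c₀ * ∑ A ∈ Icc 1 Y, ((Wp w).totient : ℝ) / (Wp w : ℝ) *
        aw (Real.log ((Wp w * mx gen x * Y : ℕ) : ℝ)) (Pool.Agent.H16.GPS.RR η ℓ)
          (sh σ (Wp w * mx gen x * A)) := by
      rw [← sum_fin_Icc, Finset.mul_sum]
      apply Finset.sum_congr rfl
      intro A _
      rw [hf]
      unfold fH
      simp only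
      rw [if_neg hx]
    rw [h2, mul_assoc]
    exact mul_le_mul_of_nonneg_left h1 hc₀.le
  have hcardG : (0 : ℝ) < (Fintype.card (Fin S → ZMod V) : ℝ) := by
    exact_mod_cast Fintype.card_pos
  have hYr : (0 : ℝ) < Y := by exact_mod_cast hYpos
  have hmf : δ ≤ ∑ p, unif (Fin Y × (Fin S → ZMod V)) p * f p := by
    have h1 := interior_frac S V Q
    have h2 : ((S : ℝ) * Q / V) ≤ 1 / 2 := by
      have hVr : (0 : ℝ) < V := by exact_mod_cast (by omega : 0 < V)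
      rw [div_le_iff₀ hVr]
      have h3 : ((2 * S * Q : ℕ) : ℝ) ≤ V := by exact_mod_cast hQV
      push_cast at h3
      linarith
    have h3 : (#(univ.filter (fun x : Fin S → ZMod V => ∃ i, V ≤ (x i).val + Q)) : ℝ) ≤
        1 / 2 * (Fintype.card (Fin S → ZMod V) : ℝ) :=
      h1.trans (mul_le_mul_of_nonneg_right h2 hcardG.le)
    have h4 : (Fintype.card (Fin S → ZMod V) : ℝ) / 2 ≤
        (#(univ.filter (fun x : Fin S → ZMod V => ¬ ∃ i, V ≤ (x i).val + Q)) : ℝ) := by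
      have h5 := Finset.card_filter_add_card_filter_not (s := (univ : Finset (Fin S → ZMod V)))
        (fun x : Fin S → ZMod V => ∃ i, V ≤ (x i).val + Q)
      rw [Finset.card_univ] at h5
      have h6 : ((#(univ.filter (fun x : Fin S → ZMod V => ∃ i, V ≤ (x i).val + Q)) : ℕ) : ℝ) +
        (#(univ.filter (fun x : Fin S → ZMod V => ¬ ∃ i, V ≤ (x i).val + Q)) : ℝ) =
        (Fintype.card (Fin S → ZMod V) : ℝ) := by exact_mod_cast h5
      linarith
    have h7 : ∑ p, unif (Fin Y × (Fin S → ZMod V)) p * f p =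
        (∑ x : Fin S → ZMod V, ∑ A : Fin Y, f (A, x)) /
          ((Y : ℝ) * (Fintype.card (Fin S → ZMod V) : ℝ)) := by
      unfold unif
      rw [← Finset.mul_sum, Fintype.sum_prod_type, Finset.sum_comm, Fintype.card_prod,
        Fintype.card_fin]
      push_cast
      ring
    rw [h7, le_div_iff₀ (by positivity)]
    calc δ * ((Y : ℝ) * (Fintype.card (Fin S → ZMod V) : ℝ)) =
        (Fintype.card (Fin S → ZMod V) : ℝ) / 2 * (c₀ * cm * Y) := by rw [hδ]; ring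
      _ ≤ (#(univ.filter (fun x : Fin S → ZMod V => ¬ ∃ i, V ≤ (x i).val + Q)) : ℝ) *
          (c₀ * cm * Y) := mul_le_mul_of_nonneg_right h4 (by positivity)
      _ = ∑ x ∈ univ.filter (fun x : Fin S → ZMod V => ¬ ∃ i, V ≤ (x i).val + Q), c₀ * cm * Y := by
          rw [Finset.sum_const, nsmul_eq_mul]
      _ ≤ ∑ x ∈ univ.filter (fun x : Fin S → ZMod V => ¬ ∃ i, V ≤ (x i).val + Q),
          ∑ A : Fin Y, f (A, x) := by
          apply Finset.sum_le_sum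
          intro x hx
          exact hmeanx x (Finset.mem_filter.mp hx).2
      _ ≤ ∑ x : Fin S → ZMod V, ∑ A : Fin Y, f (A, x) := by
          apply Finset.sum_le_sum_of_subset_of_nonneg (Finset.filter_subset _ _)
          intro x _ _
          exact Finset.sum_nonneg (fun A _ => (hfν _).1)
  -- second moment
  have hsec := second_moment (lawN n (bx S H V)) hl ν (ℓ ^ B) (fun p => ⟨hν0 p, hνB p⟩) (e / 4) ε₂
    (by positivity) hε₂0.le (by linarith) Ψ hΨ0 hΨs hΨd2 (fun T hT => hcg T (hT.trans ht2)) hav3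
  -- positive proportion
  have hpos := pos_prop κ (by omega) (lawN n (bx S H V)) hl ν f hfν δ (c₁ / 2) hδ0 (by positivity)
    hsec hmf (fun f' hf' hm' => hrel (Fin Y) (Fin S → ZMod V) (lawN n (bx S H V))
      (lawU (bx S Hd V)) hl hl' ν f' hLF hLFd hNI
      (fun g hg hg2 => hdense (Fin Y) (Fin S → ZMod V) (Fin S → Fin H) (bx S H V) g hg hg2) hf' hm')
  rw [Fintype.card_fin] at hpos
  refine hpos.trans ?_
  -- the good `A`
  set GA : Finset (Fin Y) := univ.filter (fun A : Fin Y =>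
      ∃ (x : Fin S → ZMod V) (d : Fin κ → (Fin S → ZMod V)),
        (∀ i, lawN n (bx S H V) (d i) ≠ 0) ∧ ∀ j : Fin κ, f (A, x + LL j d) ≠ 0) with hGA
  have hkey : ∀ A ∈ GA, Good κ Wd σ (Real.exp (ℓ ^ (2 * β))) gen ((A : ℕ) + 1) := by
    intro A hA
    obtain ⟨x, d, hd, hA2⟩ := (Finset.mem_filter.mp hA).2
    obtain ⟨D', hD', hLL⟩ := directions κ n S H V (by omega) d hd
    set r : ℕ := ∏ i, gen i ^ D' i with hrd
    set x' : Fin S → ZMod V := x + LL ⟨0, by omega⟩ d with hx'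
    have h0 := hA2 ⟨0, by omega⟩
    have hint : ¬ ∃ i, V ≤ (x' i).val + Q := by
      intro hcon
      apply h0
      rw [hf]
      unfold fH
      simp only
      rw [if_pos hcon]
    push Not at hint
    refine ⟨mx gen x', r, hmxpos x', ?_, ?_, hmxle x', ?_, ?_⟩
    · have h1 : gen ⟨0, hS0⟩ ∣ r := by
        rw [hrd]
        refine dvd_trans ?_ (Finset.dvd_prod_of_mem (fun i => gen i ^ D' i) (Finset.mem_univ ⟨0, hS0⟩))
        exact dvd_pow_self _ (by have := (hD' ⟨0, hS0⟩).1; omega)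
      have h2 : 0 < r := Finset.prod_pos (fun i _ => pow_pos (hgp i).pos _)
      exact (hgp _).two_le.trans (Nat.le_of_dvd h2 h1)
    · intro p hp hpd
      rcases (Nat.Prime.dvd_mul hp).mp hpd with h | h
      · exact mx_prime gen hgp x' p hp h
      · obtain ⟨i, -, hi⟩ := (Prime.dvd_finsetProd_iff hp.prime _).1 h
        exact ⟨i, (Nat.prime_dvd_prime_iff_eq hp (hgp i)).1 (hp.dvd_of_dvd_pow hi)⟩
    · refine le_trans ?_ hr
      have h1 : r ≤ b ^ (S * (κ * n * H)) := by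
        calc r ≤ ∏ _i : Fin S, b ^ (κ * n * H) := by
              apply Finset.prod_le_prod'
              intro i _
              calc gen i ^ D' i ≤ b ^ D' i := Nat.pow_le_pow_left (hgb i) _
                _ ≤ b ^ (κ * n * H) := Nat.pow_le_pow_right hb1 (hD' i).2
          _ = b ^ (S * (κ * n * H)) := by
              rw [Finset.prod_const, Finset.card_univ, Fintype.card_fin, ← pow_mul]
              congr 1; ring
      exact_mod_cast h1
    · intro j hj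
      have hj' := hA2 ⟨j, hj⟩
      have hxj : x + LL ⟨j, hj⟩ d = x' + fun p => ((j * D' p : ℕ) : ZMod V) := by
        rw [hLL ⟨j, hj⟩, hx', add_assoc]
      have hmxj : mx gen (x + LL ⟨j, hj⟩ d) = mx gen x' * r ^ j := by
        rw [hxj, mx_add gen x' (fun p => j * D' p) (fun i => ?_)]
        · congr 1
          rw [hrd, ← Finset.prod_pow]
          apply Finset.prod_congr rfl
          intro i _
          rw [← pow_mul, mul_comm j]
        · have h1 := hint i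
          have h2 := (hD' i).2
          have h3 : j * D' i ≤ Q := by
            rw [hQeq]
            exact Nat.mul_le_mul hj.le h2
          omega
      have haw : aw (Real.log ((Wp w * mx gen (x + LL ⟨j, hj⟩ d) * Y : ℕ) : ℝ))
          (Pool.Agent.H16.GPS.RR η ℓ)
          (sh σ (Wp w * mx gen (x + LL ⟨j, hj⟩ d) * ((A : ℕ) + 1))) ≠ 0 := by
        intro hcon
        apply hj'
        rw [hf]
        unfold fH
        simp only
        split_ifs
        · rfl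
        · rw [hcon]; simp
      have hpr := (aw_ne_zero haw).1
      rw [hmxj] at hpr
      have h5 : Wp w * (mx gen x' * r ^ j) * ((A : ℕ) + 1) =
          Wd * ((A : ℕ) + 1) * mx gen x' * r ^ j := by rw [hWd]; ring
      rw [h5] at hpr
      exact hpr
  have hinj : Function.Injective (fun A : Fin Y => (A : ℕ) + 1) := by
    intro A A' hAA
    apply Fin.ext
    simp only at hAA
    omega
  have h1 : #GA = #(GA.image (fun A : Fin Y => (A : ℕ) + 1)) :=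
    (Finset.card_image_of_injective _ hinj).symm
  rw [h1]
  have h2 : GA.image (fun A : Fin Y => (A : ℕ) + 1) ⊆
      (Icc 1 Y).filter (fun A => Good κ Wd σ (Real.exp (ℓ ^ (2 * β))) gen A) := by
    intro a ha
    obtain ⟨A, hA, rfl⟩ := Finset.mem_image.mp ha
    rw [Finset.mem_filter, Finset.mem_Icc]
    exact ⟨⟨by omega, A.2⟩, hkey A hA⟩
  exact_mod_cast Finset.card_le_card h2

end Pool.Agent.H16.GP2
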