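import Pool.Agent.H16.GP2.Defs
import Pool.Agent.H16.GPS.Fin2

/-!
GP2: parameters and asymptotic inequalities for the final assembly.
-/

set_option autoImplicit false

open Finset Filter

namespace Pool.Agent.H16.GP2

open Pool.Agent.H16 Pool.Agent.H16.GPS

/-- side of the dual box -/
noncomputable def Hp (β ℓ : ℝ) : ℕ := ⌈ℓ ^ β⌉₊

/-- side of the box -/
noncomputable def Hb (M₀ : ℕ) (β ℓ : ℝ) : ℕ := Hp β ℓ * M₀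

/-- margin -/
noncomputable def Qb (κ n M₀ : ℕ) (β ℓ : ℝ) : ℕ := κ * (κ * n * Hb M₀ β ℓ)

/-- modulus -/
noncomputable def Vb (κ n M₀ S : ℕ) (β ℓ : ℝ) : ℕ := κ.factorial * (2 * S * Qb κ n M₀ β ℓ) + 1

lemma Hp_le {β ℓ : ℝ} (hβ : 0 ≤ β) (hℓ : 1 ≤ ℓ) : (Hp β ℓ : ℝ) ≤ 2 * ℓ ^ β := by
  unfold Hp
  have h1 : 1 ≤ ℓ ^ β := Real.one_le_rpow hℓ hβ
  have h2 := Nat.ceil_lt_add_one (show 0 ≤ ℓ ^ β by linarith)
  linarith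

lemma ev_rpow (C β : ℝ) (hβ : 0 < β) : ∀ᶠ ℓ : ℝ in atTop, C * ℓ ^ β ≤ ℓ ^ (2 * β) := by
  filter_upwards [(tendsto_rpow_atTop hβ).eventually (eventually_ge_atTop C),
    eventually_gt_atTop (0 : ℝ)] with ℓ h1 h2
  have h3 : ℓ ^ (2 * β) = ℓ ^ β * ℓ ^ β := by
    rw [← Real.rpow_add h2]; congr 1; ring
  rw [h3]
  exact mul_le_mul_of_nonneg_right h1 (Real.rpow_nonneg h2.le _)

lemma Hb_le {M₀ : ℕ} {β ℓ : ℝ} (hβ : 0 ≤ β) (hℓ : 1 ≤ ℓ) : (Hb M₀ β ℓ : ℝ) ≤ (2 * M₀) * ℓ ^ β := by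
  unfold Hb
  push_cast
  have := Hp_le hβ hℓ
  calc (Hp β ℓ : ℝ) * M₀ ≤ (2 * ℓ ^ β) * M₀ := mul_le_mul_of_nonneg_right this (Nat.cast_nonneg _)
    _ = _ := by ring

lemma Vb_le {κ n M₀ S : ℕ} {β ℓ : ℝ} (hβ : 0 ≤ β) (hℓ : 1 ≤ ℓ) :
    (Vb κ n M₀ S β ℓ : ℝ) ≤ (κ.factorial * (2 * S * (κ * (κ * n * (2 * M₀)))) + 1) * ℓ ^ β := by
  unfold Vb Qb
  push_cast
  have h := Hb_le (M₀ := M₀) hβ hℓ
  have h1 : 1 ≤ ℓ ^ β := Real.one_le_rpow hℓ hβ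
  have h2 : (κ.factorial : ℝ) * (2 * S * (κ * (κ * n * (Hb M₀ β ℓ : ℝ)))) ≤
      κ.factorial * (2 * S * (κ * (κ * n * ((2 * M₀) * ℓ ^ β)))) := by
    gcongr
  calc _ ≤ (κ.factorial : ℝ) * (2 * S * (κ * (κ * n * ((2 * M₀) * ℓ ^ β)))) + ℓ ^ β := by linarith
    _ = _ := by ring

/-- sizes of the multipliers -/
theorem ev_mxQ (κ n M₀ S b : ℕ) (β : ℝ) (hβ : 0 < β) : ∀ᶠ ℓ : ℝ in atTop,
    (b : ℝ) ^ (Vb κ n M₀ S β ℓ * S) ≤ Real.exp (ℓ ^ (2 * β)) := by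
  set C : ℝ := (κ.factorial * (2 * S * (κ * (κ * n * (2 * M₀)))) + 1) with hC
  have hC0 : 0 ≤ C := by positivity
  filter_upwards [ev_rpow (C * S * b) β hβ, eventually_ge_atTop (1 : ℝ)] with ℓ h1 h2
  have hb : (b : ℝ) ≤ Real.exp b := by
    have := Real.add_one_le_exp (b : ℝ); linarith
  calc (b : ℝ) ^ (Vb κ n M₀ S β ℓ * S) ≤ (Real.exp b) ^ (Vb κ n M₀ S β ℓ * S) :=
        pow_le_pow_left₀ (Nat.cast_nonneg _) hb _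
    _ = Real.exp (((Vb κ n M₀ S β ℓ * S : ℕ) : ℝ) * b) := by rw [← Real.exp_nat_mul]
    _ ≤ _ := by
        apply Real.exp_le_exp.mpr
        push_cast
        have h3 := Vb_le (κ := κ) (n := n) (M₀ := M₀) (S := S) hβ.le h2
        calc (Vb κ n M₀ S β ℓ : ℝ) * S * b ≤ (C * ℓ ^ β) * S * b := by gcongr
          _ = C * S * b * ℓ ^ β := by ring
          _ ≤ _ := h1

theorem ev_rQ (κ n M₀ S b : ℕ) (β : ℝ) (hβ : 0 < β) : ∀ᶠ ℓ : ℝ in atTop,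
    (b : ℝ) ^ (S * (κ * n * Hb M₀ β ℓ)) ≤ Real.exp (ℓ ^ (2 * β)) := by
  filter_upwards [ev_rpow (S * (κ * n * (2 * M₀)) * b) β hβ, eventually_ge_atTop (1 : ℝ)] with ℓ h1 h2
  have hb : (b : ℝ) ≤ Real.exp b := by
    have := Real.add_one_le_exp (b : ℝ); linarith
  calc (b : ℝ) ^ (S * (κ * n * Hb M₀ β ℓ)) ≤ (Real.exp b) ^ (S * (κ * n * Hb M₀ β ℓ)) :=
        pow_le_pow_left₀ (Nat.cast_nonneg _) hb _
    _ = Real.exp (((S * (κ * n * Hb M₀ β ℓ) : ℕ) : ℝ) * b) := by rw [← Real.exp_nat_mul]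
    _ ≤ _ := by
        apply Real.exp_le_exp.mpr
        push_cast
        have h3 := Hb_le (M₀ := M₀) hβ.le h2
        calc (S : ℝ) * (κ * n * (Hb M₀ β ℓ : ℝ)) * b ≤ S * (κ * n * ((2 * M₀) * ℓ ^ β)) * b := by gcongr
          _ = S * (κ * n * (2 * M₀)) * b * ℓ ^ β := by ring
          _ ≤ _ := h1

/-- the coincidence term tends to `0` -/
theorem ev_coinQ (t B S : ℕ) (β ε : ℝ) (hε : 0 < ε) (hβ : 0 < β) (hS : ((t * B + 1 : ℕ) : ℝ) ≤ β * S) :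
    ∀ᶠ ℓ : ℝ in atTop, ∀ H : ℕ, ℓ ^ β ≤ H → 1 / (H : ℝ) ^ S * ((ℓ ^ B) ^ t + 1) ≤ ε := by
  filter_upwards [eventually_ge_atTop (2 / ε), eventually_ge_atTop (1 : ℝ)] with ℓ h1 h2 H hH
  have hℓ0 : 0 < ℓ := by linarith
  have h3 : ℓ ^ (t * B + 1) ≤ (H : ℝ) ^ S := by
    calc ℓ ^ (t * B + 1) = ℓ ^ (((t * B + 1 : ℕ) : ℝ)) := (Real.rpow_natCast _ _).symm
      _ ≤ ℓ ^ (β * S) := Real.rpow_le_rpow_of_exponent_le h2 hS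
      _ = (ℓ ^ β) ^ S := by rw [Real.rpow_mul hℓ0.le, Real.rpow_natCast]
      _ ≤ _ := pow_le_pow_left₀ (Real.rpow_nonneg hℓ0.le _) hH _
  have h6 : 1 / (H : ℝ) ^ S ≤ 1 / ℓ ^ (t * B + 1) := one_div_le_one_div_of_le (by positivity) h3
  have h7 : (ℓ ^ B) ^ t + 1 ≤ 2 * ℓ ^ (t * B) := by
    rw [← pow_mul, mul_comm B t]
    have : (1 : ℝ) ≤ ℓ ^ (t * B) := one_le_pow₀ h2
    linarith
  calc 1 / (H : ℝ) ^ S * ((ℓ ^ B) ^ t + 1) ≤ (1 / ℓ ^ (t * B + 1)) * (2 * ℓ ^ (t * B)) := by gcongr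
    _ = 2 / ℓ := by field_simp; ring
    _ ≤ ε := by
        rw [div_le_iff₀ hℓ0]
        rw [div_le_iff₀ hε] at h1
        linarith

end Pool.Agent.H16.GP2
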