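import Mathlib

/-!
JOB GP2-ROMCOUNT (MP_c183ae_nt). Counting in an arithmetic progression modulo `V`, with wrap-around.

PROOF. Let `a₀ = a.val < V`, `x = a₀ + c (ξ+1) ∈ [-V, 2V)` (integers, `|c| (ξ+1) ≤ |c| H ≤ V`). The value
`(a + c • (ξ+1)).val` is `x + k V` for one `k ∈ {-1, 0, 1}` (the one with `0 ≤ x + k V < V`). So the set is contained in the union
over the three `k` of `{ξ : x + k V ≡ u mod D}`. For fixed `k`: `c (ξ+1) ≡ v_k mod D`. Two solutions `ξ, ξ'` satisfy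
`D ∣ c (ξ - ξ')`, so `D / gcd(c, D) ∣ ξ - ξ'`, with `D / gcd(c, D) ≥ D / |c|`. So there are at most
`(H - 1)/(D/|c|) + 1 ≤ |c| H / D + 1` solutions in an interval of length `H`. ~100 lines.
-/

set_option autoImplicit false

open Finset

namespace Pool.Agent.H16.GP2

theorem romcount_card {H m : ℕ} (S : Finset (Fin H))
    (hS : ∀ x ∈ S, ∀ y ∈ S, (x : ℕ) % m = (y : ℕ) % m) : #S ≤ H / m + 1 := by
  have h : #S ≤ #(range (H / m + 1)) := by
    apply card_le_card_of_injOn (fun x : Fin H => (x : ℕ) / m)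
    · intro x _
      rw [coe_range, Set.mem_Iio]
      have := Nat.div_le_div_right (c := m) x.2.le
      change (x : ℕ) / m < H / m + 1
      omega
    · intro x hx y hy hxy
      have h1 := hS x hx y hy
      have h2 : (x : ℕ) / m = (y : ℕ) / m := hxy
      apply Fin.ext
      rw [← Nat.div_add_mod (x : ℕ) m, ← Nat.div_add_mod (y : ℕ) m, h1, h2]
  rwa [card_range] at h

theorem romcount_step {H D : ℕ} (hD : 1 ≤ D) {c : ℤ} (hc : c ≠ 0) (t : ℤ) :
    (#(univ.filter (fun ξ : Fin H => (D : ℤ) ∣ c * ((ξ : ℕ) : ℤ) - t)) : ℝ) ≤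
      (|c| : ℤ) * (H : ℝ) / D + 1 := by
  set g := Int.gcd c D with hg
  have hg0 : 0 < g := Int.gcd_pos_of_ne_zero_left _ hc
  have hgD : g ∣ D := by
    have := Int.gcd_dvd_natAbs_right c (D : ℤ)
    simpa using this
  obtain ⟨m, hm⟩ := hgD
  have hm0 : 0 < m := by
    rcases Nat.eq_zero_or_pos m with h | h
    · rw [h, mul_zero] at hm; omega
    · exact h
  have hgc : (g : ℤ) ∣ c := Int.gcd_dvd_left _ _
  obtain ⟨c', hc'⟩ := hgc
  have hcop : IsCoprime (m : ℤ) c' := by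
    have h1 : Int.gcd c D = g * Int.gcd c' m := by
      conv_lhs => rw [hc', hm]
      push_cast
      rw [Int.gcd_mul_left]
      simp
    rw [← hg] at h1
    have h2 : Int.gcd c' m = 1 := by
      have := Nat.eq_of_mul_eq_mul_left hg0 (show g * 1 = g * Int.gcd c' m by rw [mul_one]; exact h1)
      exact this.symm
    rw [Int.isCoprime_iff_gcd_eq_one, Int.gcd_comm]
    exact h2
  have hcard := romcount_card (m := m) (univ.filter (fun ξ : Fin H =>
    (D : ℤ) ∣ c * ((ξ : ℕ) : ℤ) - t)) (by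
      intro x hx y hy
      rw [mem_filter] at hx hy
      have h3 : (D : ℤ) ∣ c * (((x : ℕ) : ℤ) - ((y : ℕ) : ℤ)) := by
        have h0 : c * (((x : ℕ) : ℤ) - ((y : ℕ) : ℤ)) =
          (c * ((x : ℕ) : ℤ) - t) - (c * ((y : ℕ) : ℤ) - t) := by ring
        rw [h0]
        exact dvd_sub hx.2 hy.2
      have h4 : (m : ℤ) ∣ c' * (((x : ℕ) : ℤ) - ((y : ℕ) : ℤ)) := by
        rw [hm, hc'] at h3
        push_cast at h3
        rw [mul_assoc] at h3
        exact (mul_dvd_mul_iff_left (by exact_mod_cast hg0.ne')).1 h3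
      have h5 : (m : ℤ) ∣ ((x : ℕ) : ℤ) - ((y : ℕ) : ℤ) := hcop.dvd_of_dvd_mul_left h4
      exact (Nat.modEq_iff_dvd.2 h5).symm)
  have hgle : (g : ℤ) ≤ |c| := by
    have := Int.le_of_dvd (abs_pos.2 hc) ((dvd_abs _ _).2 (Int.gcd_dvd_left c (D : ℤ)))
    rwa [← hg] at this
  have hgle' : (g : ℝ) ≤ ((|c| : ℤ) : ℝ) := by exact_mod_cast hgle
  have hDr : (D : ℝ) = g * m := by exact_mod_cast hm
  have hg0r : (0 : ℝ) < g := by exact_mod_cast hg0
  have hm0r : (0 : ℝ) < m := by exact_mod_cast hm0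
  have h1 : ((H / m : ℕ) : ℝ) ≤ (H : ℝ) / m := Nat.cast_div_le
  have h2 : (H : ℝ) / m = g * H / D := by
    rw [hDr]
    field_simp
  have h3 : (g : ℝ) * H / D ≤ ((|c| : ℤ) : ℝ) * H / D := by
    gcongr
  calc (#(univ.filter (fun ξ : Fin H => (D : ℤ) ∣ c * ((ξ : ℕ) : ℤ) - t)) : ℝ)
      ≤ ((H / m + 1 : ℕ) : ℝ) := by exact_mod_cast hcard
    _ = ((H / m : ℕ) : ℝ) + 1 := by push_cast; ring
    _ ≤ _ := by linarith

theorem wrap_count (V H D : ℕ) [NeZero V] (hD : 1 ≤ D) (c : ℤ) (hc : c ≠ 0) (hcH : |c| * H ≤ V)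
    (a : ZMod V) (u : ℕ) :
    (#(univ.filter (fun ξ : Fin H =>
      (a + c • (((ξ : ℕ) + 1 : ℕ) : ZMod V)).val % D = u)) : ℝ) ≤
      3 * ((|c| : ℤ) * (H : ℝ) / D + 1) := by
  have hV : 0 < V := Nat.pos_of_ne_zero (NeZero.ne V)
  have hV' : (0 : ℤ) < V := by exact_mod_cast hV
  set S : ℤ → Finset (Fin H) := fun k => univ.filter (fun ξ : Fin H =>
    (D : ℤ) ∣ c * ((ξ : ℕ) : ℤ) - ((u : ℤ) - (a.val : ℤ) - c - k * V)) with hSd
  have hsub : univ.filter (fun ξ : Fin H =>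
      (a + c • (((ξ : ℕ) + 1 : ℕ) : ZMod V)).val % D = u) ⊆ S (-1) ∪ S 0 ∪ S 1 := by
    intro ξ hξ
    rw [mem_filter] at hξ
    set w := (a + c • (((ξ : ℕ) + 1 : ℕ) : ZMod V)).val with hw
    have hwV : w < V := ZMod.val_lt _
    have hdw : (D : ℤ) ∣ (w : ℤ) - u := by
      rw [← hξ.2]
      exact ⟨(w / D : ℕ), by
        have := Nat.div_add_mod w D
        have h' : (w : ℤ) = D * (w / D : ℕ) + (w % D : ℕ) := by exact_mod_cast this.symm
        linarith⟩
    set x : ℤ := (a.val : ℤ) + c * (((ξ : ℕ) : ℤ) + 1) with hx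
    have hmod : ((w : ℤ) : ZMod V) = (x : ZMod V) := by
      rw [hw, hx]
      push_cast
      rw [ZMod.natCast_val, ZMod.cast_id', id, ZMod.natCast_val, ZMod.cast_id', id, zsmul_eq_mul]
    have hdvd : (V : ℤ) ∣ (w : ℤ) - x := by
      have := (ZMod.intCast_eq_intCast_iff_dvd_sub x w V).1 hmod.symm
      exact this
    obtain ⟨k, hk⟩ := hdvd
    have ha : a.val < V := ZMod.val_lt a
    have hcb : |c * (((ξ : ℕ) : ℤ) + 1)| ≤ V := by
      rw [abs_mul, abs_of_nonneg (show (0 : ℤ) ≤ ((ξ : ℕ) : ℤ) + 1 by positivity)]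
      refine le_trans (mul_le_mul_of_nonneg_left ?_ (abs_nonneg c)) hcH
      have := ξ.2
      omega
    obtain ⟨hc1, hc2⟩ := abs_le.1 hcb
    have hk1 : k < 2 := by
      by_contra hcon
      push Not at hcon
      have : (V : ℤ) * 2 ≤ V * k := mul_le_mul_of_nonneg_left hcon hV'.le
      omega
    have hk2 : -2 < k := by
      by_contra hcon
      push Not at hcon
      have : (V : ℤ) * k ≤ V * (-2) := mul_le_mul_of_nonneg_left hcon hV'.le
      omega
    have hkS : ξ ∈ S k := by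
      rw [hSd, mem_filter]
      refine ⟨mem_univ _, ?_⟩
      have : c * ((ξ : ℕ) : ℤ) - ((u : ℤ) - (a.val : ℤ) - c - k * V) = (w : ℤ) - u := by
        rw [show (w : ℤ) = x + V * k by linarith, hx]
        ring
      rw [this]
      exact hdw
    have hk3 : k = -1 ∨ k = 0 ∨ k = 1 := by omega
    rw [mem_union, mem_union]
    rcases hk3 with h | h | h
    · exact Or.inl (Or.inl (h ▸ hkS))
    · exact Or.inl (Or.inr (h ▸ hkS))
    · exact Or.inr (h ▸ hkS)
  have h1 := card_le_card hsub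
  have h2 : #(S (-1) ∪ S 0 ∪ S 1) ≤ #(S (-1)) + #(S 0) + #(S 1) :=
    (card_union_le _ _).trans (Nat.add_le_add_right (card_union_le _ _) _)
  have h3 : ∀ k, (#(S k) : ℝ) ≤ (|c| : ℤ) * (H : ℝ) / D + 1 := fun k =>
    romcount_step hD hc _
  have h4 : (#(univ.filter (fun ξ : Fin H =>
      (a + c • (((ξ : ℕ) + 1 : ℕ) : ZMod V)).val % D = u)) : ℝ) ≤
      (#(S (-1)) : ℝ) + #(S 0) + #(S 1) := by exact_mod_cast h1.trans h2
  have := h3 (-1)
  have := h3 0
  have := h3 1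
  linarith

end Pool.Agent.H16.GP2
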