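import Pool.Agent.H22.Romanov

/-!
JOB GP2-ROMTAIL (MP_c183ae_nt). Romanov's tail, for squarefree moduli composed of primes `> w`.

PROOF. For a nonempty `S ⊆ Q`, `d = ∏ p ∈ S, p`, `D = orderOf (g : ZMod d)`. `w₀ ≥ g`, so `g` is coprime to `d`, `D ≥ 1` (unit of a
finite ring) and `d ∣ g^D - 1`; each `p ∈ S` divides `g^D - 1 > 0`, so `w < p < g^D`: if `w ≥ g^J` then `D > J`.
Group by `i = Nat.log 2 D`, `2^i ≤ D < 2^(i+1)`, `i ≥ Nat.log 2 J =: i₀`: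
`∑_S f(S)/D(S) ≤ ∑_{i ≥ i₀} 2^(-i) ∑_{S : D(S) < 2^(i+1)} f(S)`, `f(S) = ∏ C/p`. If `D(S) < 2^(i+1)` then
`S ⊆ T_i = {p ∈ Q : ∃ D, 1 ≤ D < 2^(i+1), p ∣ g^D - 1}`, so the inner sum is `≤ ∏ p ∈ T_i, (1 + C/p)` (`Finset.prod_one_add` /
`Finset.prod_add`) `≤ ∏ p ∈ T_i, ((1 - 1/p)⁻¹)^C` (Bernoulli, `(1-1/p)⁻¹ ≥ 1 + 1/p`) `≤ (8 e^11 log N_i)^C`
(`Pool.Agent.H22.prod_few_primes`) where `#T_i ≤ N_i := g * 4^(i+1)`: `∏ p ∈ T_i, p` divides `∏_{1 ≤ D < 2^(i+1)} (g^D - 1)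
≤ g^(4^(i+1))` (pairwise coprime primes each dividing the product), and `2^#T ≤ ∏ p`, `g ≤ 2^g`. So
`∑ ≤ ∑_{i ≥ i₀} 2^(-i) (c_g (i+1))^C`, the tail of a convergent series (`summable_pow_mul_geometric_of_norm_lt_one` or similar),
`≤ ε` for `i₀` large. ~180 lines.
-/

set_option autoImplicit false

open Finset

namespace Pool.Agent.H16.GP2

theorem rt_card (g : ℕ) (hg : 2 ≤ g) (M : ℕ) (T : Finset ℕ)
    (hT : ∀ p ∈ T, p.Prime ∧ ∃ D, 1 ≤ D ∧ D < M ∧ p ∣ g ^ D - 1) : T.card ≤ g * M ^ 2 := by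
  have hpos : ∀ D ∈ Finset.Ico 1 M, 1 ≤ g ^ D - 1 := by
    intro D hD
    rw [Finset.mem_Ico] at hD
    have h1 : 2 ^ 1 ≤ g ^ D := (Nat.pow_le_pow_left hg 1).trans (Nat.pow_le_pow_right (by omega) hD.1)
    omega
  have hdvd : ∏ p ∈ T, p ∣ ∏ D ∈ Finset.Ico 1 M, (g ^ D - 1) := by
    apply Finset.prod_primes_dvd
    · intro p hp
      exact (hT p hp).1.prime
    · intro p hp
      obtain ⟨-, D, h1, h2, h3⟩ := hT p hp
      exact h3.trans (Finset.dvd_prod_of_mem _ (Finset.mem_Ico.mpr ⟨h1, h2⟩))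
  have hle : ∏ p ∈ T, p ≤ ∏ D ∈ Finset.Ico 1 M, (g ^ D - 1) := by
    apply Nat.le_of_dvd _ hdvd
    exact Finset.prod_pos (fun D hD => hpos D hD)
  have h2 : ∏ D ∈ Finset.Ico 1 M, (g ^ D - 1) ≤ 2 ^ (g * M ^ 2) := by
    calc ∏ D ∈ Finset.Ico 1 M, (g ^ D - 1) ≤ ∏ _D ∈ Finset.Ico 1 M, g ^ M := by
          apply Finset.prod_le_prod'
          intro D hD
          rw [Finset.mem_Ico] at hD
          exact (Nat.sub_le _ _).trans (Nat.pow_le_pow_right (by omega) hD.2.le)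
      _ = g ^ (M * (M - 1)) := by
          rw [Finset.prod_const, Nat.card_Ico, ← pow_mul]
      _ ≤ g ^ (M ^ 2) := by
          apply Nat.pow_le_pow_right (by omega)
          rw [pow_two]
          exact Nat.mul_le_mul_left _ (Nat.sub_le _ _)
      _ ≤ (2 ^ g) ^ (M ^ 2) := Nat.pow_le_pow_left Nat.lt_two_pow_self.le _
      _ = 2 ^ (g * M ^ 2) := by rw [← pow_mul]
  have h3 : 2 ^ T.card ≤ ∏ p ∈ T, p := by
    rw [← Finset.prod_const]
    apply Finset.prod_le_prod'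
    intro p hp
    exact (hT p hp).1.two_le
  exact (Nat.pow_le_pow_iff_right (by norm_num)).mp (h3.trans (hle.trans h2))

theorem rt_factor (C p : ℕ) (hp : 2 ≤ p) : 1 + (C : ℝ) / p ≤ ((1 - 1 / (p : ℝ))⁻¹) ^ C := by
  have h2 : (2 : ℝ) ≤ p := by exact_mod_cast hp
  have h0 : (0 : ℝ) < 1 / p := by positivity
  have h3 : 1 / (p : ℝ) ≤ 1 / 2 := one_div_le_one_div_of_le (by norm_num) h2
  have h4 : 1 + 1 / (p : ℝ) ≤ (1 - 1 / (p : ℝ))⁻¹ := by
    rw [le_inv_comm₀ (by linarith) (by linarith), ← one_div, le_div_iff₀ (by linarith)]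
    nlinarith
  calc 1 + (C : ℝ) / p = 1 + (C : ℝ) * (1 / p) := by ring
    _ ≤ (1 + 1 / (p : ℝ)) ^ C := one_add_mul_le_pow (by linarith) C
    _ ≤ _ := pow_le_pow_left₀ (by linarith) h4 C

theorem rt_sum (C : ℕ) (T : Finset ℕ) (hT : ∀ p ∈ T, p.Prime) (N : ℕ) (hN : 2 ≤ N) (hc : T.card ≤ N) :
    ∑ S ∈ T.powerset, ∏ p ∈ S, (C : ℝ) / p ≤ (8 * Real.exp 11 * Real.log N) ^ C := by
  have h1 : ∑ S ∈ T.powerset, ∏ p ∈ S, (C : ℝ) / p = ∏ p ∈ T, (1 + (C : ℝ) / p) := by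
    rw [Finset.prod_one_add]
  rw [h1]
  calc ∏ p ∈ T, (1 + (C : ℝ) / p) ≤ ∏ p ∈ T, ((1 - 1 / (p : ℝ))⁻¹) ^ C := by
        apply Finset.prod_le_prod
        · intro p hp
          positivity
        · intro p hp
          exact rt_factor C p (hT p hp).two_le
    _ = (∏ p ∈ T, (1 - 1 / (p : ℝ))⁻¹) ^ C := by rw [Finset.prod_pow]
    _ ≤ _ := by
        apply pow_le_pow_left₀
        · apply Finset.prod_nonneg
          intro p hp
          exact zero_le_one.trans (Pool.Agent.H22.factor_ge_one (hT p hp))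
        · exact Pool.Agent.H22.prod_few_primes T hT N hN hc

theorem rt_order (g : ℕ) (hg : 2 ≤ g) (w : ℕ) (hw : g ≤ w) (S : Finset ℕ)
    (hS : ∀ p ∈ S, p.Prime ∧ w < p) :
    1 ≤ orderOf (g : ZMod (∏ p ∈ S, p)) ∧
      ∀ p ∈ S, p ∣ g ^ (orderOf (g : ZMod (∏ p ∈ S, p))) - 1 := by
  set d := ∏ p ∈ S, p with hd
  have hd0 : d ≠ 0 := by
    rw [hd, Finset.prod_ne_zero_iff]
    intro p hp
    exact (hS p hp).1.ne_zero
  have : NeZero d := ⟨hd0⟩
  have hcop : Nat.Coprime g d := by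
    rw [hd]
    apply Nat.Coprime.prod_right
    intro p hp
    rw [Nat.coprime_comm, (hS p hp).1.coprime_iff_not_dvd]
    intro h
    have := Nat.le_of_dvd (by omega) h
    have := (hS p hp).2
    omega
  have hD1 : 1 ≤ orderOf (g : ZMod d) := by
    have h1 : ((ZMod.unitOfCoprime g hcop : (ZMod d)ˣ) : ZMod d) = (g : ZMod d) :=
      ZMod.coe_unitOfCoprime g hcop
    rw [← h1, orderOf_units]
    exact orderOf_pos _
  refine ⟨hD1, ?_⟩
  intro p hp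
  have h2 : (g : ZMod d) ^ orderOf (g : ZMod d) = 1 := pow_orderOf_eq_one _
  have h3 : d ∣ g ^ orderOf (g : ZMod d) - 1 := by
    rw [← ZMod.natCast_eq_zero_iff, Nat.cast_sub (Nat.one_le_pow _ _ (by omega))]
    push_cast
    rw [h2, sub_self]
  exact (Finset.dvd_prod_of_mem _ hp).trans h3

theorem rt_tail (c : ℝ) (C : ℕ) (ε : ℝ) (hε : 0 < ε) : ∃ i₀ : ℕ, ∀ I : ℕ,
    ∑ i ∈ Finset.Ico i₀ I, (1 / 2 : ℝ) ^ i * (c * (i + 1)) ^ C ≤ ε := by
  have h1 : Summable (fun n : ℕ => (n : ℝ) ^ C * (1 / 2 : ℝ) ^ n) :=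
    summable_pow_mul_geometric_of_norm_lt_one C (by norm_num)
  have h2 : Summable (fun n : ℕ => ((n + 1 : ℕ) : ℝ) ^ C * (1 / 2 : ℝ) ^ (n + 1)) :=
    (summable_nat_add_iff 1).mpr h1
  have h3 : Summable (fun i : ℕ => (1 / 2 : ℝ) ^ i * (c * (i + 1)) ^ C) := by
    refine (h2.mul_left (2 * c ^ C)).congr ?_
    intro i
    push_cast
    rw [mul_pow, pow_succ]
    ring
  rw [summable_iff_vanishing_norm] at h3
  obtain ⟨s, hs⟩ := h3 ε hε
  refine ⟨s.sup id + 1, fun I => ?_⟩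
  have h4 := hs (Finset.Ico (s.sup id + 1) I) (by
    rw [Finset.disjoint_left]
    intro a ha has
    rw [Finset.mem_Ico] at ha
    have h5 : id a ≤ s.sup id := Finset.le_sup has
    simp only [id] at h5
    omega)
  exact (le_abs_self _).trans h4.le

theorem rom_tail (g : ℕ) (hg : 2 ≤ g) (C : ℕ) (ε : ℝ) (hε : 0 < ε) : ∃ w₀ : ℕ, ∀ w : ℕ, w₀ ≤ w →
    ∀ Q : Finset ℕ, (∀ p ∈ Q, p.Prime ∧ w < p) →
    ∑ S ∈ Q.powerset.erase ∅, (∏ p ∈ S, (C : ℝ) / p) / (orderOf (g : ZMod (∏ p ∈ S, p)) : ℝ) ≤ ε := by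
  classical
  have hgr : (2 : ℝ) ≤ g := by exact_mod_cast hg
  have hlg : 0 < Real.log g := Real.log_pos (by linarith)
  have hl4 : 0 < Real.log 4 := Real.log_pos (by norm_num)
  obtain ⟨i₀, hi₀⟩ := rt_tail (8 * Real.exp 11 * (Real.log g + Real.log 4)) C ε hε
  refine ⟨max g (g ^ (2 ^ i₀)), fun w hw Q hQ => ?_⟩
  have hwg : g ≤ w := (le_max_left _ _).trans hw
  have hwJ : g ^ (2 ^ i₀) ≤ w := (le_max_right _ _).trans hw
  set D : Finset ℕ → ℕ := fun S => orderOf (g : ZMod (∏ p ∈ S, p)) with hDdef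
  set f : Finset ℕ → ℝ := fun S => ∏ p ∈ S, (C : ℝ) / p with hfdef
  have hf0 : ∀ S, 0 ≤ f S := by
    intro S
    apply Finset.prod_nonneg
    intro p _
    positivity
  have hSS : ∀ S ∈ Q.powerset.erase ∅, S.Nonempty ∧ S ⊆ Q := by
    intro S hS
    rw [Finset.mem_erase, Finset.mem_powerset] at hS
    exact ⟨Finset.nonempty_iff_ne_empty.mpr hS.1, hS.2⟩
  have hord : ∀ S ∈ Q.powerset.erase ∅, 1 ≤ D S ∧ ∀ p ∈ S, p ∣ g ^ (D S) - 1 := by
    intro S hS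
    exact rt_order g hg w hwg S (fun p hp => hQ p ((hSS S hS).2 hp))
  have hbig : ∀ S ∈ Q.powerset.erase ∅, 2 ^ i₀ ≤ D S := by
    intro S hS
    obtain ⟨p, hp⟩ := (hSS S hS).1
    obtain ⟨hD1, hdv⟩ := hord S hS
    have h1 := hdv p hp
    have h2 : 2 ^ 1 ≤ g ^ (D S) := (Nat.pow_le_pow_left hg 1).trans (Nat.pow_le_pow_right (by omega) hD1)
    have h3 : p ≤ g ^ (D S) - 1 := Nat.le_of_dvd (by omega) h1
    have h4 := (hQ p ((hSS S hS).2 hp)).2
    have h5 : g ^ (2 ^ i₀) < g ^ (D S) := by omega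
    exact ((Nat.pow_lt_pow_iff_right (by omega)).mp h5).le
  set I : ℕ := (Q.powerset.erase ∅).sup (fun S => Nat.log 2 (D S)) + 1 with hIdef
  have hterm : ∀ S ∈ Q.powerset.erase ∅, f S / (D S : ℝ) ≤
      ∑ i ∈ Finset.Ico i₀ I, if D S < 2 ^ (i + 1) then (1 / 2 : ℝ) ^ i * f S else 0 := by
    intro S hS
    have hD1 := (hord S hS).1
    set j := Nat.log 2 (D S) with hj
    have hj1 : 2 ^ j ≤ D S := Nat.pow_log_le_self 2 (by omega)
    have hj2 : D S < 2 ^ (j + 1) := Nat.lt_pow_succ_log_self (by norm_num) _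
    have hj3 : i₀ ≤ j := by
      rw [hj]
      exact Nat.le_log_of_pow_le (by norm_num) (hbig S hS)
    have hj4 : j < I := by
      have h5 : Nat.log 2 (D S) ≤ (Q.powerset.erase ∅).sup (fun S => Nat.log 2 (D S)) :=
        Finset.le_sup (f := fun S => Nat.log 2 (D S)) hS
      rw [hIdef]
      omega
    have h6 : f S / (D S : ℝ) ≤ if D S < 2 ^ (j + 1) then (1 / 2 : ℝ) ^ j * f S else 0 := by
      rw [if_pos hj2]
      have h7 : (2 : ℝ) ^ j ≤ D S := by exact_mod_cast hj1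
      have h8 : (0 : ℝ) < 2 ^ j := by positivity
      calc f S / (D S : ℝ) ≤ f S / (2 : ℝ) ^ j := div_le_div_of_nonneg_left (hf0 S) h8 h7
        _ = (1 / 2 : ℝ) ^ j * f S := by rw [one_div, inv_pow]; ring
    refine h6.trans ?_
    exact Finset.single_le_sum
      (f := fun i => if D S < 2 ^ (i + 1) then (1 / 2 : ℝ) ^ i * f S else 0)
      (fun i _ => by
        split_ifs
        · exact mul_nonneg (by positivity) (hf0 S)
        · exact le_rfl)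
      (Finset.mem_Ico.mpr ⟨hj3, hj4⟩)
  refine (Finset.sum_le_sum hterm).trans ?_
  rw [Finset.sum_comm]
  refine (Finset.sum_le_sum (fun i hi => ?_)).trans (hi₀ I)
  set T := Q.filter (fun p => ∃ E, 1 ≤ E ∧ E < 2 ^ (i + 1) ∧ p ∣ g ^ E - 1) with hT
  have hTc : T.card ≤ g * (2 ^ (i + 1)) ^ 2 := by
    apply rt_card g hg
    intro p hp
    rw [hT, Finset.mem_filter] at hp
    exact ⟨(hQ p hp.1).1, hp.2⟩
  have hN : 2 ≤ g * (2 ^ (i + 1)) ^ 2 := by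
    have : 1 ≤ (2 ^ (i + 1)) ^ 2 := Nat.one_le_pow _ _ (by positivity)
    nlinarith
  have h9 : ∑ S ∈ Q.powerset.erase ∅, (if D S < 2 ^ (i + 1) then (1 / 2 : ℝ) ^ i * f S else 0) ≤
      (1 / 2 : ℝ) ^ i * ∑ S ∈ T.powerset, f S := by
    rw [← Finset.sum_filter, Finset.mul_sum]
    apply Finset.sum_le_sum_of_subset_of_nonneg
    · intro S hS
      rw [Finset.mem_filter] at hS
      rw [Finset.mem_powerset]
      intro p hp
      rw [hT, Finset.mem_filter]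
      exact ⟨(hSS S hS.1).2 hp, D S, (hord S hS.1).1, hS.2, (hord S hS.1).2 p hp⟩
    · intro S _ _
      exact mul_nonneg (by positivity) (hf0 S)
  refine h9.trans ?_
  apply mul_le_mul_of_nonneg_left _ (by positivity)
  have h10 := rt_sum C T (fun p hp => by
    rw [hT, Finset.mem_filter] at hp
    exact (hQ p hp.1).1) (g * (2 ^ (i + 1)) ^ 2) hN hTc
  refine h10.trans ?_
  have h11 : Real.log ((g * (2 ^ (i + 1)) ^ 2 : ℕ) : ℝ) = Real.log g + (i + 1) * Real.log 4 := by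
    push_cast
    rw [Real.log_mul (by positivity) (by positivity), ← pow_mul, mul_comm (i + 1) 2, pow_mul,
      show (2 : ℝ) ^ 2 = 4 by norm_num, Real.log_pow]
    push_cast
    ring
  rw [h11]
  apply pow_le_pow_left₀
  · positivity
  · have h12 : Real.log g + (i + 1) * Real.log 4 ≤ (Real.log g + Real.log 4) * (i + 1) := by
      have h13 : (0 : ℝ) ≤ i := by positivity
      nlinarith
    calc 8 * Real.exp 11 * (Real.log g + (i + 1) * Real.log 4)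
        ≤ 8 * Real.exp 11 * ((Real.log g + Real.log 4) * (i + 1)) :=
          mul_le_mul_of_nonneg_left h12 (by positivity)
      _ = _ := by ring

end Pool.Agent.H16.GP2
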