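import Pool.Agent.H16.GP2.Defs
import Pool.Agent.H16.GPS.Num.Prod

/-!
JOB GP2-SINGLOW (MP_c183ae_nt). Lower bound for the singular series.

PROOF. `n = #ℳ ≤ t`. `w₀ ≥ 2 t + 2` and `w₀ ≥ 2 t² / ε + 1`. For `p ∈ Q`: `x = 1/p`, `n x ≤ 1/2`, `ρ = #(ℳ.image (· % p)) ≤ n`, so
`(1 - ρ x)/(1 - x)^n ≥ (1 - n x)/(1 - x)^n ≥ 1 - 2 n² x²` (`prodc_factor n n x` of H16/GPS/Num/Prod.lean). Hence
`sing Q ℳ = ∏ (1 - ρ x)/(1-x)^n ≥ ∏ (1 - 2 n²/p²) ≥ 1 - ∑ 2 n²/p²` (each factor in `[0,1]`), and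
`∑ p ∈ Q, 1/p² ≤ ∑ k > w, 1/k² ≤ 1/w` (telescoping `1/k² ≤ 1/(k-1) - 1/k`; perhaps there is such a lemma in
`H16/GPS/Num/Prod.lean`). ~80 lines.
-/

set_option autoImplicit false

open Finset Filter

namespace Pool.Agent.H16.GP2

open Pool.Agent.H16 Pool.Agent.H16.GPS

private lemma singlow_prod (Q : Finset ℕ) (u : ℕ → ℝ) (h0 : ∀ p ∈ Q, 0 ≤ u p)
    (h1 : ∀ p ∈ Q, u p ≤ 1) :
    0 ≤ ∏ p ∈ Q, (1 - u p) ∧ ∏ p ∈ Q, (1 - u p) ≤ 1 ∧ 1 - ∑ p ∈ Q, u p ≤ ∏ p ∈ Q, (1 - u p) := by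
  induction Q using Finset.induction_on with
  | empty => simp
  | insert a s ha ih =>
    obtain ⟨i1, i2, i3⟩ := ih (fun p hp => h0 p (Finset.mem_insert_of_mem hp))
      (fun p hp => h1 p (Finset.mem_insert_of_mem hp))
    have ha0 := h0 a (Finset.mem_insert_self _ _)
    have ha1 := h1 a (Finset.mem_insert_self _ _)
    rw [Finset.prod_insert ha, Finset.sum_insert ha]
    refine ⟨mul_nonneg (by linarith) i1, ?_, ?_⟩
    · nlinarith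
    · nlinarith

theorem sing_lower (t : ℕ) (ε : ℝ) (hε : 0 < ε) : ∃ w₀ : ℕ, ∀ w : ℕ, w₀ ≤ w → ∀ Q : Finset ℕ,
    (∀ p ∈ Q, p.Prime ∧ w < p) → ∀ ℳ : Finset ℕ, #ℳ ≤ t → 1 - ε ≤ sing Q ℳ := by
  refine ⟨2 * t + 2 + ⌈2 * (t : ℝ) ^ 2 / ε⌉₊, fun w hw Q hQ ℳ hM => ?_⟩
  set n := #ℳ with hn
  have hnt : (n : ℝ) ≤ t := by exact_mod_cast hM
  have hn0 : (0 : ℝ) ≤ n := Nat.cast_nonneg n
  have hw1 : 2 * (t : ℝ) + 2 ≤ w := by
    have : 2 * t + 2 ≤ w := by omega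
    exact_mod_cast this
  have hw2 : 2 * (t : ℝ) ^ 2 / ε ≤ w := by
    refine (Nat.le_ceil _).trans ?_
    have : ⌈2 * (t : ℝ) ^ 2 / ε⌉₊ ≤ w := by omega
    exact_mod_cast this
  have ht0 : (0 : ℝ) ≤ t := Nat.cast_nonneg t
  have hw0 : (0 : ℝ) < w := by linarith
  have hfac : ∀ p ∈ Q, 0 < (p : ℝ) ∧ (n : ℝ) * (1 / p) ≤ 1 / 2 ∧
      1 - 2 * (n : ℝ) ^ 2 * (1 / (p : ℝ) ^ 2) ≤
        (1 - (#(ℳ.image (fun m => m % p)) : ℝ) / p) / (1 - 1 / (p : ℝ)) ^ n := by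
    intro p hp
    obtain ⟨hpp, hwp⟩ := hQ p hp
    have hp0 : (0 : ℝ) < p := by exact_mod_cast hpp.pos
    have hwp' : (w : ℝ) < p := by exact_mod_cast hwp
    have hx1 : (n : ℝ) * (1 / p) ≤ 1 / 2 := by
      rw [mul_one_div, div_le_div_iff₀ hp0 (by norm_num)]
      linarith
    have hxp : 1 / (p : ℝ) ≤ 1 := by
      rw [div_le_one hp0]
      exact_mod_cast hpp.one_lt.le
    have hxp' : 1 / (p : ℝ) < 1 := by
      rw [div_lt_one hp0]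
      exact_mod_cast hpp.one_lt
    refine ⟨hp0, hx1, ?_⟩
    have h3 := prodc_factor n n (1 / (p : ℝ)) (by positivity) hx1 hxp le_rfl
    rw [if_neg (lt_irrefl n), add_zero, abs_le] at h3
    have h4 : (1 - (n : ℝ) * (1 / p)) / (1 - 1 / (p : ℝ)) ^ n ≤
        (1 - (#(ℳ.image (fun m => m % p)) : ℝ) / p) / (1 - 1 / (p : ℝ)) ^ n := by
      refine div_le_div_of_nonneg_right ?_ (pow_nonneg (by linarith) n)
      have h5 : (#(ℳ.image (fun m => m % p)) : ℝ) ≤ n := by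
        exact_mod_cast Finset.card_image_le
      rw [mul_one_div]
      have := div_le_div_of_nonneg_right h5 hp0.le
      linarith
    have h6 : (1 / (p : ℝ)) ^ 2 = 1 / (p : ℝ) ^ 2 := by rw [one_div_pow]
    rw [h6] at h3
    linarith [h3.1]
  have hs : sing Q ℳ = ∏ p ∈ Q, (1 - (#(ℳ.image (fun m => m % p)) : ℝ) / p) /
      (1 - 1 / (p : ℝ)) ^ n := by
    unfold sing VP
    rw [← Finset.prod_pow, ← Finset.prod_div_distrib]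
  rw [hs]
  have hu1 : ∀ p ∈ Q, 2 * (n : ℝ) ^ 2 * (1 / (p : ℝ) ^ 2) ≤ 1 := by
    intro p hp
    obtain ⟨h1, h2, _⟩ := hfac p hp
    have h3 : 0 ≤ (n : ℝ) * (1 / p) := by positivity
    have e : 2 * (n : ℝ) ^ 2 * (1 / (p : ℝ) ^ 2) = 2 * ((n : ℝ) * (1 / p)) ^ 2 := by
      rw [mul_pow, one_div_pow]; ring
    rw [e]
    nlinarith
  obtain ⟨_, _, h3⟩ := singlow_prod Q (fun p => 2 * (n : ℝ) ^ 2 * (1 / (p : ℝ) ^ 2))
    (fun p _ => by positivity) hu1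
  have h4 : ∏ p ∈ Q, (1 - 2 * (n : ℝ) ^ 2 * (1 / (p : ℝ) ^ 2)) ≤
      ∏ p ∈ Q, (1 - (#(ℳ.image (fun m => m % p)) : ℝ) / p) / (1 - 1 / (p : ℝ)) ^ n :=
    Finset.prod_le_prod (fun p hp => by linarith [hu1 p hp]) fun p hp => (hfac p hp).2.2
  have h5 := prodc_sum_sq Q w (by
    have : (1 : ℝ) ≤ w := by linarith
    exact_mod_cast this) fun p hp => (hQ p hp).2
  have h6 : ∑ p ∈ Q, 2 * (n : ℝ) ^ 2 * (1 / (p : ℝ) ^ 2) ≤ ε := by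
    rw [← Finset.mul_sum]
    calc 2 * (n : ℝ) ^ 2 * ∑ p ∈ Q, 1 / (p : ℝ) ^ 2 ≤ 2 * (t : ℝ) ^ 2 * (1 / w) := by
          refine mul_le_mul ?_ h5 (Finset.sum_nonneg fun _ _ => by positivity) (by positivity)
          have := pow_le_pow_left₀ hn0 hnt 2
          linarith
      _ ≤ ε := by
          rw [mul_one_div, div_le_iff₀ hw0]
          rw [div_le_iff₀ hε] at hw2
          linarith
  linarith

end Pool.Agent.H16.GP2
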